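import Pool.Agent.Helper199.AutG.Lie
set_option autoImplicit false
namespace Pool.Agent.Helper199.AutG

/-- derivations of the Lie algebra -/
def IsDer (δ : L →+ L) : Prop := ∀ a b, δ (br a b) = br (δ a) b + br a (δ b)

section
theorem dW_brW (a u : L) (hu : u ∈ W) :
    br a u 0 = 2 * (a 2 * u 0) ∧ br a u 1 = - (2 * (a 2 * u 1)) ∧
    br a u 3 = a 2 * u 1 - u 0 * a 6 ∧
    br a u 4 = a 0 * u 0 + a 2 * u 1 - u 0 * a 7 ∧
    br a u 5 = a 0 * (2 * u 0) + a 2 * u 1 - u 0 * a 8 ∧
    br a u 6 = a 1 * u 1 - u 1 * a 3 ∧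
    br a u 7 = a 1 * u 1 - a 2 * u 0 - u 1 * a 4 ∧
    br a u 8 = a 1 * u 1 - a 2 * (2 * u 0) - u 1 * a 5 := by
  obtain ⟨h1, h2, h3, h4, h5, h6, h7, h8, h9⟩ := hu
  have e0 : br a u 0 = 2 * (a 2 * u 0 - a 0 * u 2) := rfl
  have e1 : br a u 1 = 2 * (a 1 * u 2 - a 2 * u 1) := rfl
  have e3 : br a u 3 = a 0 * u 6 + a 2 * u 3 - u 0 * a 6 - u 2 * a 3 := rfl
  have e4 : br a u 4 = a 0 * u 7 + a 2 * u 4 - u 0 * a 7 - u 2 * a 4 := rfl
  have e5 : br a u 5 = a 0 * u 8 + a 2 * u 5 - u 0 * a 8 - u 2 * a 5 := rfl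
  have e6 : br a u 6 = a 1 * u 3 - a 2 * u 6 - u 1 * a 3 + u 2 * a 6 := rfl
  have e7 : br a u 7 = a 1 * u 4 - a 2 * u 7 - u 1 * a 4 + u 2 * a 7 := rfl
  have e8 : br a u 8 = a 1 * u 5 - a 2 * u 8 - u 1 * a 5 + u 2 * a 8 := rfl
  rw [e0, e1, e3, e4, e5, e6, e7, e8, h1, h2, h3, h4, h5, h6, h7]
  refine ⟨by ring, by ring, by ring, by ring, by ring, by ring, by ring, by ring⟩

theorem dW_J (a b c : L) : br a (br b c) + br b (br c a) + br c (br a b) = 0 := by
  rw [jacobi a b c, br_swap c (br a b), br_swap c a, br_neg_right]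
  abel

theorem dW_br_sub (a b c : L) : br a (b - c) = br a b - br a c := by
  rw [sub_eq_add_neg, br_add_right, br_neg_right, sub_eq_add_neg]

theorem der_W (δ : L →+ L)
    (h : ∀ a b, δ (br a b) - (br (δ a) b + br a (δ b)) ∈ W) : IsDer δ := by
  let om : L → L → L := fun a b => δ (br a b) - (br (δ a) b + br a (δ b))
  have homd : ∀ a b, om a b = δ (br a b) - (br (δ a) b + br a (δ b)) := fun a b => rfl
  have hW : ∀ a b, om a b ∈ W := h
  have hsw : ∀ a b, om b a = - om a b := by
    intro a b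
    rw [homd, homd, br_swap b a, br_swap (δ b) a, br_swap b (δ a), map_neg]
    abel
  have hV : ∀ a b c, br a (om b c) + br b (om c a) + br c (om a b) ∈ W := by
    intro a b c
    have h1 := congrArg δ (dW_J a b c)
    rw [map_add, map_add, map_zero] at h1
    have h2 := dW_J (δ a) b c
    have h3 := dW_J a (δ b) c
    have h4 := dW_J a b (δ c)
    have key : br a (om b c) + br b (om c a) + br c (om a b) =
        -(om a (br b c) + om b (br c a) + om c (br a b)) := by
      rw [homd b c, homd c a, homd a b, homd a (br b c), homd b (br c a), homd c (br a b)]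
      rw [dW_br_sub, dW_br_sub, dW_br_sub, br_add_right, br_add_right, br_add_right]
      linear_combination h1 - h2 - h3 - h4
    rw [key]
    exact W.neg_mem (W.add_mem (W.add_mem (hW _ _) (hW _ _)) (hW _ _))
  -- the linear equations
  have hrel : ∀ a b c : L,
      (om b c 1 * (a 1 - a 3) + om c a 1 * (b 1 - b 3) + om a b 1 * (c 1 - c 3) = 0) ∧
      (3 * (om b c 1 * a 2 + om c a 1 * b 2 + om a b 1 * c 2) =
        om b c 0 * a 6 + om c a 0 * b 6 + om a b 0 * c 6) ∧
      (om b c 0 * (a 0 - a 7 + a 6) + om c a 0 * (b 0 - b 7 + b 6) +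
        om a b 0 * (c 0 - c 7 + c 6) = 0) ∧
      (om b c 0 * (2 * a 0 - a 8 + a 6) + om c a 0 * (2 * b 0 - b 8 + b 6) +
        om a b 0 * (2 * c 0 - c 8 + c 6) = 0) ∧
      (om b c 1 * (a 4 - a 5) + om c a 1 * (b 4 - b 5) + om a b 1 * (c 4 - c 5) =
        3 * (om b c 0 * a 2 + om c a 0 * b 2 + om a b 0 * c 2)) := by
    intro a b c
    obtain ⟨w2, w3, w4, w5, w6, w7, w8, _, _⟩ := hV a b c
    obtain ⟨a0, a1, a3, a4, a5, a6, a7, a8⟩ := dW_brW a (om b c) (hW b c)
    obtain ⟨b0, b1, b3, b4, b5, b6, b7, b8⟩ := dW_brW b (om c a) (hW c a)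
    obtain ⟨c0, c1, c3, c4, c5, c6, c7, c8⟩ := dW_brW c (om a b) (hW a b)
    simp only [Pi.add_apply] at w2 w3 w4 w5 w6 w7 w8
    rw [a3, b3, c3, a1, b1, c1] at w3
    rw [a4, b4, c4, a1, b1, c1] at w4
    rw [a5, b5, c5, a1, b1, c1] at w5
    rw [a6, b6, c6] at w6
    rw [a7, b7, c7, a0, b0, c0] at w7
    rw [a8, b8, c8, a0, b0, c0] at w8
    refine ⟨?_, ?_, ?_, ?_, ?_⟩
    · linear_combination w6
    · linear_combination w3
    · linear_combination w4 - w3
    · linear_combination w5 - w3
    · linear_combination w8 - w7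
  let e : Fin 11 → L := fun i => Pi.single i 1
  have he : ∀ i, e i i = 1 := fun i => Pi.single_eq_same i 1
  have he' : ∀ i j, j ≠ i → e i j = 0 := fun i j hij => Pi.single_eq_of_ne hij 1
  -- t vanishes on the kernel of x1 - x3
  have s78 : om (e 7) (e 8) 0 = 0 := by
    have t1 : ∀ a b : L, a 1 - a 3 = 0 → b 1 - b 3 = 0 → om a b 1 = 0 := by
      intro a b ha hb
      have := (hrel a b (e 1)).1
      rw [ha, hb, he 1, he' 1 3 (by decide)] at this
      linear_combination this
    have q : ∀ i : Fin 11, 1 ≠ i → 3 ≠ i → e i 1 - e i 3 = 0 := by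
      intro i h1 h3
      rw [he' i 1 h1, he' i 3 h3, sub_zero]
    have := (hrel (e 6) (e 7) (e 8)).2.1
    rw [t1 _ _ (q 7 (by decide) (by decide)) (q 8 (by decide) (by decide)),
      t1 _ _ (q 8 (by decide) (by decide)) (q 6 (by decide) (by decide)),
      t1 _ _ (q 6 (by decide) (by decide)) (q 7 (by decide) (by decide)),
      he 6, he' 7 6 (by decide), he' 8 6 (by decide)] at this
    linear_combination -this
  have s0 : ∀ a b, om a b 0 = 0 := by
    have s1 : ∀ b, om b (e 7) 0 = 0 := by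
      intro b
      have := (hrel b (e 7) (e 8)).2.2.2.1
      rw [s78, he' 7 0 (by decide), he' 7 8 (by decide), he' 7 6 (by decide), he 8,
        he' 8 0 (by decide), he' 8 6 (by decide)] at this
      linear_combination -this
    intro a b
    have := (hrel a b (e 7)).2.2.1
    rw [s1 b, hsw a (e 7), Pi.neg_apply, s1 a, he 7, he' 7 0 (by decide),
      he' 7 6 (by decide)] at this
    linear_combination -this
  have t21 : om (e 2) (e 1) 1 = 0 := by
    have := (hrel (e 2) (e 1) (e 4)).2.2.2.2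
    rw [s0, s0, s0, he' 2 4 (by decide), he' 2 5 (by decide), he' 1 4 (by decide),
      he' 1 5 (by decide), he 4, he' 4 5 (by decide)] at this
    linear_combination this
  have h3 : ∀ x : ZMod 5, 3 * x = 0 → x = 0 := by decide
  have t0 : ∀ a b, om a b 1 = 0 := by
    have t1 : ∀ b, om b (e 2) 1 = 0 := by
      intro b
      have := (hrel b (e 2) (e 1)).1
      rw [t21, he' 2 1 (by decide), he' 2 3 (by decide), he 1, he' 1 3 (by decide)] at this
      linear_combination this
    intro a b
    have := (hrel a b (e 2)).2.1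
    rw [s0, s0, s0, t1 b, hsw a (e 2), Pi.neg_apply, t1 a, he 2] at this
    refine h3 _ ?_
    linear_combination this
  intro a b
  have hz : om a b = 0 := by
    obtain ⟨w2, w3, w4, w5, w6, w7, w8, w9, w10⟩ := hW a b
    rw [t0] at w3 w4 w5
    rw [s0] at w7 w8
    rw [mul_zero] at w8
    funext i
    fin_cases i
    · exact s0 a b
    · exact t0 a b
    · exact w2
    · exact w3
    · exact w4
    · exact w5
    · exact w6
    · exact w7
    · exact w8
    · exact w9
    · exact w10
  exact sub_eq_zero.mp hz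
end

section
/-- basis vector -/
def bv_11846 (j : Fin 11) : L := Pi.single j 1

theorem br_b0_11846 (a : L) : br a (bv_11846 0) = ![2 * a 2, 0, -(a 1), -(a 6), -(a 7), -(a 8), 0, 0, 0, 0, 0] := by
  ext i
  fin_cases i <;> simp [br, bv_11846, Pi.single_apply]

theorem br_b1_11846 (a : L) : br a (bv_11846 1) = ![0, -(2 * a 2), a 0, 0, 0, 0, -(a 3), -(a 4), -(a 5), 0, 0] := by
  ext i
  fin_cases i <;> simp [br, bv_11846, Pi.single_apply]

theorem br_b2_11846 (a : L) : br a (bv_11846 2) = ![-(2 * a 0), 2 * a 1, 0, -(a 3), -(a 4), -(a 5), a 6, a 7, a 8, 0, 0] := by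
  ext i
  fin_cases i <;> simp [br, bv_11846, Pi.single_apply]

theorem br_b3_11846 (a : L) : br a (bv_11846 3) = ![0, 0, 0, a 2, 0, 0, a 1, 0, 0, -(2 * a 6), 0] := by
  ext i
  fin_cases i <;> simp [br, bv_11846, Pi.single_apply]

theorem br_b4_11846 (a : L) : br a (bv_11846 4) = ![0, 0, 0, 0, a 2, 0, 0, a 1, 0, 2 * a 7, -(2 * a 7)] := by
  ext i
  fin_cases i <;> simp [br, bv_11846, Pi.single_apply]

theorem br_b5_11846 (a : L) : br a (bv_11846 5) = ![0, 0, 0, 0, 0, a 2, 0, 0, a 1, 0, 2 * a 8] := by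
  ext i
  fin_cases i <;> simp [br, bv_11846, Pi.single_apply]

theorem br_b6_11846 (a : L) : br a (bv_11846 6) = ![0, 0, 0, a 0, 0, 0, -(a 2), 0, 0, 2 * a 3, 0] := by
  ext i
  fin_cases i <;> simp [br, bv_11846, Pi.single_apply]

theorem br_b7_11846 (a : L) : br a (bv_11846 7) = ![0, 0, 0, 0, a 0, 0, 0, -(a 2), 0, -(2 * a 4), 2 * a 4] := by
  ext i
  fin_cases i <;> simp [br, bv_11846, Pi.single_apply]

theorem br_b8_11846 (a : L) : br a (bv_11846 8) = ![0, 0, 0, 0, 0, a 0, 0, 0, -(a 2), 0, -(2 * a 5)] := by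
  ext i
  fin_cases i <;> simp [br, bv_11846, Pi.single_apply]

theorem br_b9_11846 (a : L) : br a (bv_11846 9) = ![0, 0, 0, 0, 0, 0, 0, 0, 0, 0, 0] := by
  ext i
  fin_cases i <;> simp [br, bv_11846, Pi.single_apply]

theorem br_b10_11846 (a : L) : br a (bv_11846 10) = ![0, 0, 0, 0, 0, 0, 0, 0, 0, 0, 0] := by
  ext i
  fin_cases i <;> simp [br, bv_11846, Pi.single_apply]

theorem tb_0_1_11846 : br (bv_11846 0) (bv_11846 1) = (1 : ZMod 5) • bv_11846 2 := by
  decide

theorem tb_0_2_11846 : br (bv_11846 0) (bv_11846 2) = (-2 : ZMod 5) • bv_11846 0 := by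
  decide

theorem tb_0_3_11846 : br (bv_11846 0) (bv_11846 3) = 0 := by
  decide

theorem tb_0_4_11846 : br (bv_11846 0) (bv_11846 4) = 0 := by
  decide

theorem tb_0_5_11846 : br (bv_11846 0) (bv_11846 5) = 0 := by
  decide

theorem tb_0_6_11846 : br (bv_11846 0) (bv_11846 6) = (1 : ZMod 5) • bv_11846 3 := by
  decide

theorem tb_0_7_11846 : br (bv_11846 0) (bv_11846 7) = (1 : ZMod 5) • bv_11846 4 := by
  decide

theorem tb_0_8_11846 : br (bv_11846 0) (bv_11846 8) = (1 : ZMod 5) • bv_11846 5 := by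
  decide

theorem tb_0_9_11846 : br (bv_11846 0) (bv_11846 9) = 0 := by
  decide

theorem tb_0_10_11846 : br (bv_11846 0) (bv_11846 10) = 0 := by
  decide

theorem tb_1_2_11846 : br (bv_11846 1) (bv_11846 2) = (2 : ZMod 5) • bv_11846 1 := by
  decide

theorem tb_1_3_11846 : br (bv_11846 1) (bv_11846 3) = (1 : ZMod 5) • bv_11846 6 := by
  decide

theorem tb_1_4_11846 : br (bv_11846 1) (bv_11846 4) = (1 : ZMod 5) • bv_11846 7 := by
  decide

theorem tb_1_5_11846 : br (bv_11846 1) (bv_11846 5) = (1 : ZMod 5) • bv_11846 8 := by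
  decide

theorem tb_1_6_11846 : br (bv_11846 1) (bv_11846 6) = 0 := by
  decide

theorem tb_1_7_11846 : br (bv_11846 1) (bv_11846 7) = 0 := by
  decide

theorem tb_1_8_11846 : br (bv_11846 1) (bv_11846 8) = 0 := by
  decide

theorem tb_1_9_11846 : br (bv_11846 1) (bv_11846 9) = 0 := by
  decide

theorem tb_1_10_11846 : br (bv_11846 1) (bv_11846 10) = 0 := by
  decide

theorem tb_2_3_11846 : br (bv_11846 2) (bv_11846 3) = (1 : ZMod 5) • bv_11846 3 := by
  decide

theorem tb_2_4_11846 : br (bv_11846 2) (bv_11846 4) = (1 : ZMod 5) • bv_11846 4 := by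
  decide

theorem tb_2_5_11846 : br (bv_11846 2) (bv_11846 5) = (1 : ZMod 5) • bv_11846 5 := by
  decide

theorem tb_2_6_11846 : br (bv_11846 2) (bv_11846 6) = (-1 : ZMod 5) • bv_11846 6 := by
  decide

theorem tb_2_7_11846 : br (bv_11846 2) (bv_11846 7) = (-1 : ZMod 5) • bv_11846 7 := by
  decide

theorem tb_2_8_11846 : br (bv_11846 2) (bv_11846 8) = (-1 : ZMod 5) • bv_11846 8 := by
  decide

theorem tb_3_6_11846 : br (bv_11846 3) (bv_11846 6) = (2 : ZMod 5) • bv_11846 9 := by
  decide

theorem tb_3_7_11846 : br (bv_11846 3) (bv_11846 7) = 0 := by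
  decide

theorem tb_3_8_11846 : br (bv_11846 3) (bv_11846 8) = 0 := by
  decide

theorem tb_4_6_11846 : br (bv_11846 4) (bv_11846 6) = 0 := by
  decide

theorem tb_4_7_11846 : br (bv_11846 4) (bv_11846 7) = (-2 : ZMod 5) • bv_11846 9 + (2 : ZMod 5) • bv_11846 10 := by
  decide

theorem tb_4_8_11846 : br (bv_11846 4) (bv_11846 8) = 0 := by
  decide

theorem tb_5_6_11846 : br (bv_11846 5) (bv_11846 6) = 0 := by
  decide

theorem tb_5_7_11846 : br (bv_11846 5) (bv_11846 7) = 0 := by
  decide

theorem tb_5_8_11846 : br (bv_11846 5) (bv_11846 8) = (-2 : ZMod 5) • bv_11846 10 := by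
  decide

set_option maxHeartbeats 4000000 in
theorem der_coord_11846 (δ : L →+ L) (h : IsDer δ) :
    ∃ (a : L) (t : ZMod 5), ∀ j i : Fin 11, δ (bv_11846 j) i = (br a (bv_11846 j)) i + t * (E (bv_11846 j)) i := by
  have h5 : (5 : ZMod 5) = 0 := by decide
  obtain ⟨d, hd⟩ : ∃ d : Fin 11 → Fin 11 → ZMod 5, ∀ j i, δ (bv_11846 j) i = d j i := ⟨fun j i => δ (bv_11846 j) i, fun _ _ => rfl⟩
  have hd' : ∀ j, δ (bv_11846 j) = d j := fun j => funext (hd j)
  have H_0_1 : (1 : ZMod 5) • d 2 = br (d 0) (bv_11846 1) + -br (d 1) (bv_11846 0) := by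
    have := h (bv_11846 0) (bv_11846 1)
    rw [tb_0_1_11846, ZMod.map_smul] at this
    simp only [hd'] at this
    rw [br_swap (bv_11846 0)] at this
    exact this
  rw [br_b1_11846, br_b0_11846] at H_0_1
  have H_0_2 : (-2 : ZMod 5) • d 0 = br (d 0) (bv_11846 2) + -br (d 2) (bv_11846 0) := by
    have := h (bv_11846 0) (bv_11846 2)
    rw [tb_0_2_11846, ZMod.map_smul] at this
    simp only [hd'] at this
    rw [br_swap (bv_11846 0)] at this
    exact this
  rw [br_b2_11846, br_b0_11846] at H_0_2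
  have H_0_3 : (0 : L) = br (d 0) (bv_11846 3) + -br (d 3) (bv_11846 0) := by
    have := h (bv_11846 0) (bv_11846 3)
    rw [tb_0_3_11846, map_zero] at this
    simp only [hd'] at this
    rw [br_swap (bv_11846 0)] at this
    exact this
  rw [br_b3_11846, br_b0_11846] at H_0_3
  have H_0_4 : (0 : L) = br (d 0) (bv_11846 4) + -br (d 4) (bv_11846 0) := by
    have := h (bv_11846 0) (bv_11846 4)
    rw [tb_0_4_11846, map_zero] at this
    simp only [hd'] at this
    rw [br_swap (bv_11846 0)] at this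
    exact this
  rw [br_b4_11846, br_b0_11846] at H_0_4
  have H_0_5 : (0 : L) = br (d 0) (bv_11846 5) + -br (d 5) (bv_11846 0) := by
    have := h (bv_11846 0) (bv_11846 5)
    rw [tb_0_5_11846, map_zero] at this
    simp only [hd'] at this
    rw [br_swap (bv_11846 0)] at this
    exact this
  rw [br_b5_11846, br_b0_11846] at H_0_5
  have H_0_6 : (1 : ZMod 5) • d 3 = br (d 0) (bv_11846 6) + -br (d 6) (bv_11846 0) := by
    have := h (bv_11846 0) (bv_11846 6)
    rw [tb_0_6_11846, ZMod.map_smul] at this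
    simp only [hd'] at this
    rw [br_swap (bv_11846 0)] at this
    exact this
  rw [br_b6_11846, br_b0_11846] at H_0_6
  have H_0_7 : (1 : ZMod 5) • d 4 = br (d 0) (bv_11846 7) + -br (d 7) (bv_11846 0) := by
    have := h (bv_11846 0) (bv_11846 7)
    rw [tb_0_7_11846, ZMod.map_smul] at this
    simp only [hd'] at this
    rw [br_swap (bv_11846 0)] at this
    exact this
  rw [br_b7_11846, br_b0_11846] at H_0_7
  have H_0_8 : (1 : ZMod 5) • d 5 = br (d 0) (bv_11846 8) + -br (d 8) (bv_11846 0) := by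
    have := h (bv_11846 0) (bv_11846 8)
    rw [tb_0_8_11846, ZMod.map_smul] at this
    simp only [hd'] at this
    rw [br_swap (bv_11846 0)] at this
    exact this
  rw [br_b8_11846, br_b0_11846] at H_0_8
  have H_0_9 : (0 : L) = br (d 0) (bv_11846 9) + -br (d 9) (bv_11846 0) := by
    have := h (bv_11846 0) (bv_11846 9)
    rw [tb_0_9_11846, map_zero] at this
    simp only [hd'] at this
    rw [br_swap (bv_11846 0)] at this
    exact this
  rw [br_b9_11846, br_b0_11846] at H_0_9
  have H_0_10 : (0 : L) = br (d 0) (bv_11846 10) + -br (d 10) (bv_11846 0) := by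
    have := h (bv_11846 0) (bv_11846 10)
    rw [tb_0_10_11846, map_zero] at this
    simp only [hd'] at this
    rw [br_swap (bv_11846 0)] at this
    exact this
  rw [br_b10_11846, br_b0_11846] at H_0_10
  have H_1_2 : (2 : ZMod 5) • d 1 = br (d 1) (bv_11846 2) + -br (d 2) (bv_11846 1) := by
    have := h (bv_11846 1) (bv_11846 2)
    rw [tb_1_2_11846, ZMod.map_smul] at this
    simp only [hd'] at this
    rw [br_swap (bv_11846 1)] at this
    exact this
  rw [br_b2_11846, br_b1_11846] at H_1_2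
  have H_1_3 : (1 : ZMod 5) • d 6 = br (d 1) (bv_11846 3) + -br (d 3) (bv_11846 1) := by
    have := h (bv_11846 1) (bv_11846 3)
    rw [tb_1_3_11846, ZMod.map_smul] at this
    simp only [hd'] at this
    rw [br_swap (bv_11846 1)] at this
    exact this
  rw [br_b3_11846, br_b1_11846] at H_1_3
  have H_1_4 : (1 : ZMod 5) • d 7 = br (d 1) (bv_11846 4) + -br (d 4) (bv_11846 1) := by
    have := h (bv_11846 1) (bv_11846 4)
    rw [tb_1_4_11846, ZMod.map_smul] at this
    simp only [hd'] at this
    rw [br_swap (bv_11846 1)] at this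
    exact this
  rw [br_b4_11846, br_b1_11846] at H_1_4
  have H_1_5 : (1 : ZMod 5) • d 8 = br (d 1) (bv_11846 5) + -br (d 5) (bv_11846 1) := by
    have := h (bv_11846 1) (bv_11846 5)
    rw [tb_1_5_11846, ZMod.map_smul] at this
    simp only [hd'] at this
    rw [br_swap (bv_11846 1)] at this
    exact this
  rw [br_b5_11846, br_b1_11846] at H_1_5
  have H_1_6 : (0 : L) = br (d 1) (bv_11846 6) + -br (d 6) (bv_11846 1) := by
    have := h (bv_11846 1) (bv_11846 6)
    rw [tb_1_6_11846, map_zero] at this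
    simp only [hd'] at this
    rw [br_swap (bv_11846 1)] at this
    exact this
  rw [br_b6_11846, br_b1_11846] at H_1_6
  have H_1_7 : (0 : L) = br (d 1) (bv_11846 7) + -br (d 7) (bv_11846 1) := by
    have := h (bv_11846 1) (bv_11846 7)
    rw [tb_1_7_11846, map_zero] at this
    simp only [hd'] at this
    rw [br_swap (bv_11846 1)] at this
    exact this
  rw [br_b7_11846, br_b1_11846] at H_1_7
  have H_1_8 : (0 : L) = br (d 1) (bv_11846 8) + -br (d 8) (bv_11846 1) := by
    have := h (bv_11846 1) (bv_11846 8)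
    rw [tb_1_8_11846, map_zero] at this
    simp only [hd'] at this
    rw [br_swap (bv_11846 1)] at this
    exact this
  rw [br_b8_11846, br_b1_11846] at H_1_8
  have H_1_9 : (0 : L) = br (d 1) (bv_11846 9) + -br (d 9) (bv_11846 1) := by
    have := h (bv_11846 1) (bv_11846 9)
    rw [tb_1_9_11846, map_zero] at this
    simp only [hd'] at this
    rw [br_swap (bv_11846 1)] at this
    exact this
  rw [br_b9_11846, br_b1_11846] at H_1_9
  have H_1_10 : (0 : L) = br (d 1) (bv_11846 10) + -br (d 10) (bv_11846 1) := by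
    have := h (bv_11846 1) (bv_11846 10)
    rw [tb_1_10_11846, map_zero] at this
    simp only [hd'] at this
    rw [br_swap (bv_11846 1)] at this
    exact this
  rw [br_b10_11846, br_b1_11846] at H_1_10
  have H_2_3 : (1 : ZMod 5) • d 3 = br (d 2) (bv_11846 3) + -br (d 3) (bv_11846 2) := by
    have := h (bv_11846 2) (bv_11846 3)
    rw [tb_2_3_11846, ZMod.map_smul] at this
    simp only [hd'] at this
    rw [br_swap (bv_11846 2)] at this
    exact this
  rw [br_b3_11846, br_b2_11846] at H_2_3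
  have H_2_4 : (1 : ZMod 5) • d 4 = br (d 2) (bv_11846 4) + -br (d 4) (bv_11846 2) := by
    have := h (bv_11846 2) (bv_11846 4)
    rw [tb_2_4_11846, ZMod.map_smul] at this
    simp only [hd'] at this
    rw [br_swap (bv_11846 2)] at this
    exact this
  rw [br_b4_11846, br_b2_11846] at H_2_4
  have H_2_5 : (1 : ZMod 5) • d 5 = br (d 2) (bv_11846 5) + -br (d 5) (bv_11846 2) := by
    have := h (bv_11846 2) (bv_11846 5)
    rw [tb_2_5_11846, ZMod.map_smul] at this
    simp only [hd'] at this
    rw [br_swap (bv_11846 2)] at this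
    exact this
  rw [br_b5_11846, br_b2_11846] at H_2_5
  have H_2_6 : (-1 : ZMod 5) • d 6 = br (d 2) (bv_11846 6) + -br (d 6) (bv_11846 2) := by
    have := h (bv_11846 2) (bv_11846 6)
    rw [tb_2_6_11846, ZMod.map_smul] at this
    simp only [hd'] at this
    rw [br_swap (bv_11846 2)] at this
    exact this
  rw [br_b6_11846, br_b2_11846] at H_2_6
  have H_2_7 : (-1 : ZMod 5) • d 7 = br (d 2) (bv_11846 7) + -br (d 7) (bv_11846 2) := by
    have := h (bv_11846 2) (bv_11846 7)
    rw [tb_2_7_11846, ZMod.map_smul] at this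
    simp only [hd'] at this
    rw [br_swap (bv_11846 2)] at this
    exact this
  rw [br_b7_11846, br_b2_11846] at H_2_7
  have H_2_8 : (-1 : ZMod 5) • d 8 = br (d 2) (bv_11846 8) + -br (d 8) (bv_11846 2) := by
    have := h (bv_11846 2) (bv_11846 8)
    rw [tb_2_8_11846, ZMod.map_smul] at this
    simp only [hd'] at this
    rw [br_swap (bv_11846 2)] at this
    exact this
  rw [br_b8_11846, br_b2_11846] at H_2_8
  have H_3_6 : (2 : ZMod 5) • d 9 = br (d 3) (bv_11846 6) + -br (d 6) (bv_11846 3) := by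
    have := h (bv_11846 3) (bv_11846 6)
    rw [tb_3_6_11846, ZMod.map_smul] at this
    simp only [hd'] at this
    rw [br_swap (bv_11846 3)] at this
    exact this
  rw [br_b6_11846, br_b3_11846] at H_3_6
  have H_3_7 : (0 : L) = br (d 3) (bv_11846 7) + -br (d 7) (bv_11846 3) := by
    have := h (bv_11846 3) (bv_11846 7)
    rw [tb_3_7_11846, map_zero] at this
    simp only [hd'] at this
    rw [br_swap (bv_11846 3)] at this
    exact this
  rw [br_b7_11846, br_b3_11846] at H_3_7
  have H_3_8 : (0 : L) = br (d 3) (bv_11846 8) + -br (d 8) (bv_11846 3) := by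
    have := h (bv_11846 3) (bv_11846 8)
    rw [tb_3_8_11846, map_zero] at this
    simp only [hd'] at this
    rw [br_swap (bv_11846 3)] at this
    exact this
  rw [br_b8_11846, br_b3_11846] at H_3_8
  have H_4_6 : (0 : L) = br (d 4) (bv_11846 6) + -br (d 6) (bv_11846 4) := by
    have := h (bv_11846 4) (bv_11846 6)
    rw [tb_4_6_11846, map_zero] at this
    simp only [hd'] at this
    rw [br_swap (bv_11846 4)] at this
    exact this
  rw [br_b6_11846, br_b4_11846] at H_4_6
  have H_4_7 : (-2 : ZMod 5) • d 9 + (2 : ZMod 5) • d 10 = br (d 4) (bv_11846 7) + -br (d 7) (bv_11846 4) := by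
    have := h (bv_11846 4) (bv_11846 7)
    rw [tb_4_7_11846, map_add, ZMod.map_smul, ZMod.map_smul] at this
    simp only [hd'] at this
    rw [br_swap (bv_11846 4)] at this
    exact this
  rw [br_b7_11846, br_b4_11846] at H_4_7
  have H_4_8 : (0 : L) = br (d 4) (bv_11846 8) + -br (d 8) (bv_11846 4) := by
    have := h (bv_11846 4) (bv_11846 8)
    rw [tb_4_8_11846, map_zero] at this
    simp only [hd'] at this
    rw [br_swap (bv_11846 4)] at this
    exact this
  rw [br_b8_11846, br_b4_11846] at H_4_8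
  have H_5_6 : (0 : L) = br (d 5) (bv_11846 6) + -br (d 6) (bv_11846 5) := by
    have := h (bv_11846 5) (bv_11846 6)
    rw [tb_5_6_11846, map_zero] at this
    simp only [hd'] at this
    rw [br_swap (bv_11846 5)] at this
    exact this
  rw [br_b6_11846, br_b5_11846] at H_5_6
  have H_5_7 : (0 : L) = br (d 5) (bv_11846 7) + -br (d 7) (bv_11846 5) := by
    have := h (bv_11846 5) (bv_11846 7)
    rw [tb_5_7_11846, map_zero] at this
    simp only [hd'] at this
    rw [br_swap (bv_11846 5)] at this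
    exact this
  rw [br_b7_11846, br_b5_11846] at H_5_7
  have H_5_8 : (-2 : ZMod 5) • d 10 = br (d 5) (bv_11846 8) + -br (d 8) (bv_11846 5) := by
    have := h (bv_11846 5) (bv_11846 8)
    rw [tb_5_8_11846, ZMod.map_smul] at this
    simp only [hd'] at this
    rw [br_swap (bv_11846 5)] at this
    exact this
  rw [br_b8_11846, br_b5_11846] at H_5_8
  have q0 : (1 * d 2 9 : ZMod 5) = (0) + -(0) := congrFun H_0_1 9
  have q1 : (1 * d 2 10 : ZMod 5) = (0) + -(0) := congrFun H_0_1 10
  have q2 : ((-2) * d 0 0 : ZMod 5) = (-(2 * d 0 0)) + -(2 * d 2 2) := congrFun H_0_2 0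
  have q3 : ((-2) * d 0 1 : ZMod 5) = (2 * d 0 1) + -(0) := congrFun H_0_2 1
  have q4 : ((-2) * d 0 6 : ZMod 5) = (d 0 6) + -(0) := congrFun H_0_2 6
  have q5 : ((-2) * d 0 7 : ZMod 5) = (d 0 7) + -(0) := congrFun H_0_2 7
  have q6 : ((-2) * d 0 8 : ZMod 5) = (d 0 8) + -(0) := congrFun H_0_2 8
  have q7 : ((-2) * d 0 9 : ZMod 5) = (0) + -(0) := congrFun H_0_2 9
  have q8 : ((-2) * d 0 10 : ZMod 5) = (0) + -(0) := congrFun H_0_2 10
  have q9 : (0 : ZMod 5) = (0) + -(2 * d 3 2) := congrFun H_0_3 0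
  have q10 : (0 : ZMod 5) = (0) + -(-(d 3 1)) := congrFun H_0_3 2
  have q11 : (0 : ZMod 5) = (0) + -(-(d 3 7)) := congrFun H_0_3 4
  have q12 : (0 : ZMod 5) = (0) + -(-(d 3 8)) := congrFun H_0_3 5
  have q15 : (0 : ZMod 5) = (0) + -(2 * d 4 2) := congrFun H_0_4 0
  have q16 : (0 : ZMod 5) = (0) + -(-(d 4 1)) := congrFun H_0_4 2
  have q17 : (0 : ZMod 5) = (0) + -(-(d 4 6)) := congrFun H_0_4 3
  have q18 : (0 : ZMod 5) = (0) + -(-(d 4 8)) := congrFun H_0_4 5
  have q22 : (0 : ZMod 5) = (0) + -(2 * d 5 2) := congrFun H_0_5 0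
  have q23 : (0 : ZMod 5) = (0) + -(-(d 5 1)) := congrFun H_0_5 2
  have q24 : (0 : ZMod 5) = (0) + -(-(d 5 6)) := congrFun H_0_5 3
  have q25 : (0 : ZMod 5) = (0) + -(-(d 5 7)) := congrFun H_0_5 4
  have q31 : (1 * d 3 10 : ZMod 5) = (0) + -(0) := congrFun H_0_6 10
  have q38 : (1 * d 5 9 : ZMod 5) = (0) + -(0) := congrFun H_0_8 9
  have q39 : (0 : ZMod 5) = (0) + -(2 * d 9 2) := congrFun H_0_9 0
  have q40 : (0 : ZMod 5) = (0) + -(-(d 9 1)) := congrFun H_0_9 2
  have q41 : (0 : ZMod 5) = (0) + -(-(d 9 6)) := congrFun H_0_9 3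
  have q42 : (0 : ZMod 5) = (0) + -(-(d 9 7)) := congrFun H_0_9 4
  have q43 : (0 : ZMod 5) = (0) + -(-(d 9 8)) := congrFun H_0_9 5
  have q44 : (0 : ZMod 5) = (0) + -(2 * d 10 2) := congrFun H_0_10 0
  have q45 : (0 : ZMod 5) = (0) + -(-(d 10 1)) := congrFun H_0_10 2
  have q46 : (0 : ZMod 5) = (0) + -(-(d 10 6)) := congrFun H_0_10 3
  have q47 : (0 : ZMod 5) = (0) + -(-(d 10 7)) := congrFun H_0_10 4
  have q48 : (0 : ZMod 5) = (0) + -(-(d 10 8)) := congrFun H_0_10 5
  have q49 : (2 * d 1 0 : ZMod 5) = (-(2 * d 1 0)) + -(0) := congrFun H_1_2 0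
  have q51 : (2 * d 1 3 : ZMod 5) = (-(d 1 3)) + -(0) := congrFun H_1_2 3
  have q52 : (2 * d 1 4 : ZMod 5) = (-(d 1 4)) + -(0) := congrFun H_1_2 4
  have q53 : (2 * d 1 5 : ZMod 5) = (-(d 1 5)) + -(0) := congrFun H_1_2 5
  have q54 : (2 * d 1 9 : ZMod 5) = (0) + -(0) := congrFun H_1_2 9
  have q55 : (2 * d 1 10 : ZMod 5) = (0) + -(0) := congrFun H_1_2 10
  have q56 : (1 * d 6 0 : ZMod 5) = (0) + -(0) := congrFun H_1_3 0
  have q57 : (1 * d 6 4 : ZMod 5) = (0) + -(0) := congrFun H_1_3 4
  have q58 : (1 * d 6 5 : ZMod 5) = (0) + -(0) := congrFun H_1_3 5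
  have q59 : (1 * d 6 10 : ZMod 5) = (0) + -(0) := congrFun H_1_3 10
  have q60 : (1 * d 7 0 : ZMod 5) = (0) + -(0) := congrFun H_1_4 0
  have q61 : (1 * d 7 3 : ZMod 5) = (0) + -(0) := congrFun H_1_4 3
  have q62 : (1 * d 7 5 : ZMod 5) = (0) + -(0) := congrFun H_1_4 5
  have q63 : (1 * d 8 0 : ZMod 5) = (0) + -(0) := congrFun H_1_5 0
  have q64 : (1 * d 8 3 : ZMod 5) = (0) + -(0) := congrFun H_1_5 3
  have q65 : (1 * d 8 4 : ZMod 5) = (0) + -(0) := congrFun H_1_5 4
  have q66 : (1 * d 8 9 : ZMod 5) = (0) + -(0) := congrFun H_1_5 9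
  have q67 : (0 : ZMod 5) = (0) + -(-(2 * d 6 2)) := congrFun H_1_6 1
  have q73 : (0 : ZMod 5) = (0) + -(-(2 * d 7 2)) := congrFun H_1_7 1
  have q80 : (0 : ZMod 5) = (0) + -(-(2 * d 8 2)) := congrFun H_1_8 1
  have q87 : (0 : ZMod 5) = (0) + -(d 9 0) := congrFun H_1_9 2
  have q88 : (0 : ZMod 5) = (0) + -(-(d 9 3)) := congrFun H_1_9 6
  have q89 : (0 : ZMod 5) = (0) + -(-(d 9 4)) := congrFun H_1_9 7
  have q90 : (0 : ZMod 5) = (0) + -(-(d 9 5)) := congrFun H_1_9 8
  have q92 : (0 : ZMod 5) = (0) + -(d 10 0) := congrFun H_1_10 2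
  have q93 : (0 : ZMod 5) = (0) + -(-(d 10 3)) := congrFun H_1_10 6
  have q94 : (0 : ZMod 5) = (0) + -(-(d 10 4)) := congrFun H_1_10 7
  have q95 : (0 : ZMod 5) = (0) + -(-(d 10 5)) := congrFun H_1_10 8
  have q96 : (1 * d 3 0 : ZMod 5) = (0) + -(-(2 * d 3 0)) := congrFun H_2_3 0
  have q103 : (1 * d 4 0 : ZMod 5) = (0) + -(-(2 * d 4 0)) := congrFun H_2_4 0
  have q109 : (1 * d 5 0 : ZMod 5) = (0) + -(-(2 * d 5 0)) := congrFun H_2_5 0
  have q117 : ((-1) * d 6 1 : ZMod 5) = (0) + -(2 * d 6 1) := congrFun H_2_6 1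
  have q124 : ((-1) * d 7 1 : ZMod 5) = (0) + -(2 * d 7 1) := congrFun H_2_7 1
  have q130 : ((-1) * d 8 1 : ZMod 5) = (0) + -(2 * d 8 1) := congrFun H_2_8 1
  have q170 : (2 * d 9 10 : ZMod 5) = (0) + -(0) := congrFun H_3_6 10
  have q175 : (0 : ZMod 5) = (2 * d 3 4) + -(0) := congrFun H_3_7 10
  have q180 : (0 : ZMod 5) = (0) + -(-(2 * d 8 6)) := congrFun H_3_8 9
  have q181 : (0 : ZMod 5) = (-(2 * d 3 5)) + -(0) := congrFun H_3_8 10
  have q197 : (0 : ZMod 5) = (0) + -(-(2 * d 6 7)) := congrFun H_4_6 10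
  have q202 : (0 : ZMod 5) = (0) + -(2 * d 8 7) := congrFun H_4_8 9
  have q215 : (0 : ZMod 5) = (2 * d 5 3) + -(0) := congrFun H_5_6 9
  have q216 : (0 : ZMod 5) = (0) + -(2 * d 6 8) := congrFun H_5_6 10
  have q221 : (0 : ZMod 5) = (-(2 * d 5 4)) + -(0) := congrFun H_5_7 9
  have q229 : ((-2) * d 10 9 : ZMod 5) = (0) + -(0) := congrFun H_5_8 9
  have q272 : (1 * d 2 0 : ZMod 5) = (0) + -(2 * d 1 2) := congrFun H_0_1 0
  have q273 : (1 * d 2 1 : ZMod 5) = (-(2 * d 0 2)) + -(0) := congrFun H_0_1 1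
  have q274 : (1 * d 2 3 : ZMod 5) = (0) + -(-(d 1 6)) := congrFun H_0_1 3
  have q275 : (1 * d 2 4 : ZMod 5) = (0) + -(-(d 1 7)) := congrFun H_0_1 4
  have q276 : (1 * d 2 5 : ZMod 5) = (0) + -(-(d 1 8)) := congrFun H_0_1 5
  have q277 : (1 * d 2 6 : ZMod 5) = (-(d 0 3)) + -(0) := congrFun H_0_1 6
  have q278 : (1 * d 2 7 : ZMod 5) = (-(d 0 4)) + -(0) := congrFun H_0_1 7
  have q279 : (1 * d 2 8 : ZMod 5) = (-(d 0 5)) + -(0) := congrFun H_0_1 8
  have q284 : (0 : ZMod 5) = (d 0 2) + -(-(d 3 6)) := congrFun H_0_3 3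
  have q285 : (0 : ZMod 5) = (d 0 2) + -(-(d 4 7)) := congrFun H_0_4 4
  have q286 : (0 : ZMod 5) = (d 0 2) + -(-(d 5 8)) := congrFun H_0_5 5
  have q292 : (1 * d 3 9 : ZMod 5) = (2 * d 0 3) + -(0) := congrFun H_0_6 9
  have q295 : (1 * d 4 3 : ZMod 5) = (0) + -(-(d 7 6)) := congrFun H_0_7 3
  have q296 : (1 * d 4 5 : ZMod 5) = (0) + -(-(d 7 8)) := congrFun H_0_7 5
  have q298 : (1 * d 4 9 : ZMod 5) = (-(2 * d 0 4)) + -(0) := congrFun H_0_7 9
  have q299 : (1 * d 4 10 : ZMod 5) = (2 * d 0 4) + -(0) := congrFun H_0_7 10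
  have q305 : (1 * d 5 10 : ZMod 5) = (-(2 * d 0 5)) + -(0) := congrFun H_0_8 10
  have q312 : (1 * d 6 3 : ZMod 5) = (d 1 2) + -(0) := congrFun H_1_3 3
  have q315 : (1 * d 6 9 : ZMod 5) = (-(2 * d 1 6)) + -(0) := congrFun H_1_3 9
  have q318 : (1 * d 7 4 : ZMod 5) = (d 1 2) + -(0) := congrFun H_1_4 4
  have q321 : (1 * d 7 9 : ZMod 5) = (2 * d 1 7) + -(0) := congrFun H_1_4 9
  have q322 : (1 * d 7 10 : ZMod 5) = (-(2 * d 1 7)) + -(0) := congrFun H_1_4 10
  have q325 : (1 * d 8 5 : ZMod 5) = (d 1 2) + -(0) := congrFun H_1_5 5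
  have q328 : (1 * d 8 10 : ZMod 5) = (2 * d 1 8) + -(0) := congrFun H_1_5 10
  have q347 : (0 : ZMod 5) = (-(2 * d 3 4)) + -(-(2 * d 7 6)) := congrFun H_3_7 9
  have q357 : (0 : ZMod 5) = (-(2 * d 4 5)) + -(-(2 * d 8 7)) := congrFun H_4_8 10
  have q361 : (1 * d 2 2 : ZMod 5) = (d 0 0) + -(-(d 1 1)) := congrFun H_0_1 2
  have q362 : (1 * d 3 3 : ZMod 5) = (d 0 0) + -(-(d 6 6)) := congrFun H_0_6 3
  have q363 : (1 * d 4 4 : ZMod 5) = (d 0 0) + -(-(d 7 7)) := congrFun H_0_7 4
  have q364 : (1 * d 5 5 : ZMod 5) = (d 0 0) + -(-(d 8 8)) := congrFun H_0_8 5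
  have q370 : (2 * d 9 9 : ZMod 5) = (2 * d 3 3) + -(-(2 * d 6 6)) := congrFun H_3_6 9
  have q373 : ((-2) * d 10 10 : ZMod 5) = (-(2 * d 5 5)) + -(2 * d 8 8) := congrFun H_5_8 10
  have q376 : ((-2) * d 9 9 + 2 * d 10 9 : ZMod 5) = (-(2 * d 4 4)) + -(2 * d 7 7) := congrFun H_4_7 9
  have q377 : ((-2) * d 9 10 + 2 * d 10 10 : ZMod 5) = (2 * d 4 4) + -(-(2 * d 7 7)) := congrFun H_4_7 10
  refine ⟨![2 * d 2 0, 3 * d 2 1, 3 * d 0 0, -d 2 3, -d 2 4, -d 2 5, d 2 6, d 2 7, d 2 8, 0, 0],
    d 3 3 - 3 * d 0 0, ?_⟩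
  have key : ∀ j i : Fin 11, d j i = (br (![2 * d 2 0, 3 * d 2 1, 3 * d 0 0, -d 2 3, -d 2 4, -d 2 5, d 2 6, d 2 7, d 2 8, 0, 0] : L) (bv_11846 j)) i + (d 3 3 - 3 * d 0 0) * (E (bv_11846 j)) i := by
    have k_0_0 : d 0 0 = 6 * d 0 0 := by linear_combination (-d 0 0) * h5
    have k_0_1 : d 0 1 = 0 := by linear_combination q3 + (d 0 1) * h5
    have k_0_2 : d 0 2 = -(3 * d 2 1) := by linear_combination - 2 * q273 + (d 0 2 + d 2 1) * h5
    have k_0_3 : d 0 3 = -d 2 6 := by linear_combination q277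
    have k_0_4 : d 0 4 = -d 2 7 := by linear_combination q278
    have k_0_5 : d 0 5 = -d 2 8 := by linear_combination q279
    have k_0_6 : d 0 6 = 0 := by linear_combination - 2 * q4 + (-d 0 6) * h5
    have k_0_7 : d 0 7 = 0 := by linear_combination - 2 * q5 + (-d 0 7) * h5
    have k_0_8 : d 0 8 = 0 := by linear_combination - 2 * q6 + (-d 0 8) * h5
    have k_0_9 : d 0 9 = 0 := by linear_combination 2 * q7 + (d 0 9) * h5
    have k_0_10 : d 0 10 = 0 := by linear_combination 2 * q8 + (d 0 10) * h5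
    have k_1_0 : d 1 0 = 0 := by linear_combination - q49 + (d 1 0) * h5
    have k_1_1 : d 1 1 = -(6 * d 0 0) := by linear_combination - 2 * q2 - q361 + (d 0 0 + d 2 2) * h5
    have k_1_2 : d 1 2 = 2 * d 2 0 := by linear_combination - 2 * q272 + (d 1 2) * h5
    have k_1_3 : d 1 3 = 0 := by linear_combination 2 * q51 + (-d 1 3) * h5
    have k_1_4 : d 1 4 = 0 := by linear_combination 2 * q52 + (-d 1 4) * h5
    have k_1_5 : d 1 5 = 0 := by linear_combination 2 * q53 + (-d 1 5) * h5
    have k_1_6 : d 1 6 = d 2 3 := by linear_combination - q274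
    have k_1_7 : d 1 7 = d 2 4 := by linear_combination - q275
    have k_1_8 : d 1 8 = d 2 5 := by linear_combination - q276
    have k_1_9 : d 1 9 = 0 := by linear_combination - 2 * q54 + (d 1 9) * h5
    have k_1_10 : d 1 10 = 0 := by linear_combination - 2 * q55 + (d 1 10) * h5
    have k_2_0 : d 2 0 = -(4 * d 2 0) := by linear_combination (d 2 0) * h5
    have k_2_1 : d 2 1 = 6 * d 2 1 := by linear_combination (-d 2 1) * h5
    have k_2_2 : d 2 2 = 0 := by linear_combination - 2 * q2 + (d 2 2) * h5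
    have k_2_3 : d 2 3 = d 2 3 := by linear_combination (0 : ZMod 5) * h5
    have k_2_4 : d 2 4 = d 2 4 := by linear_combination (0 : ZMod 5) * h5
    have k_2_5 : d 2 5 = d 2 5 := by linear_combination (0 : ZMod 5) * h5
    have k_2_6 : d 2 6 = d 2 6 := by linear_combination (0 : ZMod 5) * h5
    have k_2_7 : d 2 7 = d 2 7 := by linear_combination (0 : ZMod 5) * h5
    have k_2_8 : d 2 8 = d 2 8 := by linear_combination (0 : ZMod 5) * h5
    have k_2_9 : d 2 9 = 0 := by linear_combination q0
    have k_2_10 : d 2 10 = 0 := by linear_combination q1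
    have k_3_0 : d 3 0 = 0 := by linear_combination - q96
    have k_3_1 : d 3 1 = 0 := by linear_combination - q10
    have k_3_2 : d 3 2 = 0 := by linear_combination - 2 * q9 + (d 3 2) * h5
    have k_3_3 : d 3 3 = d 3 3 := by linear_combination (0 : ZMod 5) * h5
    have k_3_4 : d 3 4 = 0 := by linear_combination 2 * q175 + (d 3 4) * h5
    have k_3_5 : d 3 5 = 0 := by linear_combination - 2 * q181 + (d 3 5) * h5
    have k_3_6 : d 3 6 = 3 * d 2 1 := by linear_combination 2 * q273 - q284 + (-d 0 2 - d 2 1) * h5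
    have k_3_7 : d 3 7 = 0 := by linear_combination - q11
    have k_3_8 : d 3 8 = 0 := by linear_combination - q12
    have k_3_9 : d 3 9 = -(2 * d 2 6) := by linear_combination 2 * q277 + q292
    have k_3_10 : d 3 10 = 0 := by linear_combination q31
    have k_4_0 : d 4 0 = 0 := by linear_combination - q103
    have k_4_1 : d 4 1 = 0 := by linear_combination - q16
    have k_4_2 : d 4 2 = 0 := by linear_combination - 2 * q15 + (d 4 2) * h5
    have k_4_3 : d 4 3 = 0 := by linear_combination 2 * q175 + q295 + 2 * q347 + (d 7 6) * h5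
    have k_4_4 : d 4 4 = d 3 3 := by linear_combination - q229 + 2 * q362 - 2 * q363 - q370 - q376 + (-d 3 3 + d 4 4) * h5
    have k_4_5 : d 4 5 = 0 := by linear_combination - 2 * q202 - 2 * q357 + (d 4 5) * h5
    have k_4_6 : d 4 6 = 0 := by linear_combination - q17
    have k_4_7 : d 4 7 = 3 * d 2 1 := by linear_combination 2 * q273 - q285 + (-d 0 2 - d 2 1) * h5
    have k_4_8 : d 4 8 = 0 := by linear_combination - q18
    have k_4_9 : d 4 9 = 2 * d 2 7 := by linear_combination - 2 * q278 + q298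
    have k_4_10 : d 4 10 = -(2 * d 2 7) := by linear_combination 2 * q278 + q299
    have k_5_0 : d 5 0 = 0 := by linear_combination - q109
    have k_5_1 : d 5 1 = 0 := by linear_combination - q23
    have k_5_2 : d 5 2 = 0 := by linear_combination - 2 * q22 + (d 5 2) * h5
    have k_5_3 : d 5 3 = 0 := by linear_combination 2 * q215 + (d 5 3) * h5
    have k_5_4 : d 5 4 = 0 := by linear_combination - 2 * q221 + (d 5 4) * h5
    have k_5_5 : d 5 5 = d 3 3 := by linear_combination - q170 - q229 + 2 * q362 - 2 * q364 - q370 - q373 - q376 - q377 + (-d 3 3 + d 5 5) * h5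
    have k_5_6 : d 5 6 = 0 := by linear_combination - q24
    have k_5_7 : d 5 7 = 0 := by linear_combination - q25
    have k_5_8 : d 5 8 = 3 * d 2 1 := by linear_combination 2 * q273 - q286 + (-d 0 2 - d 2 1) * h5
    have k_5_9 : d 5 9 = 0 := by linear_combination q38
    have k_5_10 : d 5 10 = 2 * d 2 8 := by linear_combination - 2 * q279 + q305
    have k_6_0 : d 6 0 = 0 := by linear_combination q56
    have k_6_1 : d 6 1 = 0 := by linear_combination q117
    have k_6_2 : d 6 2 = 0 := by linear_combination 2 * q67 + (d 6 2) * h5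
    have k_6_3 : d 6 3 = 2 * d 2 0 := by linear_combination - 2 * q272 + q312 + (d 1 2) * h5
    have k_6_4 : d 6 4 = 0 := by linear_combination q57
    have k_6_5 : d 6 5 = 0 := by linear_combination q58
    have k_6_6 : d 6 6 = -(6 * d 0 0) + d 3 3 := by linear_combination - q362 + (d 0 0) * h5
    have k_6_7 : d 6 7 = 0 := by linear_combination 2 * q197 + (d 6 7) * h5
    have k_6_8 : d 6 8 = 0 := by linear_combination - 2 * q216 + (d 6 8) * h5
    have k_6_9 : d 6 9 = -(2 * d 2 3) := by linear_combination 2 * q274 + q315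
    have k_6_10 : d 6 10 = 0 := by linear_combination q59
    have k_7_0 : d 7 0 = 0 := by linear_combination q60
    have k_7_1 : d 7 1 = 0 := by linear_combination q124
    have k_7_2 : d 7 2 = 0 := by linear_combination 2 * q73 + (d 7 2) * h5
    have k_7_3 : d 7 3 = 0 := by linear_combination q61
    have k_7_4 : d 7 4 = 2 * d 2 0 := by linear_combination - 2 * q272 + q318 + (d 1 2) * h5
    have k_7_5 : d 7 5 = 0 := by linear_combination q62
    have k_7_6 : d 7 6 = 0 := by linear_combination 2 * q175 + 2 * q347 + (d 7 6) * h5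
    have k_7_7 : d 7 7 = -(6 * d 0 0) + d 3 3 := by linear_combination - q229 + 2 * q362 + 2 * q363 - q370 - q376 + (2 * d 0 0 - d 3 3 + d 7 7) * h5
    have k_7_8 : d 7 8 = 0 := by linear_combination - 2 * q202 - q296 - 2 * q357 + (d 4 5) * h5
    have k_7_9 : d 7 9 = 2 * d 2 4 := by linear_combination - 2 * q275 + q321
    have k_7_10 : d 7 10 = -(2 * d 2 4) := by linear_combination 2 * q275 + q322
    have k_8_0 : d 8 0 = 0 := by linear_combination q63
    have k_8_1 : d 8 1 = 0 := by linear_combination q130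
    have k_8_2 : d 8 2 = 0 := by linear_combination 2 * q80 + (d 8 2) * h5
    have k_8_3 : d 8 3 = 0 := by linear_combination q64
    have k_8_4 : d 8 4 = 0 := by linear_combination q65
    have k_8_5 : d 8 5 = 2 * d 2 0 := by linear_combination - 2 * q272 + q325 + (d 1 2) * h5
    have k_8_6 : d 8 6 = 0 := by linear_combination 2 * q180 + (d 8 6) * h5
    have k_8_7 : d 8 7 = 0 := by linear_combination - 2 * q202 + (d 8 7) * h5
    have k_8_8 : d 8 8 = -(6 * d 0 0) + d 3 3 := by linear_combination - q170 - q229 + 2 * q362 + 2 * q364 - q370 - q373 - q376 - q377 + (2 * d 0 0 - d 3 3 + d 8 8) * h5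
    have k_8_9 : d 8 9 = 0 := by linear_combination q66
    have k_8_10 : d 8 10 = 2 * d 2 5 := by linear_combination - 2 * q276 + q328
    have k_9_0 : d 9 0 = 0 := by linear_combination q87
    have k_9_1 : d 9 1 = 0 := by linear_combination - q40
    have k_9_2 : d 9 2 = 0 := by linear_combination - 2 * q39 + (d 9 2) * h5
    have k_9_3 : d 9 3 = 0 := by linear_combination - q88
    have k_9_4 : d 9 4 = 0 := by linear_combination - q89
    have k_9_5 : d 9 5 = 0 := by linear_combination - q90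
    have k_9_6 : d 9 6 = 0 := by linear_combination - q41
    have k_9_7 : d 9 7 = 0 := by linear_combination - q42
    have k_9_8 : d 9 8 = 0 := by linear_combination - q43
    have k_9_9 : d 9 9 = -(6 * d 0 0) + 2 * d 3 3 := by linear_combination - q362 - 2 * q370 + (d 0 0 - d 3 3 - d 6 6 + d 9 9) * h5
    have k_9_10 : d 9 10 = 0 := by linear_combination - 2 * q170 + (d 9 10) * h5
    have k_10_0 : d 10 0 = 0 := by linear_combination q92
    have k_10_1 : d 10 1 = 0 := by linear_combination - q45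
    have k_10_2 : d 10 2 = 0 := by linear_combination - 2 * q44 + (d 10 2) * h5
    have k_10_3 : d 10 3 = 0 := by linear_combination - q93
    have k_10_4 : d 10 4 = 0 := by linear_combination - q94
    have k_10_5 : d 10 5 = 0 := by linear_combination - q95
    have k_10_6 : d 10 6 = 0 := by linear_combination - q46
    have k_10_7 : d 10 7 = 0 := by linear_combination - q47
    have k_10_8 : d 10 8 = 0 := by linear_combination - q48
    have k_10_9 : d 10 9 = 0 := by linear_combination 2 * q229 + (d 10 9) * h5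
    have k_10_10 : d 10 10 = -(6 * d 0 0) + 2 * d 3 3 := by linear_combination - 2 * q170 - 2 * q229 - q362 - 2 * q370 - 2 * q376 - 2 * q377 + (d 0 0 - d 3 3 - d 6 6 + d 10 10) * h5
    intro j i
    fin_cases j
    · show d 0 i = (br _ (bv_11846 0)) i + _ * (E (bv_11846 0)) i
      rw [br_b0_11846]
      fin_cases i
      · simp [E, bv_11846, Pi.single_apply] <;> linear_combination k_0_0
      · simp [E, bv_11846, Pi.single_apply] <;> linear_combination k_0_1
      · simp [E, bv_11846, Pi.single_apply] <;> linear_combination k_0_2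
      · simp [E, bv_11846, Pi.single_apply] <;> linear_combination k_0_3
      · simp [E, bv_11846, Pi.single_apply] <;> linear_combination k_0_4
      · simp [E, bv_11846, Pi.single_apply] <;> linear_combination k_0_5
      · simp [E, bv_11846, Pi.single_apply] <;> linear_combination k_0_6
      · simp [E, bv_11846, Pi.single_apply] <;> linear_combination k_0_7
      · simp [E, bv_11846, Pi.single_apply] <;> linear_combination k_0_8
      · simp [E, bv_11846, Pi.single_apply] <;> linear_combination k_0_9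
      · simp [E, bv_11846, Pi.single_apply] <;> linear_combination k_0_10
    · show d 1 i = (br _ (bv_11846 1)) i + _ * (E (bv_11846 1)) i
      rw [br_b1_11846]
      fin_cases i
      · simp [E, bv_11846, Pi.single_apply] <;> linear_combination k_1_0
      · simp [E, bv_11846, Pi.single_apply] <;> linear_combination k_1_1
      · simp [E, bv_11846, Pi.single_apply] <;> linear_combination k_1_2
      · simp [E, bv_11846, Pi.single_apply] <;> linear_combination k_1_3
      · simp [E, bv_11846, Pi.single_apply] <;> linear_combination k_1_4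
      · simp [E, bv_11846, Pi.single_apply] <;> linear_combination k_1_5
      · simp [E, bv_11846, Pi.single_apply] <;> linear_combination k_1_6
      · simp [E, bv_11846, Pi.single_apply] <;> linear_combination k_1_7
      · simp [E, bv_11846, Pi.single_apply] <;> linear_combination k_1_8
      · simp [E, bv_11846, Pi.single_apply] <;> linear_combination k_1_9
      · simp [E, bv_11846, Pi.single_apply] <;> linear_combination k_1_10
    · show d 2 i = (br _ (bv_11846 2)) i + _ * (E (bv_11846 2)) i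
      rw [br_b2_11846]
      fin_cases i
      · simp [E, bv_11846, Pi.single_apply] <;> linear_combination k_2_0
      · simp [E, bv_11846, Pi.single_apply] <;> linear_combination k_2_1
      · simp [E, bv_11846, Pi.single_apply] <;> linear_combination k_2_2
      · simp [E, bv_11846, Pi.single_apply] <;> linear_combination k_2_3
      · simp [E, bv_11846, Pi.single_apply] <;> linear_combination k_2_4
      · simp [E, bv_11846, Pi.single_apply] <;> linear_combination k_2_5
      · simp [E, bv_11846, Pi.single_apply] <;> linear_combination k_2_6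
      · simp [E, bv_11846, Pi.single_apply] <;> linear_combination k_2_7
      · simp [E, bv_11846, Pi.single_apply] <;> linear_combination k_2_8
      · simp [E, bv_11846, Pi.single_apply] <;> linear_combination k_2_9
      · simp [E, bv_11846, Pi.single_apply] <;> linear_combination k_2_10
    · show d 3 i = (br _ (bv_11846 3)) i + _ * (E (bv_11846 3)) i
      rw [br_b3_11846]
      fin_cases i
      · simp [E, bv_11846, Pi.single_apply] <;> linear_combination k_3_0
      · simp [E, bv_11846, Pi.single_apply] <;> linear_combination k_3_1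
      · simp [E, bv_11846, Pi.single_apply] <;> linear_combination k_3_2
      · simp [E, bv_11846, Pi.single_apply] <;> linear_combination k_3_3
      · simp [E, bv_11846, Pi.single_apply] <;> linear_combination k_3_4
      · simp [E, bv_11846, Pi.single_apply] <;> linear_combination k_3_5
      · simp [E, bv_11846, Pi.single_apply] <;> linear_combination k_3_6
      · simp [E, bv_11846, Pi.single_apply] <;> linear_combination k_3_7
      · simp [E, bv_11846, Pi.single_apply] <;> linear_combination k_3_8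
      · simp [E, bv_11846, Pi.single_apply] <;> linear_combination k_3_9
      · simp [E, bv_11846, Pi.single_apply] <;> linear_combination k_3_10
    · show d 4 i = (br _ (bv_11846 4)) i + _ * (E (bv_11846 4)) i
      rw [br_b4_11846]
      fin_cases i
      · simp [E, bv_11846, Pi.single_apply] <;> linear_combination k_4_0
      · simp [E, bv_11846, Pi.single_apply] <;> linear_combination k_4_1
      · simp [E, bv_11846, Pi.single_apply] <;> linear_combination k_4_2
      · simp [E, bv_11846, Pi.single_apply] <;> linear_combination k_4_3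
      · simp [E, bv_11846, Pi.single_apply] <;> linear_combination k_4_4
      · simp [E, bv_11846, Pi.single_apply] <;> linear_combination k_4_5
      · simp [E, bv_11846, Pi.single_apply] <;> linear_combination k_4_6
      · simp [E, bv_11846, Pi.single_apply] <;> linear_combination k_4_7
      · simp [E, bv_11846, Pi.single_apply] <;> linear_combination k_4_8
      · simp [E, bv_11846, Pi.single_apply] <;> linear_combination k_4_9
      · simp [E, bv_11846, Pi.single_apply] <;> linear_combination k_4_10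
    · show d 5 i = (br _ (bv_11846 5)) i + _ * (E (bv_11846 5)) i
      rw [br_b5_11846]
      fin_cases i
      · simp [E, bv_11846, Pi.single_apply] <;> linear_combination k_5_0
      · simp [E, bv_11846, Pi.single_apply] <;> linear_combination k_5_1
      · simp [E, bv_11846, Pi.single_apply] <;> linear_combination k_5_2
      · simp [E, bv_11846, Pi.single_apply] <;> linear_combination k_5_3
      · simp [E, bv_11846, Pi.single_apply] <;> linear_combination k_5_4
      · simp [E, bv_11846, Pi.single_apply] <;> linear_combination k_5_5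
      · simp [E, bv_11846, Pi.single_apply] <;> linear_combination k_5_6
      · simp [E, bv_11846, Pi.single_apply] <;> linear_combination k_5_7
      · simp [E, bv_11846, Pi.single_apply] <;> linear_combination k_5_8
      · simp [E, bv_11846, Pi.single_apply] <;> linear_combination k_5_9
      · simp [E, bv_11846, Pi.single_apply] <;> linear_combination k_5_10
    · show d 6 i = (br _ (bv_11846 6)) i + _ * (E (bv_11846 6)) i
      rw [br_b6_11846]
      fin_cases i
      · simp [E, bv_11846, Pi.single_apply] <;> linear_combination k_6_0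
      · simp [E, bv_11846, Pi.single_apply] <;> linear_combination k_6_1
      · simp [E, bv_11846, Pi.single_apply] <;> linear_combination k_6_2
      · simp [E, bv_11846, Pi.single_apply] <;> linear_combination k_6_3
      · simp [E, bv_11846, Pi.single_apply] <;> linear_combination k_6_4
      · simp [E, bv_11846, Pi.single_apply] <;> linear_combination k_6_5
      · simp [E, bv_11846, Pi.single_apply] <;> linear_combination k_6_6
      · simp [E, bv_11846, Pi.single_apply] <;> linear_combination k_6_7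
      · simp [E, bv_11846, Pi.single_apply] <;> linear_combination k_6_8
      · simp [E, bv_11846, Pi.single_apply] <;> linear_combination k_6_9
      · simp [E, bv_11846, Pi.single_apply] <;> linear_combination k_6_10
    · show d 7 i = (br _ (bv_11846 7)) i + _ * (E (bv_11846 7)) i
      rw [br_b7_11846]
      fin_cases i
      · simp [E, bv_11846, Pi.single_apply] <;> linear_combination k_7_0
      · simp [E, bv_11846, Pi.single_apply] <;> linear_combination k_7_1
      · simp [E, bv_11846, Pi.single_apply] <;> linear_combination k_7_2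
      · simp [E, bv_11846, Pi.single_apply] <;> linear_combination k_7_3
      · simp [E, bv_11846, Pi.single_apply] <;> linear_combination k_7_4
      · simp [E, bv_11846, Pi.single_apply] <;> linear_combination k_7_5
      · simp [E, bv_11846, Pi.single_apply] <;> linear_combination k_7_6
      · simp [E, bv_11846, Pi.single_apply] <;> linear_combination k_7_7
      · simp [E, bv_11846, Pi.single_apply] <;> linear_combination k_7_8
      · simp [E, bv_11846, Pi.single_apply] <;> linear_combination k_7_9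
      · simp [E, bv_11846, Pi.single_apply] <;> linear_combination k_7_10
    · show d 8 i = (br _ (bv_11846 8)) i + _ * (E (bv_11846 8)) i
      rw [br_b8_11846]
      fin_cases i
      · simp [E, bv_11846, Pi.single_apply] <;> linear_combination k_8_0
      · simp [E, bv_11846, Pi.single_apply] <;> linear_combination k_8_1
      · simp [E, bv_11846, Pi.single_apply] <;> linear_combination k_8_2
      · simp [E, bv_11846, Pi.single_apply] <;> linear_combination k_8_3
      · simp [E, bv_11846, Pi.single_apply] <;> linear_combination k_8_4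
      · simp [E, bv_11846, Pi.single_apply] <;> linear_combination k_8_5
      · simp [E, bv_11846, Pi.single_apply] <;> linear_combination k_8_6
      · simp [E, bv_11846, Pi.single_apply] <;> linear_combination k_8_7
      · simp [E, bv_11846, Pi.single_apply] <;> linear_combination k_8_8
      · simp [E, bv_11846, Pi.single_apply] <;> linear_combination k_8_9
      · simp [E, bv_11846, Pi.single_apply] <;> linear_combination k_8_10
    · show d 9 i = (br _ (bv_11846 9)) i + _ * (E (bv_11846 9)) i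
      rw [br_b9_11846]
      fin_cases i
      · simp [E, bv_11846, Pi.single_apply] <;> linear_combination k_9_0
      · simp [E, bv_11846, Pi.single_apply] <;> linear_combination k_9_1
      · simp [E, bv_11846, Pi.single_apply] <;> linear_combination k_9_2
      · simp [E, bv_11846, Pi.single_apply] <;> linear_combination k_9_3
      · simp [E, bv_11846, Pi.single_apply] <;> linear_combination k_9_4
      · simp [E, bv_11846, Pi.single_apply] <;> linear_combination k_9_5
      · simp [E, bv_11846, Pi.single_apply] <;> linear_combination k_9_6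
      · simp [E, bv_11846, Pi.single_apply] <;> linear_combination k_9_7
      · simp [E, bv_11846, Pi.single_apply] <;> linear_combination k_9_8
      · simp [E, bv_11846, Pi.single_apply] <;> linear_combination k_9_9
      · simp [E, bv_11846, Pi.single_apply] <;> linear_combination k_9_10
    · show d 10 i = (br _ (bv_11846 10)) i + _ * (E (bv_11846 10)) i
      rw [br_b10_11846]
      fin_cases i
      · simp [E, bv_11846, Pi.single_apply] <;> linear_combination k_10_0
      · simp [E, bv_11846, Pi.single_apply] <;> linear_combination k_10_1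
      · simp [E, bv_11846, Pi.single_apply] <;> linear_combination k_10_2
      · simp [E, bv_11846, Pi.single_apply] <;> linear_combination k_10_3
      · simp [E, bv_11846, Pi.single_apply] <;> linear_combination k_10_4
      · simp [E, bv_11846, Pi.single_apply] <;> linear_combination k_10_5
      · simp [E, bv_11846, Pi.single_apply] <;> linear_combination k_10_6
      · simp [E, bv_11846, Pi.single_apply] <;> linear_combination k_10_7
      · simp [E, bv_11846, Pi.single_apply] <;> linear_combination k_10_8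
      · simp [E, bv_11846, Pi.single_apply] <;> linear_combination k_10_9
      · simp [E, bv_11846, Pi.single_apply] <;> linear_combination k_10_10
  intro j i
  rw [hd]
  exact key j i

theorem E_smul_11846 (c : ZMod 5) (x : L) : E (c • x) = c • E x := by
  ext i
  fin_cases i <;> simp [E] <;> ring

theorem der_classify (δ : L →+ L) (h : IsDer δ) :
    ∃ (a : L) (t : ZMod 5), ∀ x, δ x = br a x + t • E x := by
  obtain ⟨a, t, hk⟩ := der_coord_11846 δ h
  refine ⟨a, t, fun x => ?_⟩
  have hb : ∀ j, δ (bv_11846 j) = br a (bv_11846 j) + t • E (bv_11846 j) := fun j => funext fun i => hk j i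
  have hx : x = ∑ j, x j • bv_11846 j := by
    ext i
    simp [bv_11846, Finset.sum_apply, Pi.single_apply]
  rw [hx]
  refine Finset.sum_induction (fun j => x j • bv_11846 j) (fun y => δ y = br a y + t • E y) ?_ ?_ ?_
  · intro y z hy hz
    rw [map_add, br_add_right, E_add, hy, hz, smul_add]
    abel
  · have h0 : E (0 : L) = 0 := by
      ext i
      fin_cases i <;> simp [E]
    rw [map_zero, br_zero_right, h0, smul_zero, add_zero]
  · intro j _
    rw [ZMod.map_smul, br_smul_right, E_smul_11846, hb j, smul_add, smul_comm t]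
end

section
theorem card_der_br_ext (a x : L) :
    br ![a 0, a 1, a 2, a 3, a 4, a 5, a 6, a 7, a 8, 0, 0] x = br a x := by
  funext i
  fin_cases i <;> simp [br]

/-- the derivation attached to a vector and a scalar -/
def card_der_map (a : L) (t : ZMod 5) : L →+ L :=
  AddMonoidHom.mk' (fun x => br a x + t • E x) (by
    intro x y
    rw [br_add_right, E_add, smul_add]
    abel)

theorem card_der_map_apply (a : L) (t : ZMod 5) (x : L) :
    card_der_map a t x = br a x + t • E x := rfl

theorem card_der_map_isDer (a : L) (t : ZMod 5) : IsDer (card_der_map a t) := by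
  intro x y
  rw [card_der_map_apply, card_der_map_apply, card_der_map_apply, jacobi, E_br,
    br_add_left, br_add_right, br_smul_left, br_smul_right, smul_add]
  abel

/-- the vector with nine given coordinates -/
def card_der_vec (a : Fin 9 → ZMod 5) : L :=
  ![a 0, a 1, a 2, a 3, a 4, a 5, a 6, a 7, a 8, 0, 0]

theorem card_der_inj (a b : Fin 9 → ZMod 5) (t s : ZMod 5)
    (h : card_der_map (card_der_vec a) t = card_der_map (card_der_vec b) s) :
    a = b ∧ t = s := by
  have h5 : (5 : ZMod 5) = 0 := by decide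
  have hx : ∀ x : L, br (card_der_vec a) x + t • E x = br (card_der_vec b) x + s • E x := by
    intro x
    have := DFunLike.congr_fun h x
    rwa [card_der_map_apply, card_der_map_apply] at this
  have hh := hx ![0, 0, 1, 0, 0, 0, 0, 0, 0, 0, 0]
  have he := hx ![1, 0, 0, 0, 0, 0, 0, 0, 0, 0, 0]
  have hu := hx ![0, 0, 0, 0, 0, 0, 0, 0, 0, 1, 0]
  have h0 := congrFun hh 0
  have h1 := congrFun hh 1
  have h2 := congrFun he 0
  have h3 := congrFun hh 3
  have h4 := congrFun hh 4
  have h5' := congrFun hh 5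
  have h6 := congrFun hh 6
  have h7 := congrFun hh 7
  have h8 := congrFun hh 8
  have h9 := congrFun hu 9
  simp [br, E, card_der_vec] at h0 h1 h2 h3 h4 h5' h6 h7 h8 h9
  have g0 : a 0 = b 0 := by linear_combination 3 * h0 - (a 0 - b 0) * h5
  have g1 : a 1 = b 1 := by linear_combination 3 * h1 - (a 1 - b 1) * h5
  have g2 : a 2 = b 2 := by linear_combination 3 * h2 - (a 2 - b 2) * h5
  constructor
  · funext i
    fin_cases i
    · exact g0
    · exact g1
    · exact g2
    · exact h3
    · exact h4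
    · exact h5'
    · exact h6
    · exact h7
    · exact h8
  · linear_combination 3 * h9 - (t - s) * h5

theorem card_der : Nat.card {δ : L →+ L // IsDer δ} = 5 ^ 10 := by
  have hcard : Nat.card ((Fin 9 → ZMod 5) × ZMod 5) = 5 ^ 10 := by
    rw [Nat.card_prod, Nat.card_fun, Nat.card_zmod, Nat.card_eq_fintype_card, Fintype.card_fin]
    norm_num
  rw [← hcard]
  symm
  refine Nat.card_congr (Equiv.ofBijective (fun p : (Fin 9 → ZMod 5) × ZMod 5 =>
    (⟨card_der_map (card_der_vec p.1) p.2, card_der_map_isDer _ _⟩ :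
      {δ : L →+ L // IsDer δ})) ⟨?_, ?_⟩)
  · rintro ⟨a, t⟩ ⟨b, s⟩ h
    have h' := congrArg Subtype.val h
    obtain ⟨h1, h2⟩ := card_der_inj a b t s h'
    rw [h1, h2]
  · rintro ⟨δ, hδ⟩
    obtain ⟨a, t, hat⟩ := der_classify δ hδ
    refine ⟨(![a 0, a 1, a 2, a 3, a 4, a 5, a 6, a 7, a 8], t), ?_⟩
    apply Subtype.ext
    apply AddMonoidHom.ext
    intro x
    change card_der_map _ _ x = δ x
    rw [card_der_map_apply, hat x, ← card_der_br_ext a x]
    rfl

theorem card_LW_cardL : Nat.card L = 5 ^ 11 := by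
  rw [Nat.card_fun, Nat.card_zmod, Nat.card_eq_fintype_card, Fintype.card_fin]

theorem card_LW_cardW : Nat.card W = 25 := by
  have hcard : Nat.card (ZMod 5 × ZMod 5) = 25 := by
    rw [Nat.card_prod, Nat.card_zmod]
  rw [← hcard]
  symm
  refine Nat.card_congr (Equiv.ofBijective (fun p : ZMod 5 × ZMod 5 =>
    (⟨![p.1, p.2, 0, p.2, p.2, p.2, 0, p.1, 2 * p.1, 0, 0], by
      refine ⟨?_, ?_, ?_, ?_, ?_, ?_, ?_, ?_, ?_⟩ <;> simp⟩ : W)) ⟨?_, ?_⟩)
  · rintro ⟨a, b⟩ ⟨c, d⟩ h
    have h' := congrArg Subtype.val h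
    have h0 := congrFun h' 0
    have h1 := congrFun h' 1
    simp at h0 h1
    rw [h0, h1]
  · rintro ⟨a, ha⟩
    refine ⟨(a 0, a 1), ?_⟩
    apply Subtype.ext
    obtain ⟨h2, h3, h4, h5, h6, h7, h8, h9, h10⟩ := ha
    funext i
    fin_cases i <;> simp [h2, h3, h4, h5, h6, h7, h8, h9, h10]

theorem card_LW : Nat.card (L ⧸ W) = 5 ^ 9 := by
  have h := AddSubgroup.card_eq_card_quotient_mul_card_addSubgroup W
  rw [card_LW_cardL, card_LW_cardW] at h
  have h2 : (5 : ℕ) ^ 11 = 5 ^ 9 * 25 := by norm_num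
  omega

theorem card_hom_LW_aux (A : Type*) [AddCommGroup A] (hA : ∀ a : A, 5 • a = 0) :
    Nat.card (L →+ A) = Nat.card A ^ 11 := by
  let _ : Module (ZMod 5) A := AddCommGroup.zmodModule hA
  have e1 : (L →+ A) ≃ (L →ₗ[ZMod 5] A) :=
    { toFun := fun f => f.toZModLinearMap 5
      invFun := fun f => f.toAddMonoidHom
      left_inv := fun f => by ext; rfl
      right_inv := fun f => by ext; rfl }
  have e2 : (Fin 11 → A) ≃ (L →ₗ[ZMod 5] A) :=
    ((Pi.basisFun (ZMod 5) (Fin 11)).constr (ZMod 5)).toEquiv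
  rw [Nat.card_congr (e1.trans e2.symm), Nat.card_fun, Nat.card_eq_fintype_card (α := Fin 11),
    Fintype.card_fin]

theorem card_hom_LW : Nat.card (L →+ L ⧸ W) = 5 ^ 99 := by
  rw [card_hom_LW_aux (L ⧸ W), card_LW, ← pow_mul]
  intro a
  induction a using QuotientAddGroup.induction_on with
  | H z =>
    rw [← QuotientAddGroup.mk_nsmul]
    have : (5 : ℕ) • z = 0 := by
      funext i
      simp only [Pi.smul_apply, Pi.zero_apply, nsmul_eq_mul]
      have h5 : ((5 : ℕ) : ZMod 5) = 0 := by decide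
      rw [h5, zero_mul]
    rw [this]
    rfl

theorem perfect_decomp (a : L) :
    a = br ![0, 0, 3 * a 0, 0, 0, 0, 0, 0, 0, 0, 0] ![1, 0, 0, 0, 0, 0, 0, 0, 0, 0, 0] +
      br ![0, 0, 2 * a 1, 0, 0, 0, 0, 0, 0, 0, 0] ![0, 1, 0, 0, 0, 0, 0, 0, 0, 0, 0] +
      br ![a 2, 0, 0, 0, 0, 0, 0, 0, 0, 0, 0] ![0, 1, 0, 0, 0, 0, 0, 0, 0, 0, 0] +
      br ![1, 0, 0, 0, 0, 0, 0, 0, 0, 0, 0] ![0, 0, 0, 0, 0, 0, a 3, a 4, a 5, 0, 0] +
      br ![0, 1, 0, 0, 0, 0, 0, 0, 0, 0, 0] ![0, 0, 0, a 6, a 7, a 8, 0, 0, 0, 0, 0] +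
      br ![0, 0, 0, 3 * a 9, 0, 0, 0, 0, 0, 0, 0] ![0, 0, 0, 0, 0, 0, 1, 0, 0, 0, 0] +
      br ![0, 0, 0, 0, 0, 2 * a 10, 0, 0, 0, 0, 0] ![0, 0, 0, 0, 0, 0, 0, 0, 1, 0, 0] := by
  have h5 : (5 : ZMod 5) = 0 := by decide
  funext i
  fin_cases i
  all_goals simp [br]
  · linear_combination - a 0 * h5
  · linear_combination a 1 * h5
  · linear_combination - a 9 * h5
  · linear_combination a 10 * h5

theorem perfect (K : AddSubgroup L) (h : ∀ a b, br a b ∈ K) : K = ⊤ := by
  rw [eq_top_iff]
  intro a _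
  rw [perfect_decomp a]
  exact K.add_mem (K.add_mem (K.add_mem (K.add_mem (K.add_mem (K.add_mem (h _ _) (h _ _))
    (h _ _)) (h _ _)) (h _ _)) (h _ _)) (h _ _)
end


end Pool.Agent.Helper199.AutG
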