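import Pool.Agent.Helper199.AutG.Lie
set_option autoImplicit false
namespace Pool.Agent.Helper199.AutG

namespace AutTriv

def e0 : L := ![1,0,0, 0,0,0, 0,0,0, 0,0]
def e1 : L := ![0,1,0, 0,0,0, 0,0,0, 0,0]
def Xv (a b c : ZMod 5) : L := ![0,0,0, a,b,c, 0,0,0, 0,0]
def Yv (a b c : ZMod 5) : L := ![0,0,0, 0,0,0, a,b,c, 0,0]
def w1 : L := ![1,0,0, 0,0,0, 0,1,2, 0,0]
def w2 : L := ![0,1,0, 1,1,1, 0,0,0, 0,0]
def w3 : L := ![0,0,1, 0,0,0, 0,0,0, 2,2]
def lam : Fin 11 → ZMod 5 := ![2,-2,0, 1,1,1, -1,-1,-1, 0,0]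

instance fact5 : Fact (Nat.Prime 5) := ⟨by norm_num⟩

theorem br_w3 (x : L) : br w3 x = fun i => lam i * x i := by
  funext i
  fin_cases i <;> simp [br, w3, lam]

theorem br_XY (a b c a' b' c' : ZMod 5) : br (Xv a b c) (Yv a' b' c') =
    ![0,0,0,0,0,0,0,0,0, 2 * (a * a' - b * b'), 2 * (b * b' - c * c')] := by
  funext i
  fin_cases i <;> simp [br, Xv, Yv]

theorem br_YX (a b c a' b' c' : ZMod 5) : br (Yv a b c) (Xv a' b' c') =
    ![0,0,0,0,0,0,0,0,0, 2 * (b * b' - a * a'), 2 * (c * c' - b * b')] := by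
  funext i
  fin_cases i <;> simp [br, Xv, Yv, -mul_eq_mul_left_iff] <;> ring

theorem br_e0_Y (t a b c : ZMod 5) : br (t • e0) (Yv a b c) = Xv (t * a) (t * b) (t * c) := by
  funext i
  fin_cases i <;> simp [br, e0, Yv, Xv]

theorem br_e1_X (t a b c : ZMod 5) : br (t • e1) (Xv a b c) = Yv (t * a) (t * b) (t * c) := by
  funext i
  fin_cases i <;> simp [br, e1, Yv, Xv]

theorem X_add (a b c a' b' c' : ZMod 5) : Xv a b c + Xv a' b' c' = Xv (a + a') (b + b') (c + c') := by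
  funext i
  fin_cases i <;> simp [Xv]

theorem Y_add (a b c a' b' c' : ZMod 5) : Yv a b c + Yv a' b' c' = Yv (a + a') (b + b') (c + c') := by
  funext i
  fin_cases i <;> simp [Yv]

theorem X_smul (t a b c : ZMod 5) : t • Xv a b c = Xv (t * a) (t * b) (t * c) := by
  funext i
  fin_cases i <;> simp [Xv]

theorem Y_smul (t a b c : ZMod 5) : t • Yv a b c = Yv (t * a) (t * b) (t * c) := by
  funext i
  fin_cases i <;> simp [Yv]

theorem mem_W_form {a : L} (h : a ∈ W) :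
    a = ![a 0, a 1, 0, a 1, a 1, a 1, 0, a 0, 2 * a 0, 0, 0] := by
  obtain ⟨h1, h2, h3, h4, h5, h6, h7, h8, h9⟩ := h
  funext i
  fin_cases i
  · rfl
  · rfl
  · exact h1
  · exact h2
  · exact h3
  · exact h4
  · exact h5
  · exact h6
  · exact h7
  · exact h8
  · exact h9

theorem w1_mem : w1 ∈ W := by
  refine ⟨?_, ?_, ?_, ?_, ?_, ?_, ?_, ?_, ?_⟩ <;> decide

theorem w2_mem : w2 ∈ W := by
  refine ⟨?_, ?_, ?_, ?_, ?_, ?_, ?_, ?_, ?_⟩ <;> decide

theorem br_w1_w2 : br w1 w2 = w3 := by decide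

theorem case_a : ∀ D : ZMod 5, 4 * D ^ 2 - 2 * D - 2 = 0 → D ^ 2 + D - 2 = 0 → D = 1 := by
  decide +kernel

theorem case_b : ∀ D : ZMod 5, 4 * D ^ 2 + 2 * D - 2 = 0 → D ^ 2 - D - 2 = 0 → D = -1 := by
  decide +kernel

theorem one_ne_neg_one5 : (1 : ZMod 5) ≠ -1 := by decide

theorem case_split (p q r s D : ZMod 5) (hD : D = p * s - q * r) (h1 : ¬ (p = 0 ∧ q = 0))
    (k1 : p * (4 * D ^ 2 - 2 * D - 2) = 0)
    (k2 : q * (4 * D ^ 2 + 2 * D - 2) = 0)
    (k3 : q * (D ^ 2 - D - 2) = 0)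
    (k4 : p * (D ^ 2 + D - 2) = 0)
    (k5 : r * (4 * D ^ 2 + 2 * D - 2) = 0)
    (k6 : s * (4 * D ^ 2 - 2 * D - 2) = 0)
    (k7 : s * (D ^ 2 + D - 2) = 0)
    (k8 : r * (D ^ 2 - D - 2) = 0) :
    (D = 1 ∧ q = 0 ∧ r = 0 ∧ p * s = 1) ∨ (D = -1 ∧ p = 0 ∧ s = 0 ∧ q * r = 1) := by
  have hp : p ≠ 0 → D = 1 := fun h =>
    case_a D ((mul_eq_zero.mp k1).resolve_left h) ((mul_eq_zero.mp k4).resolve_left h)
  have hq : q ≠ 0 → D = -1 := fun h =>
    case_b D ((mul_eq_zero.mp k2).resolve_left h) ((mul_eq_zero.mp k3).resolve_left h)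
  have hr : r ≠ 0 → D = -1 := fun h =>
    case_b D ((mul_eq_zero.mp k5).resolve_left h) ((mul_eq_zero.mp k8).resolve_left h)
  have hs : s ≠ 0 → D = 1 := fun h =>
    case_a D ((mul_eq_zero.mp k6).resolve_left h) ((mul_eq_zero.mp k7).resolve_left h)
  by_cases hp0 : p = 0
  · have hq0 : q ≠ 0 := fun h => h1 ⟨hp0, h⟩
    have hDm := hq hq0
    have hs0 : s = 0 := by
      by_contra h
      exact one_ne_neg_one5 ((hs h).symm.trans hDm)
    right
    refine ⟨hDm, hp0, hs0, ?_⟩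
    rw [hp0, hs0] at hD
    have : q * r = -D := by rw [hD]; ring
    rw [this, hDm, neg_neg]
  · have hD1 := hp hp0
    have hq0 : q = 0 := by
      by_contra h
      exact one_ne_neg_one5 (hD1.symm.trans (hq h))
    have hr0 : r = 0 := by
      by_contra h
      exact one_ne_neg_one5 (hD1.symm.trans (hr h))
    left
    refine ⟨hD1, hq0, hr0, ?_⟩
    rw [hq0, hr0] at hD
    have : p * s = D := by rw [hD]; ring
    rw [this, hD1]

theorem case_one : ∀ p s y0 y1 y2 : ZMod 5, p * s = 1 →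
    (s + p * y0) * (0 - 2 * y0) - (s - p * p + p * y1) * (p - 2 * y1) = 0 →
    (s - p * p + p * y1) * (p - 2 * y1) - (s - 2 * p * p + p * y2) * (2 * p - 2 * y2) = 0 →
    (s + p * y0) * y0 - (s - p * p + p * y1) * y1 = 0 →
    (s - p * p + p * y1) * y1 - (s - 2 * p * p + p * y2) * y2 = 0 →
    p * (0 - 2 * y0) * y0 - p * (p - 2 * y1) * y1 = 0 →
    p * (p - 2 * y1) * y1 - p * (2 * p - 2 * y2) * y2 = 0 →
    p = 1 ∧ s = 1 ∧ y0 = 0 ∧ y1 = 0 ∧ y2 = 1 := by
  decide +kernel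

theorem case_two : ∀ q r y0 y1 y2 : ZMod 5, ¬ (q * r = 1 ∧
    (0 - q * q + q * y0) * (q - 2 * y0) - (r - q * q + q * y1) * (q - 2 * y1) = 0 ∧
    (r - q * q + q * y1) * (q - 2 * y1) - (2 * r - q * q + q * y2) * (q - 2 * y2) = 0 ∧
    (0 - q * q + q * y0) * y0 - (r - q * q + q * y1) * y1 = 0 ∧
    (r - q * q + q * y1) * y1 - (2 * r - q * q + q * y2) * y2 = 0 ∧
    q * (q - 2 * y0) * y0 - q * (q - 2 * y1) * y1 = 0 ∧
    q * (q - 2 * y1) * y1 - q * (q - 2 * y2) * y2 = 0) := by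
  decide +kernel

theorem eig_zero {l c x : ZMod 5} (h : l * x = c * x) (hlc : l ≠ c) : x = 0 := by
  have h1 : (l - c) * x = 0 := by rw [sub_mul, h, sub_self]
  exact (mul_eq_zero.mp h1).resolve_left (sub_ne_zero.mpr hlc)

theorem X_form (x : L) (h : ∀ i, i ≠ 3 → i ≠ 4 → i ≠ 5 → x i = 0) : x = Xv (x 3) (x 4) (x 5) := by
  funext i
  fin_cases i
  · exact h 0 (by decide) (by decide) (by decide)
  · exact h 1 (by decide) (by decide) (by decide)
  · exact h 2 (by decide) (by decide) (by decide)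
  · rfl
  · rfl
  · rfl
  · exact h 6 (by decide) (by decide) (by decide)
  · exact h 7 (by decide) (by decide) (by decide)
  · exact h 8 (by decide) (by decide) (by decide)
  · exact h 9 (by decide) (by decide) (by decide)
  · exact h 10 (by decide) (by decide) (by decide)

theorem Y_form (x : L) (h : ∀ i, i ≠ 6 → i ≠ 7 → i ≠ 8 → x i = 0) : x = Yv (x 6) (x 7) (x 8) := by
  funext i
  fin_cases i
  · exact h 0 (by decide) (by decide) (by decide)
  · exact h 1 (by decide) (by decide) (by decide)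
  · exact h 2 (by decide) (by decide) (by decide)
  · exact h 3 (by decide) (by decide) (by decide)
  · exact h 4 (by decide) (by decide) (by decide)
  · exact h 5 (by decide) (by decide) (by decide)
  · rfl
  · rfl
  · rfl
  · exact h 9 (by decide) (by decide) (by decide)
  · exact h 10 (by decide) (by decide) (by decide)

theorem e0_form (x : L) (h : ∀ i, i ≠ 0 → x i = 0) : x = x 0 • e0 := by
  funext i
  by_cases hi : i = 0
  · subst hi; simp [e0]
  · rw [h i hi]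
    revert hi
    fin_cases i <;> simp [e0]

theorem e1_form (x : L) (h : ∀ i, i ≠ 1 → x i = 0) : x = x 1 • e1 := by
  funext i
  by_cases hi : i = 1
  · subst hi; simp [e1]
  · rw [h i hi]
    revert hi
    fin_cases i <;> simp [e1]

theorem br_w3_X (a b c : ZMod 5) : br w3 (Xv a b c) = (1 : ZMod 5) • Xv a b c := by
  rw [br_w3]
  funext i
  fin_cases i <;> simp [Xv, lam]

theorem br_w3_Y (a b c : ZMod 5) : br w3 (Yv a b c) = (-1 : ZMod 5) • Yv a b c := by
  rw [br_w3]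
  funext i
  fin_cases i <;> simp [Yv, lam]

theorem w1_split : w1 = e0 + Yv 0 1 2 := by decide

theorem w2_split : w2 = e1 + Xv 1 1 1 := by decide

theorem basis_sum (a : L) : a = a 0 • e0 + a 1 • e1 + a 2 • br e0 e1 + a 3 • Xv 1 0 0 + a 4 • Xv 0 1 0 +
    a 5 • Xv 0 0 1 + a 6 • Yv 1 0 0 + a 7 • Yv 0 1 0 + a 8 • Yv 0 0 1 +
    a 9 • ((3 : ZMod 5) • br (Xv 1 0 0) (Yv 1 0 0)) +
    a 10 • ((2 : ZMod 5) • br (Xv 0 0 1) (Yv 0 0 1)) := by
  have h2 : br e0 e1 = ![0,0,1,0,0,0,0,0,0,0,0] := by decide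
  have h9 : (3 : ZMod 5) • br (Xv 1 0 0) (Yv 1 0 0) = ![0,0,0,0,0,0,0,0,0,1,0] := by decide
  have h10 : (2 : ZMod 5) • br (Xv 0 0 1) (Yv 0 0 1) = ![0,0,0,0,0,0,0,0,0,0,1] := by decide
  rw [h2, h9, h10]
  funext i
  fin_cases i <;> simp [e0, e1, Xv, Yv]

theorem aut_core (α : L →+ L) (hbr : ∀ a b, α (br a b) = br (α a) (α b))
    (h0 : α e0 = e0) (h1 : α e1 = e1) (h3 : α (Xv 1 0 0) = Xv 1 0 0) (h4 : α (Xv 0 1 0) = Xv 0 1 0)
    (h5 : α (Xv 0 0 1) = Xv 0 0 1) (h6 : α (Yv 1 0 0) = Yv 1 0 0) (h7 : α (Yv 0 1 0) = Yv 0 1 0)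
    (h8 : α (Yv 0 0 1) = Yv 0 0 1) : ∀ a, α a = a := by
  intro a
  have hsm : ∀ (t : ZMod 5) (x : L), α (t • x) = t • α x := fun t x => ZMod.map_smul α t x
  rw [basis_sum a]
  simp only [map_add, hsm, hbr, h0, h1, h3, h4, h5, h6, h7, h8]

theorem eig_map (α : L →+ L) (hbr : ∀ a b, α (br a b) = br (α a) (α b)) {D : ZMod 5}
    (hw3 : α w3 = D • w3) (x : L) (c : ZMod 5) (hx : br w3 x = c • x) (i : Fin 11)
    (hi : D * lam i ≠ c) : α x i = 0 := by
  have h := hbr w3 x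
  rw [hx, ZMod.map_smul α c x, hw3, br_smul_left, br_w3] at h
  have h1 := congr_fun h i
  simp only [Pi.smul_apply, smul_eq_mul] at h1
  refine eig_zero (l := D * lam i) (c := c) ?_ hi
  rw [h1]; ring


end AutTriv

open AutTriv in
theorem aut_trivial (α : L →+ L) (hinj : Function.Injective α)
    (hbr : ∀ a b, α (br a b) = br (α a) (α b)) (hW : ∀ a ∈ W, α a ∈ W) : ∀ a, α a = a := by
  have hsm : ∀ (t : ZMod 5) (x : L), α (t • x) = t • α x := fun t x => ZMod.map_smul α t x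
  have hz : ∀ x, α x = 0 → x = 0 := fun x hx => hinj (hx.trans (map_zero α).symm)
  obtain ⟨p, q, hw1⟩ : ∃ p q : ZMod 5, α w1 = ![p, q, 0, q, q, q, 0, p, 2 * p, 0, 0] :=
    ⟨_, _, mem_W_form (hW _ w1_mem)⟩
  obtain ⟨r, s, hw2⟩ : ∃ r s : ZMod 5, α w2 = ![r, s, 0, s, s, s, 0, r, 2 * r, 0, 0] :=
    ⟨_, _, mem_W_form (hW _ w2_mem)⟩
  obtain ⟨D, hD⟩ : ∃ D : ZMod 5, D = p * s - q * r := ⟨_, rfl⟩
  have hw3 : α w3 = D • w3 := by
    rw [← br_w1_w2, hbr, hw1, hw2, br_w1_w2, hD]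
    funext i
    fin_cases i <;> simp [br, w3] <;> ring
  have hne : ¬ (p = 0 ∧ q = 0) := by
    rintro ⟨h1, h2⟩
    have : w1 = 0 := by
      apply hz
      rw [hw1, h1, h2]
      funext i
      fin_cases i <;> simp
    exact absurd this (by decide)
  have q1 : br w3 (br w3 w1) = br w3 w1 + (2 : ZMod 5) • w1 := by decide
  have q2 : br w3 (br w3 w2) + br w3 w2 = (2 : ZMod 5) • w2 := by decide
  have q1' := congrArg α q1
  have q2' := congrArg α q2
  rw [hbr, hbr, map_add, hbr, hsm, hw3, br_smul_left, br_smul_left, br_smul_right, hw1, br_w3] at q1'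
  rw [map_add, hbr, hbr, hsm, hw3, br_smul_left, br_smul_left, br_smul_right, hw2, br_w3] at q2'
  have k1 := congr_fun q1' 0
  have k2 := congr_fun q1' 1
  have k3 := congr_fun q1' 3
  have k4 := congr_fun q1' 7
  have k5 := congr_fun q2' 0
  have k6 := congr_fun q2' 1
  have k7 := congr_fun q2' 3
  have k8 := congr_fun q2' 7
  simp [br_w3, lam] at k1 k2 k3 k4 k5 k6 k7 k8
  have hcase := case_split p q r s D hD hne (by linear_combination k1) (by linear_combination k2)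
    (by linear_combination k3) (by linear_combination k4) (by linear_combination k5)
    (by linear_combination k6) (by linear_combination k7) (by linear_combination k8)
  clear k1 k2 k3 k4 k5 k6 k7 k8 q1 q2 q1' q2'
  have be0 : br w3 e0 = (2 : ZMod 5) • e0 := by decide
  have be1 : br w3 e1 = (-2 : ZMod 5) • e1 := by decide
  have hY01 : Yv 0 1 2 = Yv 0 1 0 + (2 : ZMod 5) • Yv 0 0 1 := by decide
  have hX11 : Xv 1 1 1 = Xv 1 0 0 + Xv 0 1 0 + Xv 0 0 1 := by decide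
  have hXe : ∀ a b c, Xv a b c = br e0 (Yv a b c) := by
    intro a b c
    have := br_e0_Y 1 a b c
    rw [one_smul, one_mul, one_mul, one_mul] at this
    exact this.symm
  have hYe : ∀ a b c, Yv a b c = br e1 (Xv a b c) := by
    intro a b c
    have := br_e1_X 1 a b c
    rw [one_smul, one_mul, one_mul, one_mul] at this
    exact this.symm
  have hz1 : br (Xv 1 0 0) (Yv 0 1 0) = 0 := by decide
  have hz2 : br (Xv 1 0 0) (Yv 0 0 1) = 0 := by decide
  have hz3 : br (Xv 0 1 0) (Yv 0 0 1) = 0 := by decide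
  have two_cancel : ∀ x : ZMod 5, 2 * x = 0 → x = 0 := by decide
  rcases hcase with ⟨hD1, hq, hr, hps⟩ | ⟨hD1, hp, hs, hqr⟩
  · rw [hD1] at hw3
    have c0 := e0_form (α e0) fun i hi => eig_map α hbr hw3 e0 2 be0 i (by revert hi; fin_cases i <;> decide)
    have c1 := e1_form (α e1) fun i hi => eig_map α hbr hw3 e1 (-2) be1 i (by revert hi; fin_cases i <;> decide)
    have cY : ∀ a b c, ∃ a' b' c', α (Yv a b c) = Yv a' b' c' := fun a b c =>
      ⟨_, _, _, Y_form (α (Yv a b c)) fun i h6 h7 h8 => eig_map α hbr hw3 _ (-1) (br_w3_Y a b c) i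
        (by revert h6 h7 h8; fin_cases i <;> decide)⟩
    have cX : ∀ a b c, ∃ a' b' c', α (Xv a b c) = Xv a' b' c' := fun a b c =>
      ⟨_, _, _, X_form (α (Xv a b c)) fun i h6 h7 h8 => eig_map α hbr hw3 _ 1 (br_w3_X a b c) i
        (by revert h6 h7 h8; fin_cases i <;> decide)⟩
    generalize α e0 0 = a0 at c0
    generalize α e1 1 = a1 at c1
    obtain ⟨u0, u1, u2, hu⟩ := cY 0 1 2
    obtain ⟨v0, v1, v2, hv⟩ := cX 1 1 1
    obtain ⟨y0, y1, y2, hy⟩ := cY 0 0 1
    rw [w1_split, map_add, c0, hu, hq] at hw1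
    rw [w2_split, map_add, c1, hv, hr] at hw2
    have a0p : a0 = p := by simpa [e0, Yv] using congr_fun hw1 0
    have u0p : u0 = 0 := by simpa [e0, Yv] using congr_fun hw1 6
    have u1p : u1 = p := by simpa [e0, Yv] using congr_fun hw1 7
    have u2p : u2 = 2 * p := by simpa [e0, Yv] using congr_fun hw1 8
    have a1s : a1 = s := by simpa [e1, Xv] using congr_fun hw2 1
    have v0s : v0 = s := by simpa [e1, Xv] using congr_fun hw2 3
    have v1s : v1 = s := by simpa [e1, Xv] using congr_fun hw2 4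
    have v2s : v2 = s := by simpa [e1, Xv] using congr_fun hw2 5
    rw [u0p, u1p, u2p] at hu
    rw [v0s, v1s, v2s] at hv
    rw [a0p] at c0
    rw [a1s] at c1
    have hY1 : α (Yv 0 1 0) = Yv (0 - 2 * y0) (p - 2 * y1) (2 * p - 2 * y2) := by
      have h1 : α (Yv 0 1 0) = α (Yv 0 1 2) - (2 : ZMod 5) • α (Yv 0 0 1) := by
        rw [hY01, map_add, hsm]; abel
      rw [h1, hu, hy]
      funext i
      fin_cases i <;> simp [Yv]
    have hX2 : α (Xv 0 0 1) = Xv (p * y0) (p * y1) (p * y2) := by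
      rw [hXe, hbr, c0, hy, br_e0_Y]
    have hX1 : α (Xv 0 1 0) = Xv (p * (0 - 2 * y0)) (p * (p - 2 * y1)) (p * (2 * p - 2 * y2)) := by
      rw [hXe, hbr, c0, hY1, br_e0_Y]
    have hX0 : α (Xv 1 0 0) = Xv (s + p * y0) (s - p * p + p * y1)
        (s - 2 * p * p + p * y2) := by
      have h1 : α (Xv 1 0 0) = α (Xv 1 1 1) - α (Xv 0 1 0) - α (Xv 0 0 1) := by
        rw [hX11, map_add, map_add]; abel
      rw [h1, hv, hX1, hX2]
      funext i
      fin_cases i <;> simp [Xv] <;> ring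
    have g1 := hbr (Xv 1 0 0) (Yv 0 1 0)
    have g2 := hbr (Xv 1 0 0) (Yv 0 0 1)
    have g3 := hbr (Xv 0 1 0) (Yv 0 0 1)
    rw [hz1, map_zero, hX0, hY1, br_XY] at g1
    rw [hz2, map_zero, hX0, hy, br_XY] at g2
    rw [hz3, map_zero, hX1, hy, br_XY] at g3
    obtain ⟨r1, r2, r3, r4, r5⟩ := case_one p s y0 y1 y2 hps
      (two_cancel _ (congr_fun g1 9).symm) (two_cancel _ (congr_fun g1 10).symm)
      (two_cancel _ (congr_fun g2 9).symm) (two_cancel _ (congr_fun g2 10).symm)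
      (two_cancel _ (congr_fun g3 9).symm) (two_cancel _ (congr_fun g3 10).symm)
    subst r1 r2 r3 r4 r5
    rw [one_smul] at c0 c1
    have f3 : α (Xv 1 0 0) = Xv 1 0 0 := by rw [hX0]; decide
    refine aut_core α hbr c0 c1 f3 ?_ ?_ ?_ ?_ ?_
    · rw [hX1]; decide
    · rw [hX2]; decide
    · rw [hYe, hbr, c1, f3]
    · rw [hY1]; decide
    · rw [hy]
  · exfalso
    rw [hD1] at hw3
    have c0 := e1_form (α e0) fun i hi => eig_map α hbr hw3 e0 2 be0 i (by revert hi; fin_cases i <;> decide)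
    have c1 := e0_form (α e1) fun i hi => eig_map α hbr hw3 e1 (-2) be1 i (by revert hi; fin_cases i <;> decide)
    have cY : ∀ a b c, ∃ a' b' c', α (Yv a b c) = Xv a' b' c' := fun a b c =>
      ⟨_, _, _, X_form (α (Yv a b c)) fun i h6 h7 h8 => eig_map α hbr hw3 _ (-1) (br_w3_Y a b c) i
        (by revert h6 h7 h8; fin_cases i <;> decide)⟩
    have cX : ∀ a b c, ∃ a' b' c', α (Xv a b c) = Yv a' b' c' := fun a b c =>
      ⟨_, _, _, Y_form (α (Xv a b c)) fun i h6 h7 h8 => eig_map α hbr hw3 _ 1 (br_w3_X a b c) i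
        (by revert h6 h7 h8; fin_cases i <;> decide)⟩
    generalize α e0 1 = a0 at c0
    generalize α e1 0 = a1 at c1
    obtain ⟨u0, u1, u2, hu⟩ := cY 0 1 2
    obtain ⟨v0, v1, v2, hv⟩ := cX 1 1 1
    obtain ⟨y0, y1, y2, hy⟩ := cY 0 0 1
    rw [w1_split, map_add, c0, hu, hp] at hw1
    rw [w2_split, map_add, c1, hv, hs] at hw2
    have a0p : a0 = q := by simpa [e1, Xv] using congr_fun hw1 1
    have u0p : u0 = q := by simpa [e1, Xv] using congr_fun hw1 3
    have u1p : u1 = q := by simpa [e1, Xv] using congr_fun hw1 4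
    have u2p : u2 = q := by simpa [e1, Xv] using congr_fun hw1 5
    have a1s : a1 = r := by simpa [e0, Yv] using congr_fun hw2 0
    have v0s : v0 = 0 := by simpa [e0, Yv] using congr_fun hw2 6
    have v1s : v1 = r := by simpa [e0, Yv] using congr_fun hw2 7
    have v2s : v2 = 2 * r := by simpa [e0, Yv] using congr_fun hw2 8
    rw [u0p, u1p, u2p] at hu
    rw [v0s, v1s, v2s] at hv
    rw [a0p] at c0
    rw [a1s] at c1
    have hY1 : α (Yv 0 1 0) = Xv (q - 2 * y0) (q - 2 * y1) (q - 2 * y2) := by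
      have h1 : α (Yv 0 1 0) = α (Yv 0 1 2) - (2 : ZMod 5) • α (Yv 0 0 1) := by
        rw [hY01, map_add, hsm]; abel
      rw [h1, hu, hy]
      funext i
      fin_cases i <;> simp [Xv]
    have hX2 : α (Xv 0 0 1) = Yv (q * y0) (q * y1) (q * y2) := by
      rw [hXe, hbr, c0, hy, br_e1_X]
    have hX1 : α (Xv 0 1 0) = Yv (q * (q - 2 * y0)) (q * (q - 2 * y1)) (q * (q - 2 * y2)) := by
      rw [hXe, hbr, c0, hY1, br_e1_X]
    have hX0 : α (Xv 1 0 0) = Yv (0 - q * q + q * y0) (r - q * q + q * y1)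
        (2 * r - q * q + q * y2) := by
      have h1 : α (Xv 1 0 0) = α (Xv 1 1 1) - α (Xv 0 1 0) - α (Xv 0 0 1) := by
        rw [hX11, map_add, map_add]; abel
      rw [h1, hv, hX1, hX2]
      funext i
      fin_cases i <;> simp [Yv] <;> ring
    have g1 := hbr (Xv 1 0 0) (Yv 0 1 0)
    have g2 := hbr (Xv 1 0 0) (Yv 0 0 1)
    have g3 := hbr (Xv 0 1 0) (Yv 0 0 1)
    rw [hz1, map_zero, hX0, hY1, br_YX] at g1
    rw [hz2, map_zero, hX0, hy, br_YX] at g2
    rw [hz3, map_zero, hX1, hy, br_YX] at g3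
    have e1' := two_cancel _ (congr_fun g1 9).symm
    have e2' := two_cancel _ (congr_fun g1 10).symm
    have e3' := two_cancel _ (congr_fun g2 9).symm
    have e4' := two_cancel _ (congr_fun g2 10).symm
    have e5' := two_cancel _ (congr_fun g3 9).symm
    have e6' := two_cancel _ (congr_fun g3 10).symm
    exact case_two q r y0 y1 y2 ⟨hqr, by linear_combination -e1', by linear_combination -e2',
      by linear_combination -e3', by linear_combination -e4', by linear_combination -e5',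
      by linear_combination -e6'⟩
end Pool.Agent.Helper199.AutG
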