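import Pool.Agent.Helper199.AutG.Sym
import Pool.Agent.Helper199.AutG.LA
import Pool.Agent.Helper199.AutG.LA1
set_option autoImplicit false
namespace Pool.Agent.Helper199.AutG

theorem card_step {G : Type} [Group G] (H K : Subgroup G) (hKH : K ≤ H) {X : Type}
    (R : G → X → Prop) (tot : ∀ x ∈ H, ∃ a, R x a) (sur : ∀ a, ∃ x ∈ H, R x a)
    (key : ∀ x ∈ H, ∀ y ∈ H, ∀ a b, R x a → R y b → (a = b ↔ x⁻¹ * y ∈ K)) :
    Nat.card H = Nat.card X * Nat.card K := by
  choose f hf using fun x : H => tot x.1 x.2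
  have hff : ∀ x y : H, f x = f y ↔ (x.1)⁻¹ * y.1 ∈ K := fun x y =>
    key x.1 x.2 y.1 y.2 _ _ (hf x) (hf y)
  have hout : ∀ q : H ⧸ K.subgroupOf H, (QuotientGroup.mk q.out : H ⧸ K.subgroupOf H) = q :=
    fun q => QuotientGroup.out_eq' q
  have hmk : ∀ x y : H, (QuotientGroup.mk x : H ⧸ K.subgroupOf H) = QuotientGroup.mk y ↔
      (x.1)⁻¹ * y.1 ∈ K := by
    intro x y
    rw [QuotientGroup.eq, Subgroup.mem_subgroupOf]
    simp
  have hbij : Function.Bijective (fun q : H ⧸ K.subgroupOf H => f q.out) := by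
    constructor
    · intro q1 q2 h
      have h1 := (hff _ _).1 h
      rw [← hout q1, ← hout q2]
      exact (hmk _ _).2 h1
    · intro a
      obtain ⟨x, hx, hxa⟩ := sur a
      refine ⟨QuotientGroup.mk ⟨x, hx⟩, ?_⟩
      have h1 := (hmk _ _).1 (hout (QuotientGroup.mk ⟨x, hx⟩))
      have h2 : f (QuotientGroup.mk (s := K.subgroupOf H) (⟨x, hx⟩ : H)).out = f ⟨x, hx⟩ :=
        (hff _ _).2 h1
      change f (QuotientGroup.mk (s := K.subgroupOf H) (⟨x, hx⟩ : H)).out = a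
      rw [h2]
      have h3 := key x hx x hx _ _ (hf ⟨x, hx⟩) hxa
      rw [inv_mul_cancel] at h3
      exact h3.2 (Subgroup.one_mem K)
  rw [Subgroup.card_eq_card_quotient_mul_card_subgroup (K.subgroupOf H),
    Nat.card_congr (Equiv.ofBijective _ hbij),
    Nat.card_congr (Subgroup.subgroupOfEquivOfLe hKH).toEquiv]

namespace Sym
variable {M : ℕ} {G : Type} [Group G]

theorem card_F_step (S : Sym M G) {i : ℕ} (hi : i < M) :
    Nat.card (S.F i) = 5 ^ 11 * Nat.card (S.F (i + 1)) := by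
  have hL : Nat.card L = 5 ^ 11 := by
    rw [Nat.card_eq_fintype_card, Fintype.card_pi]
    simp
  rw [← hL]
  refine card_step (S.F i) (S.F (i + 1)) (S.F_succ_le i) (S.T i) (fun x hx => hx) ?_ ?_
  · intro a
    obtain ⟨x, hx⟩ := S.ex i a
    exact ⟨x, S.mem_of hx, hx⟩
  · intro x _ y _ a b ha hb
    have hd := S.diff ha hb
    constructor
    · rintro rfl
      rw [sub_self] at hd
      exact S.mem_succ_iff.2 hd
    · intro h
      have h0 := S.mem_succ_iff.1 h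
      have := S.uniq hi hd h0
      exact (sub_eq_zero.1 this).symm

theorem card_F_last (S : Sym M G) : Nat.card (S.F M) = 5 ^ 9 := by
  have h := card_step (S.F M) ⊥ bot_le (X := L ⧸ W)
    (fun x q => ∃ a, S.T M x a ∧ (QuotientAddGroup.mk a : L ⧸ W) = q) ?_ ?_ ?_
  · rw [h, card_LW, Subgroup.card_bot, mul_one]
  · rintro x ⟨a, ha⟩
    exact ⟨_, a, ha, rfl⟩
  · intro q
    obtain ⟨a, rfl⟩ := QuotientAddGroup.mk_surjective q
    obtain ⟨x, hx⟩ := S.ex M a
    exact ⟨x, S.mem_of hx, a, hx, rfl⟩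
  · rintro x _ y _ _ _ ⟨a, ha, rfl⟩ ⟨b, hb, rfl⟩
    have hd := S.diff ha hb
    rw [Subgroup.mem_bot]
    constructor
    · intro h
      rw [QuotientAddGroup.eq, neg_add_eq_sub] at h
      exact S.upW hd h
    · intro h
      rw [h] at hd
      rw [QuotientAddGroup.eq, neg_add_eq_sub]
      have := S.uniqW (S.one M) hd
      rwa [sub_zero] at this

theorem card_G (S : Sym M G) : Nat.card G = 5 ^ (11 * M + 9) := by
  have h : ∀ k, k ≤ M → Nat.card (S.F (M - k)) = 5 ^ (11 * k + 9) := by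
    intro k
    induction k with
    | zero => intro _; rw [Nat.sub_zero, S.card_F_last]
    | succ k ih =>
      intro hk
      have h1 : M - (k + 1) < M := by omega
      have h2 : M - (k + 1) + 1 = M - k := by omega
      rw [S.card_F_step h1, h2, ih (by omega)]
      ring
  have h0 := h M le_rfl
  rw [Nat.sub_self, S.F_zero] at h0
  rw [← h0]
  exact (Nat.card_congr (Subgroup.topEquiv (G := G)).toEquiv).symm

end Sym

namespace Sym
variable {M : ℕ} {G : Type} [Group G] (S : Sym M G)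

section
theorem F_succ_le_closure_aux (d : ℕ) : ∀ k : ℕ, M ≤ k + d →
    S.F (k + 1) ≤ Subgroup.closure {z : G | ∃ x ∈ S.F k, ∃ y : G, z = x * y * x⁻¹ * y⁻¹} := by
  induction d with
  | zero =>
    intro k hk
    rw [S.F_eq_bot (by omega)]
    exact bot_le
  | succ d ih =>
    intro k hk
    set C := Subgroup.closure {z : G | ∃ x ∈ S.F k, ∃ y : G, z = x * y * x⁻¹ * y⁻¹} with hC
    have h1 : S.F (k + 2) ≤ C := by
      refine (ih (k + 1) (by omega)).trans ?_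
      apply Subgroup.closure_mono
      rintro z ⟨x, hx, y, hz⟩
      exact ⟨x, S.F_succ_le k hx, y, hz⟩
    let K : AddSubgroup L :=
      { carrier := {c | ∃ z ∈ C, S.T (k + 1) z c}
        zero_mem' := ⟨1, Subgroup.one_mem _, S.one _⟩
        add_mem' := by
          rintro a b ⟨x, hx, hx'⟩ ⟨y, hy, hy'⟩
          exact ⟨x * y, mul_mem hx hy, S.mul hx' hy'⟩
        neg_mem' := by
          rintro a ⟨x, hx, hx'⟩
          exact ⟨x⁻¹, inv_mem hx, S.inv hx'⟩ }
    have hK : K = ⊤ := by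
      apply perfect
      intro a b
      obtain ⟨x, hx⟩ := S.ex k a
      obtain ⟨y, hy⟩ := S.ex 0 b
      refine ⟨x * y * x⁻¹ * y⁻¹, ?_, S.comm hx hy⟩
      exact Subgroup.subset_closure ⟨x, S.mem_of hx, y, rfl⟩
    rintro x ⟨c, hc⟩
    have hcK : c ∈ K := by rw [hK]; exact AddSubgroup.mem_top c
    obtain ⟨z, hz, hz'⟩ := hcK
    have h2 := S.diff hz' hc
    rw [sub_self] at h2
    have h3 : z⁻¹ * x ∈ C := h1 (S.mem_succ_iff.2 h2)
    have h4 : x = z * (z⁻¹ * x) := by group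
    rw [h4]
    exact mul_mem hz h3

theorem F_succ_le_closure (i : ℕ) :
    S.F (i + 1) ≤ Subgroup.closure {z : G | ∃ x ∈ S.F i, ∃ y : G, z = x * y * x⁻¹ * y⁻¹} :=
  S.F_succ_le_closure_aux M i (by omega)

theorem F_map (f : G →* G) (i : ℕ) {x : G} (hx : x ∈ S.F i) : f x ∈ S.F i := by
  induction i generalizing x with
  | zero => exact S.mem_F_zero _
  | succ i ih =>
    have h1 : Subgroup.closure {z : G | ∃ x ∈ S.F i, ∃ y : G, z = x * y * x⁻¹ * y⁻¹} ≤
        (S.F (i + 1)).comap f := by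
      rw [Subgroup.closure_le]
      rintro z ⟨u, hu, v, rfl⟩
      show f (u * v * u⁻¹ * v⁻¹) ∈ S.F (i + 1)
      rw [map_mul, map_mul, map_mul, map_inv, map_inv]
      exact S.comm_mem_succ (f v) (ih hu)
    exact h1 (S.F_succ_le_closure i hx)

theorem L1_comm {H : Type*} [Group H] (U V P Q : H) (hPV : P * V = V * P) (hPQ : P * Q = Q * P)
    (hUQ : U * Q = Q * U) :
    (U * P) * (V * Q) * (U * P)⁻¹ * (V * Q)⁻¹ = U * V * U⁻¹ * V⁻¹ := by
  have h1 : P * (V * Q) = (V * Q) * P := by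
    rw [← mul_assoc, hPV, mul_assoc, hPQ, ← mul_assoc]
  have h2 : Q * U⁻¹ = U⁻¹ * Q := by
    rw [mul_inv_eq_iff_eq_mul, mul_assoc, ← hUQ, ← mul_assoc, inv_mul_cancel, one_mul]
  calc (U * P) * (V * Q) * (U * P)⁻¹ * (V * Q)⁻¹
      = U * (P * (V * Q)) * P⁻¹ * U⁻¹ * (Q⁻¹ * V⁻¹) := by group
    _ = U * ((V * Q) * P) * P⁻¹ * U⁻¹ * (Q⁻¹ * V⁻¹) := by rw [h1]
    _ = U * V * (Q * U⁻¹) * Q⁻¹ * V⁻¹ := by group
    _ = U * V * (U⁻¹ * Q) * Q⁻¹ * V⁻¹ := by rw [h2]
    _ = U * V * U⁻¹ * V⁻¹ := by group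

theorem L1 (f : G →* G) {s : ℕ} (hf : ∀ x, x⁻¹ * f x ∈ S.F s) (j : ℕ) {y : G}
    (hy : y ∈ S.F j) : y⁻¹ * f y ∈ S.F (j + s) := by
  induction j generalizing y with
  | zero => rw [Nat.zero_add]; exact hf y
  | succ j ih =>
    have h1 : Subgroup.closure {z : G | ∃ x ∈ S.F j, ∃ y : G, z = x * y * x⁻¹ * y⁻¹} ≤
        MonoidHom.eqLocus (QuotientGroup.mk' (S.F (j + 1 + s)))
          ((QuotientGroup.mk' (S.F (j + 1 + s))).comp f) := by
      rw [Subgroup.closure_le]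
      rintro z ⟨u, hu, v, rfl⟩
      show (QuotientGroup.mk' (S.F (j + 1 + s))) (u * v * u⁻¹ * v⁻¹) =
        (QuotientGroup.mk' (S.F (j + 1 + s))) (f (u * v * u⁻¹ * v⁻¹))
      have hp := ih hu
      have hq := hf v
      have c1 := S.commute_mk (m := j + 1 + s) (by omega) hp (S.mem_F_zero v)
      have c2 := S.commute_mk (m := j + 1 + s) (by omega) hp (S.mem_F_zero (v⁻¹ * f v))
      have c3 := S.commute_mk (m := j + 1 + s) (by omega) hu hq
      have h3 := L1_comm (QuotientGroup.mk u : G ⧸ S.F (j + 1 + s)) (QuotientGroup.mk v)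
        (QuotientGroup.mk (u⁻¹ * f u)) (QuotientGroup.mk (v⁻¹ * f v)) c1 c2 c3
      rw [← QuotientGroup.mk_mul, ← QuotientGroup.mk_mul, mul_inv_cancel_left,
        mul_inv_cancel_left] at h3
      rw [map_mul f, map_mul f, map_mul f, map_inv f, map_inv f]
      exact h3.symm
    have h2 := h1 (S.F_succ_le_closure j hy)
    have h3 : (QuotientGroup.mk y : G ⧸ S.F (j + 1 + s)) = QuotientGroup.mk (f y) := h2
    exact QuotientGroup.eq.1 h3
end

/-- the additive map delta is induced by f in degree s -/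
def R (s : ℕ) (f : G →* G) (δ : L →+ L) : Prop := ∀ x a, S.T 0 x a → S.T s (x⁻¹ * f x) (δ a)

section
theorem exists_delta {s : ℕ} (h1 : 1 ≤ s) (h2 : s < M) (f : G →* G)
    (hf : ∀ x, x⁻¹ * f x ∈ S.F s) : ∃ δ : L →+ L, S.R s f δ := by
  choose X hX using S.ex 0
  have hD0 : ∀ a, ∃ b, S.T s ((X a)⁻¹ * f (X a)) b := fun a => hf (X a)
  choose D hD using hD0
  have key : ∀ x a, S.T 0 x a → S.T s (x⁻¹ * f x) (D a) := by
    intro x a hx
    have h3 := S.diff (hX a) hx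
    rw [sub_self] at h3
    have h4 : (X a)⁻¹ * x ∈ S.F 1 := (S.mem_succ_iff (i := 0)).2 h3
    have h5 := S.L1 f hf 1 h4
    rw [Nat.add_comm 1 s] at h5
    have h6 := S.zero_of_mem_succ h5
    have h7 := S.conj (hD a) (((X a)⁻¹ * x)⁻¹)
    have h8 := S.mul h7 h6
    rw [add_zero] at h8
    have h9 : ((X a)⁻¹ * x)⁻¹ * ((X a)⁻¹ * f (X a)) * ((X a)⁻¹ * x)⁻¹⁻¹ *
        (((X a)⁻¹ * x)⁻¹ * f ((X a)⁻¹ * x)) = x⁻¹ * f x := by
      rw [map_mul, map_inv]
      group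
    rw [h9] at h8
    exact h8
  have hadd : ∀ a b, D (a + b) = D a + D b := by
    intro a b
    have h3 := key _ _ (S.mul (hX a) (hX b))
    have h4 := S.mul (S.conj (hD a) (X b)⁻¹) (hD b)
    have h5 : (X b)⁻¹ * ((X a)⁻¹ * f (X a)) * (X b)⁻¹⁻¹ * ((X b)⁻¹ * f (X b)) =
        (X a * X b)⁻¹ * f (X a * X b) := by
      rw [map_mul]
      group
    rw [h5] at h4
    exact S.uniq h2 h3 h4
  exact ⟨AddMonoidHom.mk' D hadd, key⟩
end

section
theorem R_level1_swap {Q : Type*} [Group Q] {x w t : Q} (hw : w * x = t * x * w)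
    (htw : t * w = w * t) (n : ℕ) : w ^ n * x = t ^ n * x * w ^ n := by
  induction n with
  | zero => simp
  | succ n ih =>
    have hc : t ^ n * w = w * t ^ n := (Commute.pow_left (show Commute t w from htw) n)
    calc w ^ (n + 1) * x = w * (w ^ n * x) := by rw [pow_succ']; group
      _ = w * (t ^ n * x * w ^ n) := by rw [ih]
      _ = (w * t ^ n) * x * w ^ n := by group
      _ = (t ^ n * w) * x * w ^ n := by rw [hc]
      _ = t ^ n * (w * x) * w ^ n := by group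
      _ = t ^ n * (t * x * w) * w ^ n := by rw [hw]
      _ = t ^ (n + 1) * x * w ^ (n + 1) := by
        rw [pow_succ t n, pow_succ' w n]; simp only [mul_assoc]

theorem R_level1_step {Q : Type*} [Group Q] {x w t : Q} (hw : w * x = t * x * w)
    (htw : t * w = w * t) (htx : t * x = x * t) (n m : ℕ)
    (h : (x * w) ^ n = t ^ m * x ^ n * w ^ n) :
    (x * w) ^ (n + 1) = t ^ (m + n) * x ^ (n + 1) * w ^ (n + 1) := by
  have h1 : x ^ n * t ^ n = t ^ n * x ^ n :=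
    (Commute.pow_pow (show Commute t x from htx) n n).symm
  calc (x * w) ^ (n + 1) = (x * w) ^ n * (x * w) := pow_succ _ _
    _ = t ^ m * x ^ n * w ^ n * (x * w) := by rw [h]
    _ = t ^ m * x ^ n * (w ^ n * x) * w := by simp only [mul_assoc]
    _ = t ^ m * x ^ n * (t ^ n * x * w ^ n) * w := by rw [R_level1_swap hw htw n]
    _ = t ^ m * (x ^ n * t ^ n) * x * w ^ n * w := by simp only [mul_assoc]
    _ = t ^ m * (t ^ n * x ^ n) * x * w ^ n * w := by rw [h1]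
    _ = t ^ (m + n) * x ^ (n + 1) * w ^ (n + 1) := by
      rw [pow_succ x n, pow_succ w n, pow_add]; simp only [mul_assoc]

theorem R_level1_five {Q : Type*} [Group Q] {x w t : Q} (hw : w * x = t * x * w)
    (htw : t * w = w * t) (htx : t * x = x * t) (ht : t ^ 5 = 1) :
    (x * w) ^ 5 = x ^ 5 * w ^ 5 := by
  have h0 : (x * w) ^ 0 = t ^ 0 * x ^ 0 * w ^ 0 := by simp
  have h1 := R_level1_step hw htw htx 0 0 h0
  have h2 := R_level1_step hw htw htx 1 0 h1
  have h3 := R_level1_step hw htw htx 2 1 h2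
  have h4 := R_level1_step hw htw htx 3 3 h3
  have h5 := R_level1_step hw htw htx 4 6 h4
  have h10 : t ^ 10 = 1 := by
    rw [show (10 : ℕ) = 5 * 2 by norm_num, pow_mul, ht, one_pow]
  have h6 : (x * w) ^ 5 = t ^ 10 * x ^ 5 * w ^ 5 := h5
  rw [h6, h10, one_mul]

theorem R_level1 {s : ℕ} (h1 : 1 ≤ s) (f : G →* G) (hf : ∀ x, x⁻¹ * f x ∈ S.F s)
    (δ : L →+ L) (h : S.R s f δ) {z : G} {c : L} (hz : S.T 1 z c) :
    S.T (s + 1) (z⁻¹ * f z) (δ c) := by
  obtain ⟨x, hx⟩ := S.ex 0 c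
  have hx5 : S.T 1 (x ^ 5) c := S.pow hx
  have hw : S.T s (x⁻¹ * f x) (δ c) := h x c hx
  obtain ⟨w, hwdef⟩ : ∃ w, w = x⁻¹ * f x := ⟨_, rfl⟩
  rw [← hwdef] at hw
  have hfx : f x = x * w := by rw [hwdef]; group
  have ht := S.comm hw hx
  obtain ⟨t, htdef⟩ : ∃ t, t = w * x * w⁻¹ * x⁻¹ := ⟨_, rfl⟩
  rw [← htdef] at ht
  have htF : t ∈ S.F (s + 1) := ⟨_, ht⟩
  have ht5 : t ^ 5 ∈ S.F (s + 2) := ⟨_, S.pow ht⟩
  have hwx : w * x = t * x * w := by rw [htdef]; group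
  have e1 : (QuotientGroup.mk w : G ⧸ S.F (s + 2)) * QuotientGroup.mk x =
      QuotientGroup.mk t * QuotientGroup.mk x * QuotientGroup.mk w := by
    rw [← QuotientGroup.mk_mul, ← QuotientGroup.mk_mul, ← QuotientGroup.mk_mul, hwx]
  have e2 : (QuotientGroup.mk t : G ⧸ S.F (s + 2)) * QuotientGroup.mk w =
      QuotientGroup.mk w * QuotientGroup.mk t :=
    S.commute_mk (i := s + 1) (j := 0) (by omega) htF (S.mem_F_zero w)
  have e3 : (QuotientGroup.mk t : G ⧸ S.F (s + 2)) * QuotientGroup.mk x =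
      QuotientGroup.mk x * QuotientGroup.mk t :=
    S.commute_mk (i := s + 1) (j := 0) (by omega) htF (S.mem_F_zero x)
  have e4 : (QuotientGroup.mk t : G ⧸ S.F (s + 2)) ^ 5 = 1 := by
    rw [← QuotientGroup.mk_pow]
    exact (QuotientGroup.eq_one_iff _).mpr ht5
  have e5 := R_level1_five e1 e2 e3 e4
  have e6 : (QuotientGroup.mk (x ^ 5 * w ^ 5) : G ⧸ S.F (s + 2)) =
      QuotientGroup.mk ((x * w) ^ 5) := by
    rw [QuotientGroup.mk_pow, QuotientGroup.mk_mul, QuotientGroup.mk_mul, QuotientGroup.mk_pow,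
      QuotientGroup.mk_pow, e5]
  rw [QuotientGroup.eq] at e6
  have e7 : S.T (s + 1) (w ^ 5) (δ c) := S.pow hw
  have e8 : S.T (s + 1) ((x ^ 5)⁻¹ * f (x ^ 5)) (δ c) := by
    apply S.congr e7
    have h2 : (w ^ 5)⁻¹ * ((x ^ 5)⁻¹ * f (x ^ 5)) = (x ^ 5 * w ^ 5)⁻¹ * (x * w) ^ 5 := by
      rw [map_pow, hfx, mul_inv_rev, mul_assoc]
    rw [h2]
    exact e6
  obtain ⟨y, hydef⟩ : ∃ y, y = (x ^ 5)⁻¹ * z := ⟨_, rfl⟩
  have hy : y ∈ S.F 2 := by
    have h3 := S.diff hx5 hz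
    rw [sub_self, ← hydef] at h3
    exact (S.mem_succ_iff (i := 1)).mpr h3
  have hzy : z = x ^ 5 * y := by rw [hydef]; group
  have h4 : z⁻¹ * f z = (y⁻¹ * ((x ^ 5)⁻¹ * f (x ^ 5)) * y⁻¹⁻¹) * (y⁻¹ * f y) := by
    rw [hzy, map_mul]
    simp only [mul_inv_rev, inv_inv, mul_assoc, mul_inv_cancel_left]
  rw [h4]
  have h5 := S.conj e8 y⁻¹
  have h6 : S.T (s + 1) (y⁻¹ * f y) 0 := by
    apply S.zero_of_mem_succ
    have := S.L1 f hf 2 hy
    rwa [show 2 + s = s + 1 + 1 by omega] at this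
  have h7 := S.mul h5 h6
  rwa [add_zero] at h7
end

section
theorem R_comm_group {Q : Type*} [Group Q] (x y x' y' p q : Q) (hp : x' * y = p * y * x')
    (hq : y' * x = q * x * y') (hpc : ∀ g : Q, p * g = g * p) (hqc : ∀ g : Q, q * g = g * q)
    (hxy : x' * y' = y' * x') :
    (x * y * x⁻¹ * y⁻¹)⁻¹ * ((x * x') * (y * y') * (x * x')⁻¹ * (y * y')⁻¹) = p * q⁻¹ := by
  have hA : (x * x') * (y * y') = p * (x * y) * (x' * y') := by
    calc (x * x') * (y * y') = x * (x' * y) * y' := by group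
      _ = x * (p * y * x') * y' := by rw [hp]
      _ = (x * p) * y * x' * y' := by group
      _ = (p * x) * y * x' * y' := by rw [hpc x]
      _ = _ := by group
  have hB : (y * y') * (x * x') = q * (y * x) * (x' * y') := by
    calc (y * y') * (x * x') = y * (y' * x) * x' := by group
      _ = y * (q * x * y') * x' := by rw [hq]
      _ = (y * q) * x * (y' * x') := by group
      _ = (q * y) * x * (x' * y') := by rw [hqc y, hxy]
      _ = _ := by group
  have hC : (x * x') * (y * y') * (x * x')⁻¹ * (y * y')⁻¹ =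
      ((x * x') * (y * y')) * ((y * y') * (x * x'))⁻¹ := by group
  rw [hC, hA, hB]
  have hqi : ∀ g : Q, q⁻¹ * g = g * q⁻¹ := by
    intro g
    have := hqc g
    calc q⁻¹ * g = q⁻¹ * (g * q) * q⁻¹ := by group
      _ = q⁻¹ * (q * g) * q⁻¹ := by rw [this]
      _ = _ := by group
  calc (x * y * x⁻¹ * y⁻¹)⁻¹ * (p * (x * y) * (x' * y') * (q * (y * x) * (x' * y'))⁻¹)
      = (x * y * x⁻¹ * y⁻¹)⁻¹ * ((p * (x * y * x⁻¹ * y⁻¹)) * q⁻¹) := by group
    _ = (x * y * x⁻¹ * y⁻¹)⁻¹ * (((x * y * x⁻¹ * y⁻¹) * p) * q⁻¹) := by rw [hpc]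
    _ = p * q⁻¹ := by group

theorem R_comm {s : ℕ} (h1 : 1 ≤ s) {x y x' y' : G} {a b a' b' : L} (hx : S.T 0 x a)
    (hy : S.T 0 y b) (hx' : S.T s x' a') (hy' : S.T s y' b') :
    S.T (s + 1) ((x * y * x⁻¹ * y⁻¹)⁻¹ * ((x * x') * (y * y') * (x * x')⁻¹ * (y * y')⁻¹))
      (br a' b + br a b') := by
  set p := x' * y * x'⁻¹ * y⁻¹ with hp
  set q := y' * x * y'⁻¹ * x⁻¹ with hq
  have Tp : S.T (s + 1) p (br a' b) := by
    have := S.comm hx' hy
    simpa using this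
  have Tq : S.T (s + 1) q (br b' a) := by
    have := S.comm hy' hx
    simpa using this
  have Tpq : S.T (s + 1) (p * q⁻¹) (br a' b + br a b') := by
    have := S.mul Tp (S.inv Tq)
    rwa [← br_swap] at this
  apply S.congr Tpq
  rw [← QuotientGroup.eq]
  have hpc : ∀ g : G ⧸ S.F (s + 1 + 1), (QuotientGroup.mk p : G ⧸ S.F (s + 1 + 1)) * g =
      g * QuotientGroup.mk p := by
    intro g
    obtain ⟨g, rfl⟩ := QuotientGroup.mk_surjective g
    exact S.commute_mk (i := s + 1) (j := 0) (by omega) (S.mem_of Tp) (S.mem_F_zero g)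
  have hqc : ∀ g : G ⧸ S.F (s + 1 + 1), (QuotientGroup.mk q : G ⧸ S.F (s + 1 + 1)) * g =
      g * QuotientGroup.mk q := by
    intro g
    obtain ⟨g, rfl⟩ := QuotientGroup.mk_surjective g
    exact S.commute_mk (i := s + 1) (j := 0) (by omega) (S.mem_of Tq) (S.mem_F_zero g)
  have hxy : (QuotientGroup.mk x' : G ⧸ S.F (s + 1 + 1)) * QuotientGroup.mk y' =
      QuotientGroup.mk y' * QuotientGroup.mk x' :=
    S.commute_mk (i := s) (j := s) (by omega) (S.mem_of hx') (S.mem_of hy')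
  have h := R_comm_group (QuotientGroup.mk x : G ⧸ S.F (s + 1 + 1)) (QuotientGroup.mk y)
    (QuotientGroup.mk x') (QuotientGroup.mk y') (QuotientGroup.mk p) (QuotientGroup.mk q)
    (by
      rw [← QuotientGroup.mk_mul, ← QuotientGroup.mk_mul, ← QuotientGroup.mk_mul]
      congr 1
      rw [hp]; group)
    (by
      rw [← QuotientGroup.mk_mul, ← QuotientGroup.mk_mul, ← QuotientGroup.mk_mul]
      congr 1
      rw [hq]; group)
    hpc hqc hxy
  simp only [QuotientGroup.mk_mul, QuotientGroup.mk_inv]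
  exact h.symm
end

theorem R_isDer {s : ℕ} (h1 : 1 ≤ s) (h2 : s < M) (f : G →* G)
    (hf : ∀ x, x⁻¹ * f x ∈ S.F s) (δ : L →+ L) (h : S.R s f δ) : IsDer δ := by
  apply der_W
  intro a b
  obtain ⟨x, hx⟩ := S.ex 0 a
  obtain ⟨y, hy⟩ := S.ex 0 b
  have hz : S.T 1 (x * y * x⁻¹ * y⁻¹) (br a b) := S.comm hx hy
  have k1 := S.R_level1 h1 f hf δ h hz
  have k2 := S.R_comm h1 hx hy (h x a hx) (h y b hy)
  have e : (x * (x⁻¹ * f x)) * (y * (y⁻¹ * f y)) * (x * (x⁻¹ * f x))⁻¹ * (y * (y⁻¹ * f y))⁻¹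
      = f (x * y * x⁻¹ * y⁻¹) := by
    simp only [mul_inv_cancel_left, map_mul, map_inv]
  rw [e] at k2
  exact S.uniq_mod (by omega) k2 k1

section
/-- The map on the first layer induced by an endomorphism. -/
noncomputable def al866 (φ : G →* G) (a : L) : L := (S.top (φ (S.ex 0 a).choose)).choose

theorem al866_zero (φ : G →* G) {x : G} {a : L} (h : S.T 0 x a) :
    S.T 0 (φ x) (S.al866 φ a) := by
  have h1 : S.T 0 (S.ex 0 a).choose a := (S.ex 0 a).choose_spec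
  have h2 : S.T 0 (φ (S.ex 0 a).choose) (S.al866 φ a) :=
    (S.top (φ (S.ex 0 a).choose)).choose_spec
  apply S.congr h2
  rw [← map_inv, ← map_mul]
  apply S.F_map
  rw [S.mem_succ_iff]
  have h3 := S.diff h1 h
  rwa [sub_self] at h3

theorem al866_spec (φ : G →* G) (i : ℕ) : ∀ {x : G} {a : L}, S.T i x a →
    S.T i (φ x) (S.al866 φ a) := by
  induction i with
  | zero => exact fun {x a} h => S.al866_zero φ h
  | succ i ih =>
    intro z c hz
    obtain ⟨x, hx⟩ := S.ex i c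
    have h1 : S.T (i + 1) (x ^ 5) c := S.pow hx
    have h2 : S.T (i + 1) (φ (x ^ 5)) (S.al866 φ c) := by
      rw [map_pow]
      exact S.pow (ih hx)
    apply S.congr h2
    rw [← map_inv, ← map_mul]
    apply S.F_map
    rw [S.mem_succ_iff]
    have h3 := S.diff h1 hz
    rwa [sub_self] at h3

theorem aut_mem_one (hM : 2 ≤ M) (φ : G ≃* G) (x : G) : x⁻¹ * φ x ∈ S.F 1 := by
  have hadd : ∀ a b, S.al866 φ.toMonoidHom (a + b) =
      S.al866 φ.toMonoidHom a + S.al866 φ.toMonoidHom b := by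
    intro a b
    obtain ⟨y, hy⟩ := S.ex 0 a
    obtain ⟨z, hz⟩ := S.ex 0 b
    have h1 := S.al866_spec φ.toMonoidHom 0 (S.mul hy hz)
    rw [map_mul] at h1
    have h2 := S.mul (S.al866_spec φ.toMonoidHom 0 hy) (S.al866_spec φ.toMonoidHom 0 hz)
    exact S.uniq (by omega) h1 h2
  let α : L →+ L := AddMonoidHom.mk' (S.al866 φ.toMonoidHom) hadd
  have hα : ∀ a, α a = S.al866 φ.toMonoidHom a := fun a => rfl
  have hinj : Function.Injective α := by
    rw [injective_iff_map_eq_zero]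
    intro a ha
    rw [hα] at ha
    obtain ⟨y, hy⟩ := S.ex 0 a
    have h1 := S.al866_spec φ.toMonoidHom 0 hy
    rw [ha] at h1
    have h2 : φ.toMonoidHom y ∈ S.F 1 := S.mem_succ_iff.mpr h1
    have h3 := S.F_map φ.symm.toMonoidHom 1 h2
    have h4 : φ.symm.toMonoidHom (φ.toMonoidHom y) = y := φ.symm_apply_apply y
    rw [h4] at h3
    exact S.uniq (by omega) hy (S.mem_succ_iff.mp h3)
  have hbr : ∀ a b, α (br a b) = br (α a) (α b) := by
    intro a b
    rw [hα, hα, hα]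
    obtain ⟨y, hy⟩ := S.ex 0 a
    obtain ⟨z, hz⟩ := S.ex 0 b
    have h1 := S.al866_spec φ.toMonoidHom (0 + 0 + 1) (S.comm hy hz)
    rw [map_mul, map_mul, map_mul, map_inv, map_inv] at h1
    have h2 := S.comm (S.al866_spec φ.toMonoidHom 0 hy) (S.al866_spec φ.toMonoidHom 0 hz)
    exact S.uniq (by omega) h1 h2
  have hW : ∀ a ∈ W, α a ∈ W := by
    intro a ha
    rw [hα]
    obtain ⟨z, hz⟩ := S.ex M a
    have h0 : z = 1 := S.upW hz ha
    have h1 := S.al866_spec φ.toMonoidHom M hz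
    rw [h0, map_one] at h1
    have h2 := S.uniqW (S.one M) h1
    rwa [sub_zero] at h2
  have hid := aut_trivial α hinj hbr hW
  obtain ⟨a, ha⟩ := S.top x
  have h1 := S.al866_spec φ.toMonoidHom 0 ha
  rw [← hα, hid] at h1
  have h2 := S.diff ha h1
  rw [sub_self] at h2
  exact S.mem_succ_iff.mpr h2
end

section
theorem endo_bij [Finite G] (f : G →* G) (hf : ∀ x, x⁻¹ * f x ∈ S.F 1) :
    Function.Bijective f := by
  rw [← Finite.injective_iff_bijective]
  rw [injective_iff_map_eq_one]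
  intro y hy
  have h : ∀ j, y ∈ S.F j := by
    intro j
    induction j with
    | zero => exact S.mem_F_zero y
    | succ j ih =>
      have h1 := S.L1 f hf j ih
      rw [hy, mul_one] at h1
      exact (Subgroup.inv_mem_iff _).mp h1
  have h2 := h (M + 1)
  rw [S.F_last, Subgroup.mem_bot] at h2
  exact h2

/-- the additive map delta is realised in degree s -/
def PJ (s : ℕ) (δ : L →+ L) : Prop :=
  ∃ f : G →* G, (∀ x, x⁻¹ * f x ∈ S.F s) ∧ S.R s f δ

theorem PJ_zero (s : ℕ) : S.PJ s 0 := by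
  refine ⟨MonoidHom.id G, ?_, ?_⟩
  · intro x
    simp only [MonoidHom.id_apply, inv_mul_cancel]
    exact Subgroup.one_mem _
  · intro x a _
    simp only [MonoidHom.id_apply, inv_mul_cancel, AddMonoidHom.zero_apply]
    exact S.one s

theorem PJ_of_R {s : ℕ} {δ : L →+ L} (f : G →* G) (h : S.R s f δ) : S.PJ s δ := by
  refine ⟨f, ?_, h⟩
  intro x
  obtain ⟨a, ha⟩ := S.top x
  exact S.mem_of (h x a ha)

theorem PJ_add {s : ℕ} (hs : 1 ≤ s) {δ ε : L →+ L} (h1 : S.PJ s δ) (h2 : S.PJ s ε) :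
    S.PJ s (δ + ε) := by
  obtain ⟨f1, hf1, hR1⟩ := h1
  obtain ⟨f2, hf2, hR2⟩ := h2
  apply S.PJ_of_R (f1.comp f2)
  intro x a ha
  have e : x⁻¹ * (f1.comp f2) x = (x⁻¹ * f1 x) * f1 (x⁻¹ * f2 x) := by
    rw [MonoidHom.comp_apply, map_mul, map_inv]
    group
  rw [e, AddMonoidHom.add_apply]
  apply S.mul (hR1 x a ha)
  apply S.congr (hR2 x a ha)
  apply S.F_anti (show s + 1 ≤ s + s by omega)
  exact S.L1 f1 hf1 s (hf2 x)

theorem PJ_nsmul {s : ℕ} (hs : 1 ≤ s) {δ : L →+ L} (h1 : S.PJ s δ) (n : ℕ) :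
    S.PJ s (n • δ) := by
  induction n with
  | zero => rw [zero_nsmul]; exact S.PJ_zero s
  | succ n ih => rw [succ_nsmul]; exact S.PJ_add hs ih h1

theorem PJ_inner (s : ℕ) (a : L) :
    S.PJ (s + 1) (AddMonoidHom.mk' (fun x : L => br a x) (fun x y => br_add_right a x y)) := by
  obtain ⟨g, hg⟩ := S.ex s a
  apply S.PJ_of_R (MulAut.conj g).toMonoidHom
  intro x b hb
  have e : x⁻¹ * (MulAut.conj g).toMonoidHom x = x⁻¹ * g * x⁻¹⁻¹ * g⁻¹ := by
    simp only [MulEquiv.toMonoidHom_eq_coe, MonoidHom.coe_coe, MulAut.conj_apply, inv_inv]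
    group
  rw [e]
  have h := S.comm (S.inv hb) hg
  rw [Nat.zero_add, br_neg_left, br_swap b a, neg_neg] at h
  exact h

theorem PJ_E (s : ℕ) :
    S.PJ (s + 1) (AddMonoidHom.mk' (fun x : L => E x) (fun x y => E_add x y)) := by
  obtain ⟨σ, hσ⟩ := S.scale s
  apply S.PJ_of_R σ
  intro x a ha
  exact hσ x a ha

theorem exists_endo {s : ℕ} (h1 : 1 ≤ s) (h2 : s < M) (δ : L →+ L) (hδ : IsDer δ) :
    ∃ f : G →* G, (∀ x, x⁻¹ * f x ∈ S.F s) ∧ S.R s f δ := by
  obtain ⟨a, t, hat⟩ := der_classify δ hδ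
  obtain ⟨s', rfl⟩ : ∃ s', s = s' + 1 := ⟨s - 1, by omega⟩
  have e : δ = AddMonoidHom.mk' (fun x : L => br a x) (fun x y => br_add_right a x y) +
      t.val • AddMonoidHom.mk' (fun x : L => E x) (fun x y => E_add x y) := by
    apply AddMonoidHom.ext
    intro x
    rw [hat x, AddMonoidHom.add_apply, AddMonoidHom.nsmul_apply]
    simp only [AddMonoidHom.mk'_apply]
    congr 1
    funext i
    simp only [Pi.smul_apply, smul_eq_mul, nsmul_eq_mul, ZMod.natCast_val, ZMod.cast_id', id_eq]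
  rw [e]
  exact S.PJ_add h1 (S.PJ_inner s' a) (S.PJ_nsmul h1 (S.PJ_E s') _)
end

section
/-- automorphisms moving every element by an element of F s -/
def A (s : ℕ) : Subgroup (MulAut G) where
  carrier := {φ | ∀ x, x⁻¹ * φ x ∈ S.F s}
  mul_mem' := by
    intro φ ψ hφ hψ x
    have h1 := S.F_map φ.toMonoidHom s (hψ x)
    have h2 : x⁻¹ * (φ * ψ) x = (x⁻¹ * φ x) * φ (x⁻¹ * ψ x) := by
      rw [MulAut.mul_apply, map_mul, map_inv]
      group
    rw [h2]
    exact mul_mem (hφ x) h1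
  one_mem' := by
    intro x
    rw [MulAut.one_apply, inv_mul_cancel]
    exact one_mem _
  inv_mem' := by
    intro φ hφ x
    have h1 := inv_mem (hφ (φ⁻¹ x))
    have h2 : φ (φ⁻¹ x) = x := MulEquiv.apply_symm_apply φ x
    rw [h2] at h1
    have h3 : ((φ⁻¹ x)⁻¹ * x)⁻¹ = x⁻¹ * φ⁻¹ x := by group
    rwa [h3] at h1

theorem mem_A {s : ℕ} {φ : MulAut G} : φ ∈ S.A s ↔ ∀ x, x⁻¹ * φ x ∈ S.F s := Iff.rfl

theorem card_A_step {s : ℕ} (h1 : 1 ≤ s) (h2 : s < M) :
    Nat.card (S.A s) = 5 ^ 10 * Nat.card (S.A (s + 1)) := by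
  rw [← card_der]
  have hfin : Finite G := Nat.finite_of_card_ne_zero (by
    rw [card_G S]
    exact pow_ne_zero _ (by norm_num))
  apply card_step (S.A s) (S.A (s + 1)) (fun φ hφ x => S.F_succ_le s (hφ x))
    (fun (φ : MulAut G) (δ : {δ : L →+ L // IsDer δ}) => S.R s φ.toMonoidHom δ.1)
  · intro φ hφ
    obtain ⟨δ, hδ⟩ := S.exists_delta h1 h2 φ.toMonoidHom hφ
    exact ⟨⟨δ, S.R_isDer h1 h2 φ.toMonoidHom hφ δ hδ⟩, hδ⟩
  · rintro ⟨δ, hδ⟩
    obtain ⟨f, hf, hR⟩ := S.exists_endo h1 h2 δ hδ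
    have hb := S.endo_bij f (fun x => S.F_anti h1 (hf x))
    exact ⟨MulEquiv.ofBijective f hb, hf, hR⟩
  · intro φ hφ ψ hψ δ ε hδ hε
    have hT : ∀ x a, S.T 0 x a → S.T s ((φ x)⁻¹ * ψ x) (ε.1 a - δ.1 a) := by
      intro x a hx
      have h3 := S.diff (hδ x a hx) (hε x a hx)
      have h4 : (x⁻¹ * φ.toMonoidHom x)⁻¹ * (x⁻¹ * ψ.toMonoidHom x) = (φ x)⁻¹ * ψ x := by
        show (x⁻¹ * φ x)⁻¹ * (x⁻¹ * ψ x) = (φ x)⁻¹ * ψ x
        group
      rwa [h4] at h3
    constructor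
    · rintro rfl x
      obtain ⟨a, ha⟩ := S.top x
      have h3 := hT x a ha
      rw [sub_self] at h3
      have h4 := S.F_map (φ⁻¹ : MulAut G).toMonoidHom (s + 1) (S.mem_succ_iff.2 h3)
      have h5 : (φ⁻¹ : MulAut G).toMonoidHom ((φ x)⁻¹ * ψ x) = x⁻¹ * (φ⁻¹ * ψ) x := by
        show (φ⁻¹ : MulAut G) ((φ x)⁻¹ * ψ x) = x⁻¹ * (φ⁻¹ * ψ) x
        rw [map_mul, map_inv, MulAut.mul_apply]
        congr 2
        exact MulEquiv.symm_apply_apply φ x
      rwa [h5] at h4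
    · intro hK
      apply Subtype.ext
      refine AddMonoidHom.ext (fun a => ?_)
      obtain ⟨x, hx⟩ := S.ex 0 a
      have h3 := S.F_map φ.toMonoidHom (s + 1) (hK x)
      have h5 : φ.toMonoidHom (x⁻¹ * (φ⁻¹ * ψ) x) = (φ x)⁻¹ * ψ x := by
        show φ (x⁻¹ * (φ⁻¹ * ψ) x) = (φ x)⁻¹ * ψ x
        rw [map_mul, map_inv, MulAut.mul_apply]
        congr 1
        exact MulEquiv.apply_symm_apply φ (ψ x)
      rw [h5] at h3
      have h6 := S.uniq h2 (hT x a hx) (S.zero_of_mem_succ h3)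
      exact (sub_eq_zero.1 h6).symm
end

section
theorem card_A_last_cent {x : G} (hx : x ∈ S.F M) (y : G) : x * y = y * x := by
  have h := S.comm_mem_succ y hx
  rw [S.F_last, Subgroup.mem_bot] at h
  have h2 : x * y = (x * y * x⁻¹ * y⁻¹) * (y * x) := by group
  rw [h2, h, one_mul]

theorem card_A_last_eq {w w' : G} {c c' : L} (h : S.T M w c) (h' : S.T M w' c')
    (hc : (QuotientAddGroup.mk c : L ⧸ W) = QuotientAddGroup.mk c') : w = w' := by
  have h1 := S.diff h h'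
  have h2 : c' - c ∈ W := by
    rw [QuotientAddGroup.eq] at hc
    rwa [neg_add_eq_sub] at hc
  exact inv_mul_eq_one.1 (S.upW h1 h2)

theorem card_A_last_cls {w : G} {c c' : L} (h : S.T M w c) (h' : S.T M w c') :
    (QuotientAddGroup.mk c : L ⧸ W) = QuotientAddGroup.mk c' := by
  rw [QuotientAddGroup.eq, neg_add_eq_sub]
  exact S.uniqW h h'

theorem card_A_last_kmul {φ : MulAut G} (hφ : ∀ x, x⁻¹ * φ x ∈ S.F M) (x y : G) :
    (x * y)⁻¹ * φ (x * y) = (x⁻¹ * φ x) * (y⁻¹ * φ y) := by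
  rw [map_mul, mul_inv_rev]
  have h := S.card_A_last_cent (hφ x) y⁻¹
  calc y⁻¹ * x⁻¹ * (φ x * φ y) = y⁻¹ * (x⁻¹ * φ x) * φ y := by group
    _ = (x⁻¹ * φ x) * y⁻¹ * φ y := by rw [h]
    _ = _ := by group

theorem card_A_last_tot {φ : MulAut G} (hφ : ∀ x, x⁻¹ * φ x ∈ S.F M) :
    ∃ g : L →+ L ⧸ W, ∀ x a, S.T 0 x a →
      ∃ c, S.T M (x⁻¹ * φ x) c ∧ (QuotientAddGroup.mk c : L ⧸ W) = g a := by
  choose X hX using S.ex 0
  choose C hC using fun a => hφ (X a)
  have hR : ∀ x a, S.T 0 x a → S.T M (x⁻¹ * φ x) (C a) := by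
    intro x a hx
    have h1 : S.T 0 ((X a)⁻¹ * x) 0 := by
      have := S.diff (hX a) hx
      rwa [sub_self] at this
    have h2 : (X a)⁻¹ * x ∈ S.F 1 := S.up h1
    have h3 := S.L1 φ.toMonoidHom (s := M) hφ 1 h2
    rw [Nat.add_comm 1 M, S.F_last, Subgroup.mem_bot] at h3
    have h4 := S.card_A_last_kmul hφ (X a) ((X a)⁻¹ * x)
    have h5 : X a * ((X a)⁻¹ * x) = x := by group
    have h6 : ((X a)⁻¹ * x)⁻¹ * φ ((X a)⁻¹ * x) = 1 := h3
    rw [h5, h6, mul_one] at h4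
    rw [h4]
    exact hC a
  refine ⟨AddMonoidHom.mk' (fun a => (QuotientAddGroup.mk (C a) : L ⧸ W)) ?_, ?_⟩
  · intro a b
    have h1 := hR _ _ (S.mul (hX a) (hX b))
    rw [S.card_A_last_kmul hφ] at h1
    have h2 := S.mul (hC a) (hC b)
    rw [← QuotientAddGroup.mk_add]
    exact S.card_A_last_cls h1 h2
  · intro x a hx
    exact ⟨C a, hR x a hx, rfl⟩

theorem card_A_last_sur (hM : 1 ≤ M) (g : L →+ L ⧸ W) :
    ∃ φ ∈ S.A M, ∀ x a, S.T 0 x a →
      ∃ c, S.T M (x⁻¹ * φ x) c ∧ (QuotientAddGroup.mk c : L ⧸ W) = g a := by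
  have : Finite G := by
    apply Nat.finite_of_card_ne_zero
    rw [S.card_G]
    positivity
  choose a ha using S.top
  choose c hc using fun b => QuotientAddGroup.mk_surjective (g b)
  choose w hw using S.ex M
  have hun : ∀ {x b}, S.T 0 x b → b = a x := fun h => S.uniq hM h (ha _)
  have hk : ∀ x, S.T M (w (c (a x))) (c (a x)) := fun x => hw _
  have hkF : ∀ x, w (c (a x)) ∈ S.F M := fun x => S.mem_of (hk x)
  have hkm : ∀ x y, w (c (a (x * y))) = w (c (a x)) * w (c (a y)) := by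
    intro x y
    refine S.card_A_last_eq (hk (x * y)) (S.mul (hk x) (hk y)) ?_
    rw [QuotientAddGroup.mk_add, hc, hc, hc, ← map_add, hun (S.mul (ha x) (ha y))]
  let f : G →* G := MonoidHom.mk' (fun x => x * w (c (a x))) (by
    intro x y
    rw [hkm]
    calc x * y * (w (c (a x)) * w (c (a y))) = x * (y * w (c (a x))) * w (c (a y)) := by group
      _ = x * (w (c (a x)) * y) * w (c (a y)) := by rw [S.card_A_last_cent (hkF x) y]
      _ = _ := by group)
  have hf : ∀ x, x⁻¹ * f x = w (c (a x)) := by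
    intro x
    change x⁻¹ * (x * w (c (a x))) = _
    group
  have hb : Function.Bijective f := S.endo_bij f (fun x => by
    rw [hf]; exact S.F_anti hM (hkF x))
  refine ⟨MulEquiv.ofBijective f hb, fun x => ?_, fun x b hx => ?_⟩
  · change x⁻¹ * f x ∈ S.F M
    rw [hf]; exact hkF x
  · refine ⟨c (a x), ?_, ?_⟩
    · change S.T M (x⁻¹ * f x) _
      rw [hf]; exact hk x
    · rw [hc, hun hx]

theorem card_A_last (hM : 1 ≤ M) : Nat.card (S.A M) = 5 ^ 99 := by
  have h := card_step (S.A M) (⊥ : Subgroup (MulAut G)) bot_le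
    (fun (φ : MulAut G) (g : L →+ L ⧸ W) => ∀ x a, S.T 0 x a →
      ∃ c, S.T M (x⁻¹ * φ x) c ∧ (QuotientAddGroup.mk c : L ⧸ W) = g a)
    (fun φ hφ => S.card_A_last_tot hφ) (fun g => S.card_A_last_sur hM g) ?_
  · rw [h, card_hom_LW, Subgroup.card_bot, mul_one]
  · intro φ _ ψ _ g g' hg hg'
    rw [Subgroup.mem_bot, inv_mul_eq_one]
    constructor
    · rintro rfl
      ext x
      obtain ⟨a, ha⟩ := S.top x
      obtain ⟨c, hc, h1⟩ := hg x a ha
      obtain ⟨c', hc', h2⟩ := hg' x a ha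
      exact mul_left_cancel (S.card_A_last_eq hc hc' (h1.trans h2.symm))
    · rintro rfl
      refine DFunLike.ext _ _ fun a => ?_
      obtain ⟨x, hx⟩ := S.ex 0 a
      obtain ⟨c, hc, h1⟩ := hg x a hx
      obtain ⟨c', hc', h2⟩ := hg' x a hx
      rw [← h1, ← h2]
      exact S.card_A_last_cls hc hc'
end

theorem card_Aut (S : Sym M G) (hM : 2 ≤ M) : Nat.card (MulAut G) = 5 ^ (10 * (M - 1) + 99) := by
  have key : ∀ k, k ≤ M - 1 → Nat.card (S.A (M - k)) = 5 ^ (10 * k + 99) := by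
    intro k
    induction k with
    | zero => intro _; simpa using S.card_A_last (by omega)
    | succ k ih =>
      intro hk
      have h1 := S.card_A_step (s := M - (k + 1)) (by omega) (by omega)
      have h2 : M - (k + 1) + 1 = M - k := by omega
      rw [h1, h2, ih (by omega), ← pow_add]
      congr 1
      ring
  have h3 := key (M - 1) le_rfl
  have h4 : M - (M - 1) = 1 := by omega
  rw [h4] at h3
  have h5 : S.A 1 = ⊤ := by
    rw [eq_top_iff]
    intro φ _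
    exact fun x => S.aut_mem_one hM φ x
  rw [h5, Subgroup.card_top] at h3
  exact h3

end Sym

end Pool.Agent.Helper199.AutG
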