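import Mathlib
set_option autoImplicit false
namespace Pool.Agent.Helper199.AutG

section ring
variable {R : Type*} [Ring R]

/-- g is congruent to 1 + 5^(i+1) x modulo 5^(i+2) -/
def Rel (i : ℕ) (g x : R) : Prop := ∃ ε : R, g = 1 + ((5 : ℤ) ^ (i + 1)) • (x + (5 : ℤ) • ε)

theorem rel_mul {i : ℕ} {g h x y : R} (hg : Rel i g x) (hh : Rel i h y) :
    Rel i (g * h) (x + y) := by
  obtain ⟨ε, rfl⟩ := hg
  obtain ⟨η, rfl⟩ := hh
  generalize hX : x + (5 : ℤ) • ε = X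
  generalize hY : y + (5 : ℤ) • η = Y
  refine ⟨ε + η + ((5 : ℤ) ^ i) • (X * Y), ?_⟩
  have e1 : (x + y + (5 : ℤ) • (ε + η + ((5 : ℤ) ^ i) • (X * Y))) =
      X + Y + (5 : ℤ) • (((5 : ℤ) ^ i) • (X * Y)) := by
    rw [← hX, ← hY]; module
  rw [e1]
  simp only [mul_add, add_mul, mul_smul_comm, smul_mul_assoc, smul_smul, smul_add, one_mul,
    mul_one]
  module

theorem rel_inv {i : ℕ} {g g' x : R} (hg : Rel i g x) (h1 : g * g' = 1) (h2 : g' * g = 1) :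
    Rel i g' (-x) := by
  obtain ⟨ε, rfl⟩ := hg
  generalize hX : x + (5 : ℤ) • ε = X at h1 h2
  have h3 : g' = 1 - ((5 : ℤ) ^ (i + 1)) • (X * g') := by
    rw [add_mul, one_mul, smul_mul_assoc] at h1
    exact eq_sub_of_add_eq h1
  refine ⟨-ε + ((5 : ℤ) ^ i) • (X * (X * g')), ?_⟩
  have e1 : (-x + (5 : ℤ) • (-ε + ((5 : ℤ) ^ i) • (X * (X * g')))) =
      -X + (5 : ℤ) • (((5 : ℤ) ^ i) • (X * (X * g'))) := by
    rw [← hX]; module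
  rw [e1]
  have h4 : g' = 1 - ((5 : ℤ) ^ (i + 1)) • (X * (1 - ((5 : ℤ) ^ (i + 1)) • (X * g'))) := by
    rw [← h3]; exact h3
  refine h4.trans ?_
  simp only [mul_sub, mul_smul_comm, smul_smul, smul_add, mul_one, smul_sub]
  module

theorem rel_comm_X {x y ε η : R} :
    (x + (5 : ℤ) • ε) * (y + (5 : ℤ) • η) - (y + (5 : ℤ) • η) * (x + (5 : ℤ) • ε) =
      x * y - y * x + (5 : ℤ) • (ε * y + x * η + (5 : ℤ) • (ε * η) - y * ε - η * x -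
        (5 : ℤ) • (η * ε)) := by
  simp only [mul_add, add_mul, mul_smul_comm, smul_mul_assoc, smul_smul]
  module

theorem rel_comm {i j : ℕ} {g h g' h' x y : R} (hg : Rel i g x) (hh : Rel j h y)
    (h1 : g * g' = 1) (h2 : g' * g = 1) (h3 : h * h' = 1) (h4 : h' * h = 1) :
    Rel (i + j + 1) (g * h * g' * h') (x * y - y * x) := by
  obtain ⟨ε', hg'⟩ := rel_inv hg h1 h2
  obtain ⟨η', hh'⟩ := rel_inv hh h3 h4
  obtain ⟨ε, hg⟩ := hg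
  obtain ⟨η, hh⟩ := hh
  have key := rel_comm_X (x := x) (y := y) (ε := ε) (η := η)
  generalize x + (5 : ℤ) • ε = X at hg key
  generalize y + (5 : ℤ) • η = Y at hh key
  generalize -x + (5 : ℤ) • ε' = X' at hg'
  generalize -y + (5 : ℤ) • η' = Y' at hh'
  generalize ε * y + x * η + (5 : ℤ) • (ε * η) - y * ε - η * x - (5 : ℤ) • (η * ε) = Z at key
  have h5 : g * h = h * g + ((5 : ℤ) ^ (i + 1) * (5 : ℤ) ^ (j + 1)) • (X * Y - Y * X) := by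
    rw [hg, hh]
    simp only [mul_add, add_mul, mul_smul_comm, smul_mul_assoc, smul_smul, one_mul, mul_one,
      smul_sub]
    module
  have h6 : g' * h' = 1 + (5 : ℤ) • (((5 : ℤ) ^ i) • X' + ((5 : ℤ) ^ j) • Y' +
      ((5 : ℤ) ^ i * (5 : ℤ) ^ (j + 1)) • (X' * Y')) := by
    rw [hg', hh']
    simp only [mul_add, add_mul, mul_smul_comm, smul_mul_assoc, smul_smul, one_mul, mul_one,
      smul_add]
    module
  generalize ((5 : ℤ) ^ i) • X' + ((5 : ℤ) ^ j) • Y' +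
      ((5 : ℤ) ^ i * (5 : ℤ) ^ (j + 1)) • (X' * Y') = κ at h6
  have h7 : g * h * g' * h' = 1 + ((5 : ℤ) ^ (i + 1) * (5 : ℤ) ^ (j + 1)) •
      ((X * Y - Y * X) * (g' * h')) := by
    rw [h5, add_mul, add_mul, mul_assoc h g g', h1, mul_one, h3, smul_mul_assoc, smul_mul_assoc,
      mul_assoc]
  refine ⟨Z + (X * Y - Y * X) * κ, ?_⟩
  rw [h7, h6, mul_add, mul_one, mul_smul_comm]
  have e1 : x * y - y * x + (5 : ℤ) • (Z + (X * Y - Y * X) * κ) =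
      (X * Y - Y * X) + (5 : ℤ) • ((X * Y - Y * X) * κ) := by
    conv_rhs => arg 1; rw [key]
    module
  rw [e1]
  congr 2
  ring

theorem rel_pow {i : ℕ} {g x : R} (hg : Rel i g x) : Rel (i + 1) (g ^ 5) x := by
  obtain ⟨ε, rfl⟩ := hg
  generalize hX : x + (5 : ℤ) • ε = X
  refine ⟨ε + (2 * (5 : ℤ) ^ i) • X ^ 2 + (2 * (5 : ℤ) ^ (2 * i + 1)) • X ^ 3 +
    ((5 : ℤ) ^ (3 * i + 2)) • X ^ 4 + ((5 : ℤ) ^ (4 * i + 2)) • X ^ 5, ?_⟩
  have e1 : (x + (5 : ℤ) • (ε + (2 * (5 : ℤ) ^ i) • X ^ 2 + (2 * (5 : ℤ) ^ (2 * i + 1)) • X ^ 3 +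
    ((5 : ℤ) ^ (3 * i + 2)) • X ^ 4 + ((5 : ℤ) ^ (4 * i + 2)) • X ^ 5)) =
      X + (5 : ℤ) • ((2 * (5 : ℤ) ^ i) • X ^ 2 + (2 * (5 : ℤ) ^ (2 * i + 1)) • X ^ 3 +
    ((5 : ℤ) ^ (3 * i + 2)) • X ^ 4 + ((5 : ℤ) ^ (4 * i + 2)) • X ^ 5) := by
    rw [← hX]; module
  rw [e1]
  have e2 : ∀ A : R, (1 + A) ^ 5 = 1 + (5 : ℤ) • A + (10 : ℤ) • A ^ 2 + (10 : ℤ) • A ^ 3 +
      (5 : ℤ) • A ^ 4 + A ^ 5 := by
    intro A
    noncomm_ring
  rw [e2]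
  simp only [smul_pow, smul_add, smul_smul]
  module

end ring

end Pool.Agent.Helper199.AutG
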