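import Pool.Agent.Helper199.AutG.Sym
import Pool.Agent.Helper199.AutG.Ring
set_option autoImplicit false
namespace Pool.Agent.Helper199.AutG

/-- the integral group, a semidirect product of SL2 with a class two nilpotent group -/
@[ext] structure H where
  a : ℤ
  b : ℤ
  c : ℤ
  d : ℤ
  x0 : ℤ
  x1 : ℤ
  x2 : ℤ
  y0 : ℤ
  y1 : ℤ
  y2 : ℤ
  u0 : ℤ
  u1 : ℤ
  det : a * d - b * c = 1

namespace H

instance : One H := ⟨⟨1, 0, 0, 1, 0, 0, 0, 0, 0, 0, 0, 0, by norm_num⟩⟩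

instance : Mul H := ⟨fun g h =>
  { a := g.a * h.a + g.b * h.c
    b := g.a * h.b + g.b * h.d
    c := g.c * h.a + g.d * h.c
    d := g.c * h.b + g.d * h.d
    x0 := g.x0 + (g.a * h.x0 + g.b * h.y0)
    x1 := g.x1 + (g.a * h.x1 + g.b * h.y1)
    x2 := g.x2 + (g.a * h.x2 + g.b * h.y2)
    y0 := g.y0 + (g.c * h.x0 + g.d * h.y0)
    y1 := g.y1 + (g.c * h.x1 + g.d * h.y1)
    y2 := g.y2 + (g.c * h.x2 + g.d * h.y2)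
    u0 := g.u0 + h.u0 + ((g.x0 * (g.c * h.x0 + g.d * h.y0) - g.y0 * (g.a * h.x0 + g.b * h.y0))
      - (g.x1 * (g.c * h.x1 + g.d * h.y1) - g.y1 * (g.a * h.x1 + g.b * h.y1)))
    u1 := g.u1 + h.u1 + ((g.x1 * (g.c * h.x1 + g.d * h.y1) - g.y1 * (g.a * h.x1 + g.b * h.y1))
      - (g.x2 * (g.c * h.x2 + g.d * h.y2) - g.y2 * (g.a * h.x2 + g.b * h.y2)))
    det := by linear_combination (h.a * h.d - h.b * h.c) * g.det + h.det }⟩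

instance : Inv H := ⟨fun g =>
  { a := g.d
    b := -g.b
    c := -g.c
    d := g.a
    x0 := -(g.d * g.x0 - g.b * g.y0)
    x1 := -(g.d * g.x1 - g.b * g.y1)
    x2 := -(g.d * g.x2 - g.b * g.y2)
    y0 := -(g.a * g.y0 - g.c * g.x0)
    y1 := -(g.a * g.y1 - g.c * g.x1)
    y2 := -(g.a * g.y2 - g.c * g.x2)
    u0 := -g.u0
    u1 := -g.u1
    det := by linear_combination g.det }⟩

@[simp] theorem mul_a (g h : H) : (g * h).a = g.a * h.a + g.b * h.c := rfl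
@[simp] theorem mul_b (g h : H) : (g * h).b = g.a * h.b + g.b * h.d := rfl
@[simp] theorem mul_c (g h : H) : (g * h).c = g.c * h.a + g.d * h.c := rfl
@[simp] theorem mul_d (g h : H) : (g * h).d = g.c * h.b + g.d * h.d := rfl
@[simp] theorem mul_x0 (g h : H) : (g * h).x0 = g.x0 + (g.a * h.x0 + g.b * h.y0) := rfl
@[simp] theorem mul_x1 (g h : H) : (g * h).x1 = g.x1 + (g.a * h.x1 + g.b * h.y1) := rfl
@[simp] theorem mul_x2 (g h : H) : (g * h).x2 = g.x2 + (g.a * h.x2 + g.b * h.y2) := rfl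
@[simp] theorem mul_y0 (g h : H) : (g * h).y0 = g.y0 + (g.c * h.x0 + g.d * h.y0) := rfl
@[simp] theorem mul_y1 (g h : H) : (g * h).y1 = g.y1 + (g.c * h.x1 + g.d * h.y1) := rfl
@[simp] theorem mul_y2 (g h : H) : (g * h).y2 = g.y2 + (g.c * h.x2 + g.d * h.y2) := rfl
@[simp] theorem mul_u0 (g h : H) : (g * h).u0 = g.u0 + h.u0 +
    ((g.x0 * (g.c * h.x0 + g.d * h.y0) - g.y0 * (g.a * h.x0 + g.b * h.y0))
      - (g.x1 * (g.c * h.x1 + g.d * h.y1) - g.y1 * (g.a * h.x1 + g.b * h.y1))) := rfl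
@[simp] theorem mul_u1 (g h : H) : (g * h).u1 = g.u1 + h.u1 +
    ((g.x1 * (g.c * h.x1 + g.d * h.y1) - g.y1 * (g.a * h.x1 + g.b * h.y1))
      - (g.x2 * (g.c * h.x2 + g.d * h.y2) - g.y2 * (g.a * h.x2 + g.b * h.y2))) := rfl

@[simp] theorem one_a : (1 : H).a = 1 := rfl
@[simp] theorem one_b : (1 : H).b = 0 := rfl
@[simp] theorem one_c : (1 : H).c = 0 := rfl
@[simp] theorem one_d : (1 : H).d = 1 := rfl
@[simp] theorem one_x0 : (1 : H).x0 = 0 := rfl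
@[simp] theorem one_x1 : (1 : H).x1 = 0 := rfl
@[simp] theorem one_x2 : (1 : H).x2 = 0 := rfl
@[simp] theorem one_y0 : (1 : H).y0 = 0 := rfl
@[simp] theorem one_y1 : (1 : H).y1 = 0 := rfl
@[simp] theorem one_y2 : (1 : H).y2 = 0 := rfl
@[simp] theorem one_u0 : (1 : H).u0 = 0 := rfl
@[simp] theorem one_u1 : (1 : H).u1 = 0 := rfl

@[simp] theorem inv_a (g : H) : (g⁻¹).a = g.d := rfl
@[simp] theorem inv_b (g : H) : (g⁻¹).b = -g.b := rfl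
@[simp] theorem inv_c (g : H) : (g⁻¹).c = -g.c := rfl
@[simp] theorem inv_d (g : H) : (g⁻¹).d = g.a := rfl
@[simp] theorem inv_x0 (g : H) : (g⁻¹).x0 = -(g.d * g.x0 - g.b * g.y0) := rfl
@[simp] theorem inv_x1 (g : H) : (g⁻¹).x1 = -(g.d * g.x1 - g.b * g.y1) := rfl
@[simp] theorem inv_x2 (g : H) : (g⁻¹).x2 = -(g.d * g.x2 - g.b * g.y2) := rfl
@[simp] theorem inv_y0 (g : H) : (g⁻¹).y0 = -(g.a * g.y0 - g.c * g.x0) := rfl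
@[simp] theorem inv_y1 (g : H) : (g⁻¹).y1 = -(g.a * g.y1 - g.c * g.x1) := rfl
@[simp] theorem inv_y2 (g : H) : (g⁻¹).y2 = -(g.a * g.y2 - g.c * g.x2) := rfl
@[simp] theorem inv_u0 (g : H) : (g⁻¹).u0 = -g.u0 := rfl
@[simp] theorem inv_u1 (g : H) : (g⁻¹).u1 = -g.u1 := rfl

theorem mul_assoc_aux (f g h : H) : f * g * h = f * (g * h) := by
  apply H.ext
  · simp only [mul_a, mul_b, mul_c, mul_d]; ring
  · simp only [mul_a, mul_b, mul_c, mul_d]; ring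
  · simp only [mul_a, mul_b, mul_c, mul_d]; ring
  · simp only [mul_a, mul_b, mul_c, mul_d]; ring
  · simp only [mul_a, mul_b, mul_c, mul_d, mul_x0, mul_y0]; ring
  · simp only [mul_a, mul_b, mul_c, mul_d, mul_x1, mul_y1]; ring
  · simp only [mul_a, mul_b, mul_c, mul_d, mul_x2, mul_y2]; ring
  · simp only [mul_a, mul_b, mul_c, mul_d, mul_x0, mul_y0]; ring
  · simp only [mul_a, mul_b, mul_c, mul_d, mul_x1, mul_y1]; ring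
  · simp only [mul_a, mul_b, mul_c, mul_d, mul_x2, mul_y2]; ring
  · simp only [mul_a, mul_b, mul_c, mul_d, mul_x0, mul_y0, mul_x1, mul_y1, mul_u0]
    linear_combination ((g.x0 * (g.c * h.x0 + g.d * h.y0) - g.y0 * (g.a * h.x0 + g.b * h.y0)) -
      (g.x1 * (g.c * h.x1 + g.d * h.y1) - g.y1 * (g.a * h.x1 + g.b * h.y1))) * f.det
  · simp only [mul_a, mul_b, mul_c, mul_d, mul_x2, mul_y2, mul_x1, mul_y1, mul_u1]
    linear_combination ((g.x1 * (g.c * h.x1 + g.d * h.y1) - g.y1 * (g.a * h.x1 + g.b * h.y1)) -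
      (g.x2 * (g.c * h.x2 + g.d * h.y2) - g.y2 * (g.a * h.x2 + g.b * h.y2))) * f.det

theorem one_mul_aux (g : H) : 1 * g = g := by
  apply H.ext <;> simp

theorem inv_mul_aux (g : H) : g⁻¹ * g = 1 := by
  apply H.ext
  · simp only [mul_a, inv_a, inv_b, one_a]; linear_combination g.det
  · simp only [mul_b, inv_a, inv_b, one_b]; ring
  · simp only [mul_c, inv_c, inv_d, one_c]; ring
  · simp only [mul_d, inv_c, inv_d, one_d]; linear_combination g.det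
  · simp only [mul_x0, inv_a, inv_b, inv_x0, one_x0]; ring
  · simp only [mul_x1, inv_a, inv_b, inv_x1, one_x1]; ring
  · simp only [mul_x2, inv_a, inv_b, inv_x2, one_x2]; ring
  · simp only [mul_y0, inv_c, inv_d, inv_y0, one_y0]; ring
  · simp only [mul_y1, inv_c, inv_d, inv_y1, one_y1]; ring
  · simp only [mul_y2, inv_c, inv_d, inv_y2, one_y2]; ring
  · simp only [mul_u0, inv_a, inv_b, inv_c, inv_d, inv_x0, inv_y0, inv_x1, inv_y1, inv_u0, one_u0]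
    ring
  · simp only [mul_u1, inv_a, inv_b, inv_c, inv_d, inv_x2, inv_y2, inv_x1, inv_y1, inv_u1, one_u1]
    ring

instance instGroupH : Group H := Group.ofLeftAxioms
  (by
    exact mul_assoc_aux)
  (by
    exact one_mul_aux)
  (by
    exact inv_mul_aux)

/-- the eleven coordinates of a group element -/
def coord (g : H) : Fin 11 → ℤ :=
  ![g.b, g.c, g.a - 1, g.x0, g.x1, g.x2, g.y0, g.y1, g.y2, g.u0, g.u1]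

/-- matrix of a group element -/
def rhoM (g : H) : Matrix (Fin 9) (Fin 9) ℤ :=
  !![1, 0, g.x0 * g.c - g.y0 * g.a, g.x0 * g.d - g.y0 * g.b,
      -(g.x1 * g.c - g.y1 * g.a), -(g.x1 * g.d - g.y1 * g.b), 0, 0, g.u0;
    0, 1, 0, 0, g.x1 * g.c - g.y1 * g.a, g.x1 * g.d - g.y1 * g.b,
      -(g.x2 * g.c - g.y2 * g.a), -(g.x2 * g.d - g.y2 * g.b), g.u1;
    0, 0, g.a, g.b, 0, 0, 0, 0, g.x0;
    0, 0, g.c, g.d, 0, 0, 0, 0, g.y0;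
    0, 0, 0, 0, g.a, g.b, 0, 0, g.x1;
    0, 0, 0, 0, g.c, g.d, 0, 0, g.y1;
    0, 0, 0, 0, 0, 0, g.a, g.b, g.x2;
    0, 0, 0, 0, 0, 0, g.c, g.d, g.y2;
    0, 0, 0, 0, 0, 0, 0, 0, 1]

theorem rho_mul (g h : H) : rhoM (g * h) = rhoM g * rhoM h := by
  have hg := g.det
  ext i j
  fin_cases i <;> fin_cases j <;>
    simp [rhoM, Matrix.mul_apply, Fin.sum_univ_succ] <;>
    first
    | ring1
    | linear_combination (h.x0 * h.c - h.y0 * h.a) * hg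
    | linear_combination (h.x0 * h.d - h.y0 * h.b) * hg
    | linear_combination (-(h.x1 * h.c - h.y1 * h.a)) * hg
    | linear_combination (-(h.x1 * h.d - h.y1 * h.b)) * hg
    | linear_combination (h.x1 * h.c - h.y1 * h.a) * hg
    | linear_combination (h.x1 * h.d - h.y1 * h.b) * hg
    | linear_combination (-(h.x2 * h.c - h.y2 * h.a)) * hg
    | linear_combination (-(h.x2 * h.d - h.y2 * h.b)) * hg

theorem rho_one : rhoM 1 = 1 := by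
  ext i j
  fin_cases i <;> fin_cases j <;> rfl

/-- matrix of a Lie algebra element -/
def Lam (m : Fin 11 → ℤ) : Matrix (Fin 9) (Fin 9) ℤ :=
  !![0, 0, -m 6, m 3, m 7, -m 4, 0, 0, m 9;
    0, 0, 0, 0, -m 7, m 4, m 8, -m 5, m 10;
    0, 0, m 2, m 0, 0, 0, 0, 0, m 3;
    0, 0, m 1, -m 2, 0, 0, 0, 0, m 6;
    0, 0, 0, 0, m 2, m 0, 0, 0, m 4;
    0, 0, 0, 0, m 1, -m 2, 0, 0, m 7;
    0, 0, 0, 0, 0, 0, m 2, m 0, m 5;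
    0, 0, 0, 0, 0, 0, m 1, -m 2, m 8;
    0, 0, 0, 0, 0, 0, 0, 0, 0]

theorem sum9 (f : Fin 9 → ℤ) :
    ∑ k, f k = f 0 + f 1 + f 2 + f 3 + f 4 + f 5 + f 6 + f 7 + f 8 := by
  rw [Fin.sum_univ_castSucc, Fin.sum_univ_eight]
  rfl

theorem Lam_br (m n : Fin 11 → ℤ) : Lam m * Lam n - Lam n * Lam m = Lam (br m n) := by
  refine Matrix.ext fun i j => ?_
  rw [Matrix.sub_apply, Matrix.mul_apply, Matrix.mul_apply, sum9, sum9]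
  fin_cases i <;> fin_cases j
  · show ((0 : ℤ) * 0 + 0 * 0 + (-m 6) * 0 + (m 3) * 0 + (m 7) * 0 + (-m 4) * 0 + 0 * 0 + 0 * 0 + (m 9) * 0) -
      (0 * 0 + 0 * 0 + (-n 6) * 0 + (n 3) * 0 + (n 7) * 0 + (-n 4) * 0 + 0 * 0 + 0 * 0 + (n 9) * 0) = 0
    ring1
  · show ((0 : ℤ) * 0 + 0 * 0 + (-m 6) * 0 + (m 3) * 0 + (m 7) * 0 + (-m 4) * 0 + 0 * 0 + 0 * 0 + (m 9) * 0) -
      (0 * 0 + 0 * 0 + (-n 6) * 0 + (n 3) * 0 + (n 7) * 0 + (-n 4) * 0 + 0 * 0 + 0 * 0 + (n 9) * 0) = 0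
    ring1
  · show (0 * (-n 6) + (0 : ℤ) * 0 + (-m 6) * (n 2) + (m 3) * (n 1) + (m 7) * 0 + (-m 4) * 0 + 0 * 0 + 0 * 0 + (m 9) * 0) -
      (0 * (-m 6) + 0 * 0 + (-n 6) * (m 2) + (n 3) * (m 1) + (n 7) * 0 + (-n 4) * 0 + 0 * 0 + 0 * 0 + (n 9) * 0) = -(m 1 * n 3 - m 2 * n 6 - n 1 * m 3 + n 2 * m 6)
    ring1
  · show (0 * (n 3) + (0 : ℤ) * 0 + (-m 6) * (n 0) + (m 3) * (-n 2) + (m 7) * 0 + (-m 4) * 0 + 0 * 0 + 0 * 0 + (m 9) * 0) -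
      (0 * (m 3) + 0 * 0 + (-n 6) * (m 0) + (n 3) * (-m 2) + (n 7) * 0 + (-n 4) * 0 + 0 * 0 + 0 * 0 + (n 9) * 0) = (m 0 * n 6 + m 2 * n 3 - n 0 * m 6 - n 2 * m 3)
    ring1
  · show (0 * (n 7) + 0 * (-n 7) + (-m 6) * 0 + (m 3) * 0 + (m 7) * (n 2) + (-m 4) * (n 1) + (0 : ℤ) * 0 + 0 * 0 + (m 9) * 0) -
      (0 * (m 7) + 0 * (-m 7) + (-n 6) * 0 + (n 3) * 0 + (n 7) * (m 2) + (-n 4) * (m 1) + 0 * 0 + 0 * 0 + (n 9) * 0) = (m 1 * n 4 - m 2 * n 7 - n 1 * m 4 + n 2 * m 7)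
    ring1
  · show (0 * (-n 4) + 0 * (n 4) + (-m 6) * 0 + (m 3) * 0 + (m 7) * (n 0) + (-m 4) * (-n 2) + (0 : ℤ) * 0 + 0 * 0 + (m 9) * 0) -
      (0 * (-m 4) + 0 * (m 4) + (-n 6) * 0 + (n 3) * 0 + (n 7) * (m 0) + (-n 4) * (-m 2) + 0 * 0 + 0 * 0 + (n 9) * 0) = -(m 0 * n 7 + m 2 * n 4 - n 0 * m 7 - n 2 * m 4)
    ring1
  · show ((0 : ℤ) * 0 + 0 * (n 8) + (-m 6) * 0 + (m 3) * 0 + (m 7) * 0 + (-m 4) * 0 + 0 * (n 2) + 0 * (n 1) + (m 9) * 0) -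
      (0 * 0 + 0 * (m 8) + (-n 6) * 0 + (n 3) * 0 + (n 7) * 0 + (-n 4) * 0 + 0 * (m 2) + 0 * (m 1) + (n 9) * 0) = 0
    ring1
  · show ((0 : ℤ) * 0 + 0 * (-n 5) + (-m 6) * 0 + (m 3) * 0 + (m 7) * 0 + (-m 4) * 0 + 0 * (n 0) + 0 * (-n 2) + (m 9) * 0) -
      (0 * 0 + 0 * (-m 5) + (-n 6) * 0 + (n 3) * 0 + (n 7) * 0 + (-n 4) * 0 + 0 * (m 0) + 0 * (-m 2) + (n 9) * 0) = 0
    ring1
  · show (0 * (n 9) + 0 * (n 10) + (-m 6) * (n 3) + (m 3) * (n 6) + (m 7) * (n 4) + (-m 4) * (n 7) + 0 * (n 5) + 0 * (n 8) + (m 9) * 0) -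
      (0 * (m 9) + 0 * (m 10) + (-n 6) * (m 3) + (n 3) * (m 6) + (n 7) * (m 4) + (-n 4) * (m 7) + 0 * (m 5) + 0 * (m 8) + (n 9) * 0) = (2 * ((m 3 * n 6 - m 6 * n 3) - (m 4 * n 7 - m 7 * n 4)))
    ring1
  · show ((0 : ℤ) * 0 + 0 * 0 + 0 * 0 + 0 * 0 + (-m 7) * 0 + (m 4) * 0 + (m 8) * 0 + (-m 5) * 0 + (m 10) * 0) -
      (0 * 0 + 0 * 0 + 0 * 0 + 0 * 0 + (-n 7) * 0 + (n 4) * 0 + (n 8) * 0 + (-n 5) * 0 + (n 10) * 0) = 0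
    ring1
  · show ((0 : ℤ) * 0 + 0 * 0 + 0 * 0 + 0 * 0 + (-m 7) * 0 + (m 4) * 0 + (m 8) * 0 + (-m 5) * 0 + (m 10) * 0) -
      (0 * 0 + 0 * 0 + 0 * 0 + 0 * 0 + (-n 7) * 0 + (n 4) * 0 + (n 8) * 0 + (-n 5) * 0 + (n 10) * 0) = 0
    ring1
  · show (0 * (-n 6) + (0 : ℤ) * 0 + 0 * (n 2) + 0 * (n 1) + (-m 7) * 0 + (m 4) * 0 + (m 8) * 0 + (-m 5) * 0 + (m 10) * 0) -
      (0 * (-m 6) + 0 * 0 + 0 * (m 2) + 0 * (m 1) + (-n 7) * 0 + (n 4) * 0 + (n 8) * 0 + (-n 5) * 0 + (n 10) * 0) = 0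
    ring1
  · show (0 * (n 3) + (0 : ℤ) * 0 + 0 * (n 0) + 0 * (-n 2) + (-m 7) * 0 + (m 4) * 0 + (m 8) * 0 + (-m 5) * 0 + (m 10) * 0) -
      (0 * (m 3) + 0 * 0 + 0 * (m 0) + 0 * (-m 2) + (-n 7) * 0 + (n 4) * 0 + (n 8) * 0 + (-n 5) * 0 + (n 10) * 0) = 0
    ring1
  · show (0 * (n 7) + 0 * (-n 7) + (0 : ℤ) * 0 + 0 * 0 + (-m 7) * (n 2) + (m 4) * (n 1) + (m 8) * 0 + (-m 5) * 0 + (m 10) * 0) -
      (0 * (m 7) + 0 * (-m 7) + 0 * 0 + 0 * 0 + (-n 7) * (m 2) + (n 4) * (m 1) + (n 8) * 0 + (-n 5) * 0 + (n 10) * 0) = -(m 1 * n 4 - m 2 * n 7 - n 1 * m 4 + n 2 * m 7)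
    ring1
  · show (0 * (-n 4) + 0 * (n 4) + (0 : ℤ) * 0 + 0 * 0 + (-m 7) * (n 0) + (m 4) * (-n 2) + (m 8) * 0 + (-m 5) * 0 + (m 10) * 0) -
      (0 * (-m 4) + 0 * (m 4) + 0 * 0 + 0 * 0 + (-n 7) * (m 0) + (n 4) * (-m 2) + (n 8) * 0 + (-n 5) * 0 + (n 10) * 0) = (m 0 * n 7 + m 2 * n 4 - n 0 * m 7 - n 2 * m 4)
    ring1
  · show ((0 : ℤ) * 0 + 0 * (n 8) + 0 * 0 + 0 * 0 + (-m 7) * 0 + (m 4) * 0 + (m 8) * (n 2) + (-m 5) * (n 1) + (m 10) * 0) -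
      (0 * 0 + 0 * (m 8) + 0 * 0 + 0 * 0 + (-n 7) * 0 + (n 4) * 0 + (n 8) * (m 2) + (-n 5) * (m 1) + (n 10) * 0) = (m 1 * n 5 - m 2 * n 8 - n 1 * m 5 + n 2 * m 8)
    ring1
  · show ((0 : ℤ) * 0 + 0 * (-n 5) + 0 * 0 + 0 * 0 + (-m 7) * 0 + (m 4) * 0 + (m 8) * (n 0) + (-m 5) * (-n 2) + (m 10) * 0) -
      (0 * 0 + 0 * (-m 5) + 0 * 0 + 0 * 0 + (-n 7) * 0 + (n 4) * 0 + (n 8) * (m 0) + (-n 5) * (-m 2) + (n 10) * 0) = -(m 0 * n 8 + m 2 * n 5 - n 0 * m 8 - n 2 * m 5)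
    ring1
  · show (0 * (n 9) + 0 * (n 10) + 0 * (n 3) + 0 * (n 6) + (-m 7) * (n 4) + (m 4) * (n 7) + (m 8) * (n 5) + (-m 5) * (n 8) + (m 10) * 0) -
      (0 * (m 9) + 0 * (m 10) + 0 * (m 3) + 0 * (m 6) + (-n 7) * (m 4) + (n 4) * (m 7) + (n 8) * (m 5) + (-n 5) * (m 8) + (n 10) * 0) = (2 * ((m 4 * n 7 - m 7 * n 4) - (m 5 * n 8 - m 8 * n 5)))
    ring1
  · show ((0 : ℤ) * 0 + 0 * 0 + (m 2) * 0 + (m 0) * 0 + 0 * 0 + 0 * 0 + 0 * 0 + 0 * 0 + (m 3) * 0) -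
      (0 * 0 + 0 * 0 + (n 2) * 0 + (n 0) * 0 + 0 * 0 + 0 * 0 + 0 * 0 + 0 * 0 + (n 3) * 0) = 0
    ring1
  · show ((0 : ℤ) * 0 + 0 * 0 + (m 2) * 0 + (m 0) * 0 + 0 * 0 + 0 * 0 + 0 * 0 + 0 * 0 + (m 3) * 0) -
      (0 * 0 + 0 * 0 + (n 2) * 0 + (n 0) * 0 + 0 * 0 + 0 * 0 + 0 * 0 + 0 * 0 + (n 3) * 0) = 0
    ring1
  · show (0 * (-n 6) + (0 : ℤ) * 0 + (m 2) * (n 2) + (m 0) * (n 1) + 0 * 0 + 0 * 0 + 0 * 0 + 0 * 0 + (m 3) * 0) -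
      (0 * (-m 6) + 0 * 0 + (n 2) * (m 2) + (n 0) * (m 1) + 0 * 0 + 0 * 0 + 0 * 0 + 0 * 0 + (n 3) * 0) = (m 0 * n 1 - m 1 * n 0)
    ring1
  · show (0 * (n 3) + (0 : ℤ) * 0 + (m 2) * (n 0) + (m 0) * (-n 2) + 0 * 0 + 0 * 0 + 0 * 0 + 0 * 0 + (m 3) * 0) -
      (0 * (m 3) + 0 * 0 + (n 2) * (m 0) + (n 0) * (-m 2) + 0 * 0 + 0 * 0 + 0 * 0 + 0 * 0 + (n 3) * 0) = (2 * (m 2 * n 0 - m 0 * n 2))
    ring1
  · show (0 * (n 7) + 0 * (-n 7) + (m 2) * 0 + (m 0) * 0 + 0 * (n 2) + 0 * (n 1) + (0 : ℤ) * 0 + 0 * 0 + (m 3) * 0) -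
      (0 * (m 7) + 0 * (-m 7) + (n 2) * 0 + (n 0) * 0 + 0 * (m 2) + 0 * (m 1) + 0 * 0 + 0 * 0 + (n 3) * 0) = 0
    ring1
  · show (0 * (-n 4) + 0 * (n 4) + (m 2) * 0 + (m 0) * 0 + 0 * (n 0) + 0 * (-n 2) + (0 : ℤ) * 0 + 0 * 0 + (m 3) * 0) -
      (0 * (-m 4) + 0 * (m 4) + (n 2) * 0 + (n 0) * 0 + 0 * (m 0) + 0 * (-m 2) + 0 * 0 + 0 * 0 + (n 3) * 0) = 0
    ring1
  · show ((0 : ℤ) * 0 + 0 * (n 8) + (m 2) * 0 + (m 0) * 0 + 0 * 0 + 0 * 0 + 0 * (n 2) + 0 * (n 1) + (m 3) * 0) -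
      (0 * 0 + 0 * (m 8) + (n 2) * 0 + (n 0) * 0 + 0 * 0 + 0 * 0 + 0 * (m 2) + 0 * (m 1) + (n 3) * 0) = 0
    ring1
  · show ((0 : ℤ) * 0 + 0 * (-n 5) + (m 2) * 0 + (m 0) * 0 + 0 * 0 + 0 * 0 + 0 * (n 0) + 0 * (-n 2) + (m 3) * 0) -
      (0 * 0 + 0 * (-m 5) + (n 2) * 0 + (n 0) * 0 + 0 * 0 + 0 * 0 + 0 * (m 0) + 0 * (-m 2) + (n 3) * 0) = 0
    ring1
  · show (0 * (n 9) + 0 * (n 10) + (m 2) * (n 3) + (m 0) * (n 6) + 0 * (n 4) + 0 * (n 7) + 0 * (n 5) + 0 * (n 8) + (m 3) * 0) -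
      (0 * (m 9) + 0 * (m 10) + (n 2) * (m 3) + (n 0) * (m 6) + 0 * (m 4) + 0 * (m 7) + 0 * (m 5) + 0 * (m 8) + (n 3) * 0) = (m 0 * n 6 + m 2 * n 3 - n 0 * m 6 - n 2 * m 3)
    ring1
  · show ((0 : ℤ) * 0 + 0 * 0 + (m 1) * 0 + (-m 2) * 0 + 0 * 0 + 0 * 0 + 0 * 0 + 0 * 0 + (m 6) * 0) -
      (0 * 0 + 0 * 0 + (n 1) * 0 + (-n 2) * 0 + 0 * 0 + 0 * 0 + 0 * 0 + 0 * 0 + (n 6) * 0) = 0
    ring1
  · show ((0 : ℤ) * 0 + 0 * 0 + (m 1) * 0 + (-m 2) * 0 + 0 * 0 + 0 * 0 + 0 * 0 + 0 * 0 + (m 6) * 0) -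
      (0 * 0 + 0 * 0 + (n 1) * 0 + (-n 2) * 0 + 0 * 0 + 0 * 0 + 0 * 0 + 0 * 0 + (n 6) * 0) = 0
    ring1
  · show (0 * (-n 6) + (0 : ℤ) * 0 + (m 1) * (n 2) + (-m 2) * (n 1) + 0 * 0 + 0 * 0 + 0 * 0 + 0 * 0 + (m 6) * 0) -
      (0 * (-m 6) + 0 * 0 + (n 1) * (m 2) + (-n 2) * (m 1) + 0 * 0 + 0 * 0 + 0 * 0 + 0 * 0 + (n 6) * 0) = (2 * (m 1 * n 2 - m 2 * n 1))
    ring1
  · show (0 * (n 3) + (0 : ℤ) * 0 + (m 1) * (n 0) + (-m 2) * (-n 2) + 0 * 0 + 0 * 0 + 0 * 0 + 0 * 0 + (m 6) * 0) -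
      (0 * (m 3) + 0 * 0 + (n 1) * (m 0) + (-n 2) * (-m 2) + 0 * 0 + 0 * 0 + 0 * 0 + 0 * 0 + (n 6) * 0) = -(m 0 * n 1 - m 1 * n 0)
    ring1
  · show (0 * (n 7) + 0 * (-n 7) + (m 1) * 0 + (-m 2) * 0 + 0 * (n 2) + 0 * (n 1) + (0 : ℤ) * 0 + 0 * 0 + (m 6) * 0) -
      (0 * (m 7) + 0 * (-m 7) + (n 1) * 0 + (-n 2) * 0 + 0 * (m 2) + 0 * (m 1) + 0 * 0 + 0 * 0 + (n 6) * 0) = 0
    ring1
  · show (0 * (-n 4) + 0 * (n 4) + (m 1) * 0 + (-m 2) * 0 + 0 * (n 0) + 0 * (-n 2) + (0 : ℤ) * 0 + 0 * 0 + (m 6) * 0) -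
      (0 * (-m 4) + 0 * (m 4) + (n 1) * 0 + (-n 2) * 0 + 0 * (m 0) + 0 * (-m 2) + 0 * 0 + 0 * 0 + (n 6) * 0) = 0
    ring1
  · show ((0 : ℤ) * 0 + 0 * (n 8) + (m 1) * 0 + (-m 2) * 0 + 0 * 0 + 0 * 0 + 0 * (n 2) + 0 * (n 1) + (m 6) * 0) -
      (0 * 0 + 0 * (m 8) + (n 1) * 0 + (-n 2) * 0 + 0 * 0 + 0 * 0 + 0 * (m 2) + 0 * (m 1) + (n 6) * 0) = 0
    ring1
  · show ((0 : ℤ) * 0 + 0 * (-n 5) + (m 1) * 0 + (-m 2) * 0 + 0 * 0 + 0 * 0 + 0 * (n 0) + 0 * (-n 2) + (m 6) * 0) -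
      (0 * 0 + 0 * (-m 5) + (n 1) * 0 + (-n 2) * 0 + 0 * 0 + 0 * 0 + 0 * (m 0) + 0 * (-m 2) + (n 6) * 0) = 0
    ring1
  · show (0 * (n 9) + 0 * (n 10) + (m 1) * (n 3) + (-m 2) * (n 6) + 0 * (n 4) + 0 * (n 7) + 0 * (n 5) + 0 * (n 8) + (m 6) * 0) -
      (0 * (m 9) + 0 * (m 10) + (n 1) * (m 3) + (-n 2) * (m 6) + 0 * (m 4) + 0 * (m 7) + 0 * (m 5) + 0 * (m 8) + (n 6) * 0) = (m 1 * n 3 - m 2 * n 6 - n 1 * m 3 + n 2 * m 6)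
    ring1
  · show ((0 : ℤ) * 0 + 0 * 0 + 0 * 0 + 0 * 0 + (m 2) * 0 + (m 0) * 0 + 0 * 0 + 0 * 0 + (m 4) * 0) -
      (0 * 0 + 0 * 0 + 0 * 0 + 0 * 0 + (n 2) * 0 + (n 0) * 0 + 0 * 0 + 0 * 0 + (n 4) * 0) = 0
    ring1
  · show ((0 : ℤ) * 0 + 0 * 0 + 0 * 0 + 0 * 0 + (m 2) * 0 + (m 0) * 0 + 0 * 0 + 0 * 0 + (m 4) * 0) -
      (0 * 0 + 0 * 0 + 0 * 0 + 0 * 0 + (n 2) * 0 + (n 0) * 0 + 0 * 0 + 0 * 0 + (n 4) * 0) = 0
    ring1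
  · show (0 * (-n 6) + (0 : ℤ) * 0 + 0 * (n 2) + 0 * (n 1) + (m 2) * 0 + (m 0) * 0 + 0 * 0 + 0 * 0 + (m 4) * 0) -
      (0 * (-m 6) + 0 * 0 + 0 * (m 2) + 0 * (m 1) + (n 2) * 0 + (n 0) * 0 + 0 * 0 + 0 * 0 + (n 4) * 0) = 0
    ring1
  · show (0 * (n 3) + (0 : ℤ) * 0 + 0 * (n 0) + 0 * (-n 2) + (m 2) * 0 + (m 0) * 0 + 0 * 0 + 0 * 0 + (m 4) * 0) -
      (0 * (m 3) + 0 * 0 + 0 * (m 0) + 0 * (-m 2) + (n 2) * 0 + (n 0) * 0 + 0 * 0 + 0 * 0 + (n 4) * 0) = 0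
    ring1
  · show (0 * (n 7) + 0 * (-n 7) + (0 : ℤ) * 0 + 0 * 0 + (m 2) * (n 2) + (m 0) * (n 1) + 0 * 0 + 0 * 0 + (m 4) * 0) -
      (0 * (m 7) + 0 * (-m 7) + 0 * 0 + 0 * 0 + (n 2) * (m 2) + (n 0) * (m 1) + 0 * 0 + 0 * 0 + (n 4) * 0) = (m 0 * n 1 - m 1 * n 0)
    ring1
  · show (0 * (-n 4) + 0 * (n 4) + (0 : ℤ) * 0 + 0 * 0 + (m 2) * (n 0) + (m 0) * (-n 2) + 0 * 0 + 0 * 0 + (m 4) * 0) -
      (0 * (-m 4) + 0 * (m 4) + 0 * 0 + 0 * 0 + (n 2) * (m 0) + (n 0) * (-m 2) + 0 * 0 + 0 * 0 + (n 4) * 0) = (2 * (m 2 * n 0 - m 0 * n 2))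
    ring1
  · show ((0 : ℤ) * 0 + 0 * (n 8) + 0 * 0 + 0 * 0 + (m 2) * 0 + (m 0) * 0 + 0 * (n 2) + 0 * (n 1) + (m 4) * 0) -
      (0 * 0 + 0 * (m 8) + 0 * 0 + 0 * 0 + (n 2) * 0 + (n 0) * 0 + 0 * (m 2) + 0 * (m 1) + (n 4) * 0) = 0
    ring1
  · show ((0 : ℤ) * 0 + 0 * (-n 5) + 0 * 0 + 0 * 0 + (m 2) * 0 + (m 0) * 0 + 0 * (n 0) + 0 * (-n 2) + (m 4) * 0) -
      (0 * 0 + 0 * (-m 5) + 0 * 0 + 0 * 0 + (n 2) * 0 + (n 0) * 0 + 0 * (m 0) + 0 * (-m 2) + (n 4) * 0) = 0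
    ring1
  · show (0 * (n 9) + 0 * (n 10) + 0 * (n 3) + 0 * (n 6) + (m 2) * (n 4) + (m 0) * (n 7) + 0 * (n 5) + 0 * (n 8) + (m 4) * 0) -
      (0 * (m 9) + 0 * (m 10) + 0 * (m 3) + 0 * (m 6) + (n 2) * (m 4) + (n 0) * (m 7) + 0 * (m 5) + 0 * (m 8) + (n 4) * 0) = (m 0 * n 7 + m 2 * n 4 - n 0 * m 7 - n 2 * m 4)
    ring1
  · show ((0 : ℤ) * 0 + 0 * 0 + 0 * 0 + 0 * 0 + (m 1) * 0 + (-m 2) * 0 + 0 * 0 + 0 * 0 + (m 7) * 0) -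
      (0 * 0 + 0 * 0 + 0 * 0 + 0 * 0 + (n 1) * 0 + (-n 2) * 0 + 0 * 0 + 0 * 0 + (n 7) * 0) = 0
    ring1
  · show ((0 : ℤ) * 0 + 0 * 0 + 0 * 0 + 0 * 0 + (m 1) * 0 + (-m 2) * 0 + 0 * 0 + 0 * 0 + (m 7) * 0) -
      (0 * 0 + 0 * 0 + 0 * 0 + 0 * 0 + (n 1) * 0 + (-n 2) * 0 + 0 * 0 + 0 * 0 + (n 7) * 0) = 0
    ring1
  · show (0 * (-n 6) + (0 : ℤ) * 0 + 0 * (n 2) + 0 * (n 1) + (m 1) * 0 + (-m 2) * 0 + 0 * 0 + 0 * 0 + (m 7) * 0) -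
      (0 * (-m 6) + 0 * 0 + 0 * (m 2) + 0 * (m 1) + (n 1) * 0 + (-n 2) * 0 + 0 * 0 + 0 * 0 + (n 7) * 0) = 0
    ring1
  · show (0 * (n 3) + (0 : ℤ) * 0 + 0 * (n 0) + 0 * (-n 2) + (m 1) * 0 + (-m 2) * 0 + 0 * 0 + 0 * 0 + (m 7) * 0) -
      (0 * (m 3) + 0 * 0 + 0 * (m 0) + 0 * (-m 2) + (n 1) * 0 + (-n 2) * 0 + 0 * 0 + 0 * 0 + (n 7) * 0) = 0
    ring1
  · show (0 * (n 7) + 0 * (-n 7) + (0 : ℤ) * 0 + 0 * 0 + (m 1) * (n 2) + (-m 2) * (n 1) + 0 * 0 + 0 * 0 + (m 7) * 0) -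
      (0 * (m 7) + 0 * (-m 7) + 0 * 0 + 0 * 0 + (n 1) * (m 2) + (-n 2) * (m 1) + 0 * 0 + 0 * 0 + (n 7) * 0) = (2 * (m 1 * n 2 - m 2 * n 1))
    ring1
  · show (0 * (-n 4) + 0 * (n 4) + (0 : ℤ) * 0 + 0 * 0 + (m 1) * (n 0) + (-m 2) * (-n 2) + 0 * 0 + 0 * 0 + (m 7) * 0) -
      (0 * (-m 4) + 0 * (m 4) + 0 * 0 + 0 * 0 + (n 1) * (m 0) + (-n 2) * (-m 2) + 0 * 0 + 0 * 0 + (n 7) * 0) = -(m 0 * n 1 - m 1 * n 0)
    ring1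
  · show ((0 : ℤ) * 0 + 0 * (n 8) + 0 * 0 + 0 * 0 + (m 1) * 0 + (-m 2) * 0 + 0 * (n 2) + 0 * (n 1) + (m 7) * 0) -
      (0 * 0 + 0 * (m 8) + 0 * 0 + 0 * 0 + (n 1) * 0 + (-n 2) * 0 + 0 * (m 2) + 0 * (m 1) + (n 7) * 0) = 0
    ring1
  · show ((0 : ℤ) * 0 + 0 * (-n 5) + 0 * 0 + 0 * 0 + (m 1) * 0 + (-m 2) * 0 + 0 * (n 0) + 0 * (-n 2) + (m 7) * 0) -
      (0 * 0 + 0 * (-m 5) + 0 * 0 + 0 * 0 + (n 1) * 0 + (-n 2) * 0 + 0 * (m 0) + 0 * (-m 2) + (n 7) * 0) = 0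
    ring1
  · show (0 * (n 9) + 0 * (n 10) + 0 * (n 3) + 0 * (n 6) + (m 1) * (n 4) + (-m 2) * (n 7) + 0 * (n 5) + 0 * (n 8) + (m 7) * 0) -
      (0 * (m 9) + 0 * (m 10) + 0 * (m 3) + 0 * (m 6) + (n 1) * (m 4) + (-n 2) * (m 7) + 0 * (m 5) + 0 * (m 8) + (n 7) * 0) = (m 1 * n 4 - m 2 * n 7 - n 1 * m 4 + n 2 * m 7)
    ring1
  · show ((0 : ℤ) * 0 + 0 * 0 + 0 * 0 + 0 * 0 + 0 * 0 + 0 * 0 + (m 2) * 0 + (m 0) * 0 + (m 5) * 0) -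
      (0 * 0 + 0 * 0 + 0 * 0 + 0 * 0 + 0 * 0 + 0 * 0 + (n 2) * 0 + (n 0) * 0 + (n 5) * 0) = 0
    ring1
  · show ((0 : ℤ) * 0 + 0 * 0 + 0 * 0 + 0 * 0 + 0 * 0 + 0 * 0 + (m 2) * 0 + (m 0) * 0 + (m 5) * 0) -
      (0 * 0 + 0 * 0 + 0 * 0 + 0 * 0 + 0 * 0 + 0 * 0 + (n 2) * 0 + (n 0) * 0 + (n 5) * 0) = 0
    ring1
  · show (0 * (-n 6) + (0 : ℤ) * 0 + 0 * (n 2) + 0 * (n 1) + 0 * 0 + 0 * 0 + (m 2) * 0 + (m 0) * 0 + (m 5) * 0) -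
      (0 * (-m 6) + 0 * 0 + 0 * (m 2) + 0 * (m 1) + 0 * 0 + 0 * 0 + (n 2) * 0 + (n 0) * 0 + (n 5) * 0) = 0
    ring1
  · show (0 * (n 3) + (0 : ℤ) * 0 + 0 * (n 0) + 0 * (-n 2) + 0 * 0 + 0 * 0 + (m 2) * 0 + (m 0) * 0 + (m 5) * 0) -
      (0 * (m 3) + 0 * 0 + 0 * (m 0) + 0 * (-m 2) + 0 * 0 + 0 * 0 + (n 2) * 0 + (n 0) * 0 + (n 5) * 0) = 0
    ring1
  · show (0 * (n 7) + 0 * (-n 7) + (0 : ℤ) * 0 + 0 * 0 + 0 * (n 2) + 0 * (n 1) + (m 2) * 0 + (m 0) * 0 + (m 5) * 0) -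
      (0 * (m 7) + 0 * (-m 7) + 0 * 0 + 0 * 0 + 0 * (m 2) + 0 * (m 1) + (n 2) * 0 + (n 0) * 0 + (n 5) * 0) = 0
    ring1
  · show (0 * (-n 4) + 0 * (n 4) + (0 : ℤ) * 0 + 0 * 0 + 0 * (n 0) + 0 * (-n 2) + (m 2) * 0 + (m 0) * 0 + (m 5) * 0) -
      (0 * (-m 4) + 0 * (m 4) + 0 * 0 + 0 * 0 + 0 * (m 0) + 0 * (-m 2) + (n 2) * 0 + (n 0) * 0 + (n 5) * 0) = 0
    ring1
  · show ((0 : ℤ) * 0 + 0 * (n 8) + 0 * 0 + 0 * 0 + 0 * 0 + 0 * 0 + (m 2) * (n 2) + (m 0) * (n 1) + (m 5) * 0) -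
      (0 * 0 + 0 * (m 8) + 0 * 0 + 0 * 0 + 0 * 0 + 0 * 0 + (n 2) * (m 2) + (n 0) * (m 1) + (n 5) * 0) = (m 0 * n 1 - m 1 * n 0)
    ring1
  · show ((0 : ℤ) * 0 + 0 * (-n 5) + 0 * 0 + 0 * 0 + 0 * 0 + 0 * 0 + (m 2) * (n 0) + (m 0) * (-n 2) + (m 5) * 0) -
      (0 * 0 + 0 * (-m 5) + 0 * 0 + 0 * 0 + 0 * 0 + 0 * 0 + (n 2) * (m 0) + (n 0) * (-m 2) + (n 5) * 0) = (2 * (m 2 * n 0 - m 0 * n 2))
    ring1
  · show (0 * (n 9) + 0 * (n 10) + 0 * (n 3) + 0 * (n 6) + 0 * (n 4) + 0 * (n 7) + (m 2) * (n 5) + (m 0) * (n 8) + (m 5) * 0) -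
      (0 * (m 9) + 0 * (m 10) + 0 * (m 3) + 0 * (m 6) + 0 * (m 4) + 0 * (m 7) + (n 2) * (m 5) + (n 0) * (m 8) + (n 5) * 0) = (m 0 * n 8 + m 2 * n 5 - n 0 * m 8 - n 2 * m 5)
    ring1
  · show ((0 : ℤ) * 0 + 0 * 0 + 0 * 0 + 0 * 0 + 0 * 0 + 0 * 0 + (m 1) * 0 + (-m 2) * 0 + (m 8) * 0) -
      (0 * 0 + 0 * 0 + 0 * 0 + 0 * 0 + 0 * 0 + 0 * 0 + (n 1) * 0 + (-n 2) * 0 + (n 8) * 0) = 0
    ring1
  · show ((0 : ℤ) * 0 + 0 * 0 + 0 * 0 + 0 * 0 + 0 * 0 + 0 * 0 + (m 1) * 0 + (-m 2) * 0 + (m 8) * 0) -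
      (0 * 0 + 0 * 0 + 0 * 0 + 0 * 0 + 0 * 0 + 0 * 0 + (n 1) * 0 + (-n 2) * 0 + (n 8) * 0) = 0
    ring1
  · show (0 * (-n 6) + (0 : ℤ) * 0 + 0 * (n 2) + 0 * (n 1) + 0 * 0 + 0 * 0 + (m 1) * 0 + (-m 2) * 0 + (m 8) * 0) -
      (0 * (-m 6) + 0 * 0 + 0 * (m 2) + 0 * (m 1) + 0 * 0 + 0 * 0 + (n 1) * 0 + (-n 2) * 0 + (n 8) * 0) = 0
    ring1
  · show (0 * (n 3) + (0 : ℤ) * 0 + 0 * (n 0) + 0 * (-n 2) + 0 * 0 + 0 * 0 + (m 1) * 0 + (-m 2) * 0 + (m 8) * 0) -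
      (0 * (m 3) + 0 * 0 + 0 * (m 0) + 0 * (-m 2) + 0 * 0 + 0 * 0 + (n 1) * 0 + (-n 2) * 0 + (n 8) * 0) = 0
    ring1
  · show (0 * (n 7) + 0 * (-n 7) + (0 : ℤ) * 0 + 0 * 0 + 0 * (n 2) + 0 * (n 1) + (m 1) * 0 + (-m 2) * 0 + (m 8) * 0) -
      (0 * (m 7) + 0 * (-m 7) + 0 * 0 + 0 * 0 + 0 * (m 2) + 0 * (m 1) + (n 1) * 0 + (-n 2) * 0 + (n 8) * 0) = 0
    ring1
  · show (0 * (-n 4) + 0 * (n 4) + (0 : ℤ) * 0 + 0 * 0 + 0 * (n 0) + 0 * (-n 2) + (m 1) * 0 + (-m 2) * 0 + (m 8) * 0) -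
      (0 * (-m 4) + 0 * (m 4) + 0 * 0 + 0 * 0 + 0 * (m 0) + 0 * (-m 2) + (n 1) * 0 + (-n 2) * 0 + (n 8) * 0) = 0
    ring1
  · show ((0 : ℤ) * 0 + 0 * (n 8) + 0 * 0 + 0 * 0 + 0 * 0 + 0 * 0 + (m 1) * (n 2) + (-m 2) * (n 1) + (m 8) * 0) -
      (0 * 0 + 0 * (m 8) + 0 * 0 + 0 * 0 + 0 * 0 + 0 * 0 + (n 1) * (m 2) + (-n 2) * (m 1) + (n 8) * 0) = (2 * (m 1 * n 2 - m 2 * n 1))
    ring1
  · show ((0 : ℤ) * 0 + 0 * (-n 5) + 0 * 0 + 0 * 0 + 0 * 0 + 0 * 0 + (m 1) * (n 0) + (-m 2) * (-n 2) + (m 8) * 0) -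
      (0 * 0 + 0 * (-m 5) + 0 * 0 + 0 * 0 + 0 * 0 + 0 * 0 + (n 1) * (m 0) + (-n 2) * (-m 2) + (n 8) * 0) = -(m 0 * n 1 - m 1 * n 0)
    ring1
  · show (0 * (n 9) + 0 * (n 10) + 0 * (n 3) + 0 * (n 6) + 0 * (n 4) + 0 * (n 7) + (m 1) * (n 5) + (-m 2) * (n 8) + (m 8) * 0) -
      (0 * (m 9) + 0 * (m 10) + 0 * (m 3) + 0 * (m 6) + 0 * (m 4) + 0 * (m 7) + (n 1) * (m 5) + (-n 2) * (m 8) + (n 8) * 0) = (m 1 * n 5 - m 2 * n 8 - n 1 * m 5 + n 2 * m 8)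
    ring1
  · show ((0 : ℤ) * 0 + 0 * 0 + 0 * 0 + 0 * 0 + 0 * 0 + 0 * 0 + 0 * 0 + 0 * 0 + 0 * 0) -
      (0 * 0 + 0 * 0 + 0 * 0 + 0 * 0 + 0 * 0 + 0 * 0 + 0 * 0 + 0 * 0 + 0 * 0) = 0
    ring1
  · show ((0 : ℤ) * 0 + 0 * 0 + 0 * 0 + 0 * 0 + 0 * 0 + 0 * 0 + 0 * 0 + 0 * 0 + 0 * 0) -
      (0 * 0 + 0 * 0 + 0 * 0 + 0 * 0 + 0 * 0 + 0 * 0 + 0 * 0 + 0 * 0 + 0 * 0) = 0
    ring1
  · show (0 * (-n 6) + (0 : ℤ) * 0 + 0 * (n 2) + 0 * (n 1) + 0 * 0 + 0 * 0 + 0 * 0 + 0 * 0 + 0 * 0) -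
      (0 * (-m 6) + 0 * 0 + 0 * (m 2) + 0 * (m 1) + 0 * 0 + 0 * 0 + 0 * 0 + 0 * 0 + 0 * 0) = 0
    ring1
  · show (0 * (n 3) + (0 : ℤ) * 0 + 0 * (n 0) + 0 * (-n 2) + 0 * 0 + 0 * 0 + 0 * 0 + 0 * 0 + 0 * 0) -
      (0 * (m 3) + 0 * 0 + 0 * (m 0) + 0 * (-m 2) + 0 * 0 + 0 * 0 + 0 * 0 + 0 * 0 + 0 * 0) = 0
    ring1
  · show (0 * (n 7) + 0 * (-n 7) + (0 : ℤ) * 0 + 0 * 0 + 0 * (n 2) + 0 * (n 1) + 0 * 0 + 0 * 0 + 0 * 0) -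
      (0 * (m 7) + 0 * (-m 7) + 0 * 0 + 0 * 0 + 0 * (m 2) + 0 * (m 1) + 0 * 0 + 0 * 0 + 0 * 0) = 0
    ring1
  · show (0 * (-n 4) + 0 * (n 4) + (0 : ℤ) * 0 + 0 * 0 + 0 * (n 0) + 0 * (-n 2) + 0 * 0 + 0 * 0 + 0 * 0) -
      (0 * (-m 4) + 0 * (m 4) + 0 * 0 + 0 * 0 + 0 * (m 0) + 0 * (-m 2) + 0 * 0 + 0 * 0 + 0 * 0) = 0
    ring1
  · show ((0 : ℤ) * 0 + 0 * (n 8) + 0 * 0 + 0 * 0 + 0 * 0 + 0 * 0 + 0 * (n 2) + 0 * (n 1) + 0 * 0) -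
      (0 * 0 + 0 * (m 8) + 0 * 0 + 0 * 0 + 0 * 0 + 0 * 0 + 0 * (m 2) + 0 * (m 1) + 0 * 0) = 0
    ring1
  · show ((0 : ℤ) * 0 + 0 * (-n 5) + 0 * 0 + 0 * 0 + 0 * 0 + 0 * 0 + 0 * (n 0) + 0 * (-n 2) + 0 * 0) -
      (0 * 0 + 0 * (-m 5) + 0 * 0 + 0 * 0 + 0 * 0 + 0 * 0 + 0 * (m 0) + 0 * (-m 2) + 0 * 0) = 0
    ring1
  · show (0 * (n 9) + 0 * (n 10) + 0 * (n 3) + 0 * (n 6) + 0 * (n 4) + 0 * (n 7) + 0 * (n 5) + 0 * (n 8) + (0 : ℤ) * 0) -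
      (0 * (m 9) + 0 * (m 10) + 0 * (m 3) + 0 * (m 6) + 0 * (m 4) + 0 * (m 7) + 0 * (m 5) + 0 * (m 8) + 0 * 0) = 0
    ring1

theorem Lam_add (m n : Fin 11 → ℤ) : Lam (m + n) = Lam m + Lam n := by
  refine Matrix.ext fun i j => ?_
  rw [Matrix.add_apply]
  fin_cases i <;> fin_cases j
  · exact (add_zero (0 : ℤ)).symm
  · exact (add_zero (0 : ℤ)).symm
  · exact neg_add (m 6) (n 6)
  · rfl
  · rfl
  · exact neg_add (m 4) (n 4)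
  · exact (add_zero (0 : ℤ)).symm
  · exact (add_zero (0 : ℤ)).symm
  · rfl
  · exact (add_zero (0 : ℤ)).symm
  · exact (add_zero (0 : ℤ)).symm
  · exact (add_zero (0 : ℤ)).symm
  · exact (add_zero (0 : ℤ)).symm
  · exact neg_add (m 7) (n 7)
  · rfl
  · rfl
  · exact neg_add (m 5) (n 5)
  · rfl
  · exact (add_zero (0 : ℤ)).symm
  · exact (add_zero (0 : ℤ)).symm
  · rfl
  · rfl
  · exact (add_zero (0 : ℤ)).symm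
  · exact (add_zero (0 : ℤ)).symm
  · exact (add_zero (0 : ℤ)).symm
  · exact (add_zero (0 : ℤ)).symm
  · rfl
  · exact (add_zero (0 : ℤ)).symm
  · exact (add_zero (0 : ℤ)).symm
  · rfl
  · exact neg_add (m 2) (n 2)
  · exact (add_zero (0 : ℤ)).symm
  · exact (add_zero (0 : ℤ)).symm
  · exact (add_zero (0 : ℤ)).symm
  · exact (add_zero (0 : ℤ)).symm
  · rfl
  · exact (add_zero (0 : ℤ)).symm
  · exact (add_zero (0 : ℤ)).symm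
  · exact (add_zero (0 : ℤ)).symm
  · exact (add_zero (0 : ℤ)).symm
  · rfl
  · rfl
  · exact (add_zero (0 : ℤ)).symm
  · exact (add_zero (0 : ℤ)).symm
  · rfl
  · exact (add_zero (0 : ℤ)).symm
  · exact (add_zero (0 : ℤ)).symm
  · exact (add_zero (0 : ℤ)).symm
  · exact (add_zero (0 : ℤ)).symm
  · rfl
  · exact neg_add (m 2) (n 2)
  · exact (add_zero (0 : ℤ)).symm
  · exact (add_zero (0 : ℤ)).symm
  · rfl
  · exact (add_zero (0 : ℤ)).symm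
  · exact (add_zero (0 : ℤ)).symm
  · exact (add_zero (0 : ℤ)).symm
  · exact (add_zero (0 : ℤ)).symm
  · exact (add_zero (0 : ℤ)).symm
  · exact (add_zero (0 : ℤ)).symm
  · rfl
  · rfl
  · rfl
  · exact (add_zero (0 : ℤ)).symm
  · exact (add_zero (0 : ℤ)).symm
  · exact (add_zero (0 : ℤ)).symm
  · exact (add_zero (0 : ℤ)).symm
  · exact (add_zero (0 : ℤ)).symm
  · exact (add_zero (0 : ℤ)).symm
  · rfl
  · exact neg_add (m 2) (n 2)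
  · rfl
  · exact (add_zero (0 : ℤ)).symm
  · exact (add_zero (0 : ℤ)).symm
  · exact (add_zero (0 : ℤ)).symm
  · exact (add_zero (0 : ℤ)).symm
  · exact (add_zero (0 : ℤ)).symm
  · exact (add_zero (0 : ℤ)).symm
  · exact (add_zero (0 : ℤ)).symm
  · exact (add_zero (0 : ℤ)).symm
  · exact (add_zero (0 : ℤ)).symm

/-- The error matrix. -/
def errM (Q s : ℤ) (m : Fin 11 → ℤ) : Matrix (Fin 9) (Fin 9) ℤ :=
  !![0, 0, Q * (m 3 * m 1 - m 6 * m 2), Q * (m 3 * s - m 6 * m 0), -Q * (m 4 * m 1 - m 7 * m 2),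
      -Q * (m 4 * s - m 7 * m 0), 0, 0, 0;
    0, 0, 0, 0, Q * (m 4 * m 1 - m 7 * m 2), Q * (m 4 * s - m 7 * m 0),
      -Q * (m 5 * m 1 - m 8 * m 2), -Q * (m 5 * s - m 8 * m 0), 0;
    0, 0, 0, 0, 0, 0, 0, 0, 0;
    0, 0, 0, Q * (m 0 * m 1 - m 2 * s), 0, 0, 0, 0, 0;
    0, 0, 0, 0, 0, 0, 0, 0, 0;
    0, 0, 0, 0, 0, Q * (m 0 * m 1 - m 2 * s), 0, 0, 0;
    0, 0, 0, 0, 0, 0, 0, 0, 0;
    0, 0, 0, 0, 0, 0, 0, Q * (m 0 * m 1 - m 2 * s), 0;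
    0, 0, 0, 0, 0, 0, 0, 0, 0]

theorem rel_of_coord (g : H) (i : ℕ) (m : Fin 11 → ℤ)
    (h : ∀ k, coord g k = 5 ^ (i + 1) * m k) : Rel i (rhoM g) (Lam m) := by
  obtain ⟨Q, hQ⟩ : ∃ Q : ℤ, Q = 5 ^ i := ⟨_, rfl⟩
  have hP : (5 : ℤ) ^ (i + 1) = 5 * Q := by rw [hQ, pow_succ]; ring
  have hb : g.b = 5 * Q * m 0 := by rw [← hP]; exact h 0
  have hc : g.c = 5 * Q * m 1 := by rw [← hP]; exact h 1
  have ha : g.a = 1 + 5 * Q * m 2 := by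
    have : g.a - 1 = 5 ^ (i + 1) * m 2 := h 2
    rw [hP] at this
    linarith
  have hx0 : g.x0 = 5 * Q * m 3 := by rw [← hP]; exact h 3
  have hx1 : g.x1 = 5 * Q * m 4 := by rw [← hP]; exact h 4
  have hx2 : g.x2 = 5 * Q * m 5 := by rw [← hP]; exact h 5
  have hy0 : g.y0 = 5 * Q * m 6 := by rw [← hP]; exact h 6
  have hy1 : g.y1 = 5 * Q * m 7 := by rw [← hP]; exact h 7
  have hy2 : g.y2 = 5 * Q * m 8 := by rw [← hP]; exact h 8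
  have hu0 : g.u0 = 5 * Q * m 9 := by rw [← hP]; exact h 9
  have hu1 : g.u1 = 5 * Q * m 10 := by rw [← hP]; exact h 10
  obtain ⟨s, hs⟩ : ∃ s : ℤ, s = 5 * Q * m 0 * m 1 - m 2 * g.d := ⟨_, rfl⟩
  have hd : g.d = 1 + 5 * Q * s := by
    have := g.det
    rw [ha, hb, hc] at this
    rw [hs]
    linear_combination this
  have hs2 : s = 5 * Q * (m 0 * m 1 - m 2 * s) - m 2 := by
    rw [hd] at hs
    linear_combination hs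
  refine ⟨errM Q s m, ?_⟩
  rw [hP]
  ext k l
  simp only [rhoM, hb, hc, ha, hx0, hx1, hx2, hy0, hy1, hy2, hu0, hu1, hd]
  clear h hb hc ha hx0 hx1 hx2 hy0 hy1 hy2 hu0 hu1 hd hs hP hQ
  have hs3 : 5 * Q * s = 5 * Q * (-m 2 + 5 * (Q * (m 0 * m 1 - m 2 * s))) := by
    linear_combination (5 * Q) * hs2
  rw [Matrix.add_apply, Matrix.smul_apply, Matrix.add_apply, Matrix.smul_apply]
  fin_cases k <;> fin_cases l <;>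
    first
    | rfl
    | (show 1 + 5 * Q * s = 1 + 5 * Q * (-m 2 + 5 * (Q * (m 0 * m 1 - m 2 * s))); rw [hs3])
    | (simp [Lam, errM] <;> ring1)

theorem coord_of_rel (g : H) (i : ℕ) (m : Fin 11 → ℤ) (h : Rel i (rhoM g) (Lam m)) :
    ∃ m' : Fin 11 → ℤ, (∀ k, coord g k = 5 ^ (i + 1) * m' k) ∧
      ∀ k, ((m' k : ℤ) : ZMod 5) = ((m k : ℤ) : ZMod 5) := by
  obtain ⟨ε, hε⟩ := h
  have key : ∀ k l, rhoM g k l = (1 : Matrix (Fin 9) (Fin 9) ℤ) k l +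
      5 ^ (i + 1) * (Lam m k l + 5 * ε k l) := by
    intro k l
    rw [hε]
    rfl
  refine ⟨fun k => m k + 5 * (![ε 2 3, ε 3 2, ε 2 2, ε 2 8, ε 4 8, ε 6 8, ε 3 8, ε 5 8, ε 7 8,
    ε 0 8, ε 1 8] k), ?_, ?_⟩
  · generalize (5 : ℤ) ^ (i + 1) = P at key
    have h0 := key 2 3
    have h1 := key 3 2
    have h2 := key 2 2
    have h3 := key 2 8
    have h4 := key 4 8
    have h5 := key 6 8
    have h6 := key 3 8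
    have h7 := key 5 8
    have h8 := key 7 8
    have h9 := key 0 8
    have h10 := key 1 8
    simp [rhoM, Lam] at h0 h1 h2 h3 h4 h5 h6 h7 h8 h9 h10
    intro k
    fin_cases k <;> simp [coord, *]
  · intro k
    have h5 : (5 : ZMod 5) = 0 := rfl
    push_cast
    rw [h5, zero_mul, add_zero]

/-- g lies in the congruence subgroup of level i+1 with symbol a -/
def SymH (i : ℕ) (g : H) (a : L) : Prop :=
  ∃ m : Fin 11 → ℤ, (∀ k, coord g k = 5 ^ (i + 1) * m k) ∧ ∀ k, ((m k : ℤ) : ZMod 5) = a k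

theorem co4_Lam_zero : Lam 0 = 0 := by
  have h := Lam_add 0 0
  rw [add_zero] at h
  exact left_eq_add.mp h

theorem co4_Lam_neg (m : Fin 11 → ℤ) : Lam (-m) = - Lam m := by
  have h := Lam_add m (-m)
  rw [add_neg_cancel, co4_Lam_zero] at h
  exact (neg_eq_of_add_eq_zero_right h.symm).symm

/-- the representation as a homomorphism -/
def co4R : H →* Matrix (Fin 9) (Fin 9) ℤ where
  toFun := rhoM
  map_one' := rho_one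
  map_mul' := rho_mul

theorem co4_inv1 (g : H) : rhoM g * rhoM g⁻¹ = 1 := by
  have h := co4R.map_mul g g⁻¹
  rw [mul_inv_cancel, map_one] at h
  exact h.symm

theorem co4_inv2 (g : H) : rhoM g⁻¹ * rhoM g = 1 := by
  have h := co4R.map_mul g⁻¹ g
  rw [inv_mul_cancel, map_one] at h
  exact h.symm

theorem co4_br_cast (m n : Fin 11 → ℤ) (k : Fin 11) :
    ((br m n k : ℤ) : ZMod 5) =
      br (fun k => ((m k : ℤ) : ZMod 5)) (fun k => ((n k : ℤ) : ZMod 5)) k := by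
  fin_cases k <;> simp [br]

theorem symH_mul {i : ℕ} {g h : H} {a b : L} (hg : SymH i g a) (hh : SymH i h b) :
    SymH i (g * h) (a + b) := by
  obtain ⟨m, hm, ha⟩ := hg
  obtain ⟨n, hn, hb⟩ := hh
  have h1 := rel_mul (rel_of_coord g i m hm) (rel_of_coord h i n hn)
  rw [← rho_mul, ← Lam_add] at h1
  obtain ⟨m', h2, h3⟩ := coord_of_rel _ _ _ h1
  refine ⟨m', h2, fun k => ?_⟩
  rw [h3 k, Pi.add_apply, Pi.add_apply, ← ha k, ← hb k]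
  push_cast
  rfl

theorem symH_inv {i : ℕ} {g : H} {a : L} (hg : SymH i g a) : SymH i g⁻¹ (-a) := by
  obtain ⟨m, hm, ha⟩ := hg
  have h1 := rel_inv (rel_of_coord g i m hm) (co4_inv1 g) (co4_inv2 g)
  rw [← co4_Lam_neg] at h1
  obtain ⟨m', h2, h3⟩ := coord_of_rel _ _ _ h1
  refine ⟨m', h2, fun k => ?_⟩
  rw [h3 k, Pi.neg_apply, Pi.neg_apply, ← ha k]
  push_cast
  rfl

theorem symH_comm {i j : ℕ} {g h : H} {a b : L} (hg : SymH i g a) (hh : SymH j h b) :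
    SymH (i + j + 1) (g * h * g⁻¹ * h⁻¹) (br a b) := by
  obtain ⟨m, hm, ha⟩ := hg
  obtain ⟨n, hn, hb⟩ := hh
  have h1 := rel_comm (rel_of_coord g i m hm) (rel_of_coord h j n hn) (co4_inv1 g) (co4_inv2 g)
    (co4_inv1 h) (co4_inv2 h)
  rw [Lam_br, ← rho_mul, ← rho_mul, ← rho_mul] at h1
  obtain ⟨m', h2, h3⟩ := coord_of_rel _ _ _ h1
  refine ⟨m', h2, fun k => ?_⟩
  rw [h3 k, co4_br_cast]
  have e1 : (fun k => ((m k : ℤ) : ZMod 5)) = a := funext ha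
  have e2 : (fun k => ((n k : ℤ) : ZMod 5)) = b := funext hb
  rw [e1, e2]

theorem symH_pow {i : ℕ} {g : H} {a : L} (hg : SymH i g a) : SymH (i + 1) (g ^ 5) a := by
  obtain ⟨m, hm, ha⟩ := hg
  have h1 := rel_pow (rel_of_coord g i m hm)
  have h2 : rhoM (g ^ 5) = rhoM g ^ 5 := map_pow co4R g 5
  rw [← h2] at h1
  obtain ⟨m', h2, h3⟩ := coord_of_rel _ _ _ h1
  exact ⟨m', h2, fun k => by rw [h3 k, ha k]⟩

theorem symH_down {i : ℕ} {g : H} {a : L} (h : SymH (i + 1) g a) : SymH i g 0 := by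
  obtain ⟨m, hm, ha⟩ := h
  refine ⟨fun k => 5 * m k, fun k => ?_, fun k => ?_⟩
  · rw [hm k]; ring
  · rw [Pi.zero_apply, ZMod.intCast_zmod_eq_zero_iff_dvd]
    exact Dvd.intro _ rfl

theorem symH_up {i : ℕ} {g : H} (h : SymH i g 0) : ∃ b, SymH (i + 1) g b := by
  obtain ⟨m, hm, ha⟩ := h
  have hd : ∀ k, ∃ n, m k = 5 * n := by
    intro k
    have h1 := ha k
    rw [Pi.zero_apply, ZMod.intCast_zmod_eq_zero_iff_dvd] at h1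
    exact h1
  choose n hn using hd
  refine ⟨fun k => ((n k : ℤ) : ZMod 5), n, fun k => ?_, fun k => rfl⟩
  rw [hm k, hn k]; ring

theorem symH_uniq {i : ℕ} {g : H} {a b : L} (h : SymH i g a) (k : SymH i g b) : a = b := by
  obtain ⟨m, hm, ha⟩ := h
  obtain ⟨n, hn, hb⟩ := k
  funext j
  have h1 : (5 : ℤ) ^ (i + 1) * m j = 5 ^ (i + 1) * n j := by rw [← hm j, ← hn j]
  have h2 : m j = n j := mul_left_cancel₀ (by positivity) h1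
  rw [← ha j, ← hb j, h2]

theorem symH_ex (i : ℕ) (a : L) : ∃ g : H, SymH i g a := by
  obtain ⟨q, hq⟩ : ∃ q : ℤ, q = 5 ^ (i + 1) := ⟨_, rfl⟩
  have hq5 : ((q : ℤ) : ZMod 5) = 0 := by
    rw [hq, pow_succ]
    push_cast
    rw [show (5 : ZMod 5) = 0 from by decide, mul_zero]
  have hA : ∀ k, (((a k).val : ℤ) : ZMod 5) = a k := by
    intro k
    rw [Int.cast_natCast, ZMod.natCast_val, ZMod.cast_id', id]
  obtain ⟨A, hA⟩ : ∃ A : Fin 11 → ℤ, ∀ k, ((A k : ℤ) : ZMod 5) = a k := ⟨_, hA⟩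
  let t : ℤ := A 2
  let β : ℤ := A 0 + A 2
  let γ : ℤ := A 1 - A 2
  let g : H :=
    { a := (1 + q ^ 2 * β * γ) * (1 + q * t) + q * β * (q * t)
      b := -(1 + q ^ 2 * β * γ) * (q * t) + q * β * (1 - q * t)
      c := q * γ * (1 + q * t) + q * t
      d := -(q * γ * (q * t)) + (1 - q * t)
      x0 := q * A 3
      x1 := q * A 4
      x2 := q * A 5
      y0 := q * A 6
      y1 := q * A 7
      y2 := q * A 8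
      u0 := q * A 9
      u1 := q * A 10
      det := by ring }
  refine ⟨g, ![-(1 + q ^ 2 * β * γ) * t + β * (1 - q * t), γ * (1 + q * t) + t,
    t + q * (β * γ * (1 + q * t) + β * t), A 3, A 4, A 5, A 6, A 7, A 8, A 9, A 10], ?_, ?_⟩
  · rw [← hq]
    intro k
    fin_cases k
    · show -(1 + q ^ 2 * β * γ) * (q * t) + q * β * (1 - q * t) =
        q * (-(1 + q ^ 2 * β * γ) * t + β * (1 - q * t))
      ring
    · show q * γ * (1 + q * t) + q * t = q * (γ * (1 + q * t) + t)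
      ring
    · show (1 + q ^ 2 * β * γ) * (1 + q * t) + q * β * (q * t) - 1 =
        q * (t + q * (β * γ * (1 + q * t) + β * t))
      ring
    all_goals rfl
  · intro k
    fin_cases k
    · show ((-(1 + q ^ 2 * β * γ) * t + β * (1 - q * t) : ℤ) : ZMod 5) = a 0
      push_cast
      rw [hq5]
      show -(1 + 0 ^ 2 * (β : ZMod 5) * (γ : ZMod 5)) * ((A 2 : ℤ) : ZMod 5) +
        (((A 0 + A 2 : ℤ)) : ZMod 5) * (1 - 0 * (t : ZMod 5)) = a 0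
      push_cast
      rw [hA, hA]
      ring
    · show ((γ * (1 + q * t) + t : ℤ) : ZMod 5) = a 1
      push_cast
      rw [hq5]
      show (((A 1 - A 2 : ℤ)) : ZMod 5) * (1 + 0 * (t : ZMod 5)) + ((A 2 : ℤ) : ZMod 5) = a 1
      push_cast
      rw [hA, hA]
      ring
    · show ((t + q * (β * γ * (1 + q * t) + β * t) : ℤ) : ZMod 5) = a 2
      push_cast
      rw [hq5, zero_mul, add_zero]
      exact hA 2
    all_goals exact hA _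

/-- the first congruence subgroup -/
def Gam : Subgroup H where
  carrier := {g | ∃ a, SymH 0 g a}
  mul_mem' := by
    rintro x y ⟨a, ha⟩ ⟨b, hb⟩
    exact ⟨a + b, symH_mul ha hb⟩
  one_mem' := by
    obtain ⟨g, hg⟩ := symH_ex 0 0
    have := symH_mul hg (symH_inv hg)
    exact ⟨0, by simpa using this⟩
  inv_mem' := by
    rintro x ⟨a, ha⟩
    exact ⟨-a, symH_inv ha⟩

/-- the normal subgroup by which we divide -/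
def Del (M : ℕ) : Subgroup Gam where
  carrier := {g | ∃ a ∈ W, SymH M (g : H) a}
  mul_mem' := by
    rintro x y ⟨a, ha, ha'⟩ ⟨b, hb, hb'⟩
    exact ⟨a + b, add_mem ha hb, symH_mul ha' hb'⟩
  one_mem' := by
    obtain ⟨g, hg⟩ := symH_ex M 0
    have := symH_mul hg (symH_inv hg)
    exact ⟨0, zero_mem _, by simpa using this⟩
  inv_mem' := by
    rintro x ⟨a, ha, ha'⟩
    exact ⟨-a, neg_mem ha, symH_inv ha'⟩

theorem sc_mul_a (g h : H) : (g * h).a = g.a * h.a + g.b * h.c := rfl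
theorem sc_mul_b (g h : H) : (g * h).b = g.a * h.b + g.b * h.d := rfl
theorem sc_mul_c (g h : H) : (g * h).c = g.c * h.a + g.d * h.c := rfl
theorem sc_mul_d (g h : H) : (g * h).d = g.c * h.b + g.d * h.d := rfl
theorem sc_mul_x0 (g h : H) : (g * h).x0 = g.x0 + (g.a * h.x0 + g.b * h.y0) := rfl
theorem sc_mul_y0 (g h : H) : (g * h).y0 = g.y0 + (g.c * h.x0 + g.d * h.y0) := rfl
theorem sc_mul_x1 (g h : H) : (g * h).x1 = g.x1 + (g.a * h.x1 + g.b * h.y1) := rfl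
theorem sc_mul_y1 (g h : H) : (g * h).y1 = g.y1 + (g.c * h.x1 + g.d * h.y1) := rfl
theorem sc_mul_x2 (g h : H) : (g * h).x2 = g.x2 + (g.a * h.x2 + g.b * h.y2) := rfl
theorem sc_mul_y2 (g h : H) : (g * h).y2 = g.y2 + (g.c * h.x2 + g.d * h.y2) := rfl
theorem sc_mul_u0 (g h : H) : (g * h).u0 = g.u0 + h.u0 + ((g.x0 * (g.c * h.x0 + g.d * h.y0) - g.y0 * (g.a * h.x0 + g.b * h.y0)) - (g.x1 * (g.c * h.x1 + g.d * h.y1) - g.y1 * (g.a * h.x1 + g.b * h.y1))) := rfl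
theorem sc_mul_u1 (g h : H) : (g * h).u1 = g.u1 + h.u1 + ((g.x1 * (g.c * h.x1 + g.d * h.y1) - g.y1 * (g.a * h.x1 + g.b * h.y1)) - (g.x2 * (g.c * h.x2 + g.d * h.y2) - g.y2 * (g.a * h.x2 + g.b * h.y2))) := rfl
theorem sc_inv_a (g : H) : (g⁻¹).a = g.d := rfl
theorem sc_inv_b (g : H) : (g⁻¹).b = -g.b := rfl
theorem sc_inv_c (g : H) : (g⁻¹).c = -g.c := rfl
theorem sc_inv_d (g : H) : (g⁻¹).d = g.a := rfl
theorem sc_inv_x0 (g : H) : (g⁻¹).x0 = -(g.d * g.x0 - g.b * g.y0) := rfl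
theorem sc_inv_y0 (g : H) : (g⁻¹).y0 = -(g.a * g.y0 - g.c * g.x0) := rfl
theorem sc_inv_x1 (g : H) : (g⁻¹).x1 = -(g.d * g.x1 - g.b * g.y1) := rfl
theorem sc_inv_y1 (g : H) : (g⁻¹).y1 = -(g.a * g.y1 - g.c * g.x1) := rfl
theorem sc_inv_x2 (g : H) : (g⁻¹).x2 = -(g.d * g.x2 - g.b * g.y2) := rfl
theorem sc_inv_y2 (g : H) : (g⁻¹).y2 = -(g.a * g.y2 - g.c * g.x2) := rfl
theorem sc_inv_u0 (g : H) : (g⁻¹).u0 = -g.u0 := rfl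
theorem sc_inv_u1 (g : H) : (g⁻¹).u1 = -g.u1 := rfl

/-- the scaling map -/
def sc (C : ℤ) (g : H) : H where
  a := g.a
  b := g.b
  c := g.c
  d := g.d
  x0 := C * g.x0
  x1 := C * g.x1
  x2 := C * g.x2
  y0 := C * g.y0
  y1 := C * g.y1
  y2 := C * g.y2
  u0 := C ^ 2 * g.u0
  u1 := C ^ 2 * g.u1
  det := g.det

theorem sc_a (C : ℤ) (g : H) : (sc C g).a = g.a := rfl
theorem sc_b (C : ℤ) (g : H) : (sc C g).b = g.b := rfl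
theorem sc_c (C : ℤ) (g : H) : (sc C g).c = g.c := rfl
theorem sc_d (C : ℤ) (g : H) : (sc C g).d = g.d := rfl
theorem sc_x0 (C : ℤ) (g : H) : (sc C g).x0 = C * g.x0 := rfl
theorem sc_y0 (C : ℤ) (g : H) : (sc C g).y0 = C * g.y0 := rfl
theorem sc_x1 (C : ℤ) (g : H) : (sc C g).x1 = C * g.x1 := rfl
theorem sc_y1 (C : ℤ) (g : H) : (sc C g).y1 = C * g.y1 := rfl
theorem sc_x2 (C : ℤ) (g : H) : (sc C g).x2 = C * g.x2 := rfl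
theorem sc_y2 (C : ℤ) (g : H) : (sc C g).y2 = C * g.y2 := rfl
theorem sc_u0 (C : ℤ) (g : H) : (sc C g).u0 = C ^ 2 * g.u0 := rfl
theorem sc_u1 (C : ℤ) (g : H) : (sc C g).u1 = C ^ 2 * g.u1 := rfl

theorem sc_mul (C : ℤ) (g h : H) : sc C (g * h) = sc C g * sc C h := by
  apply H.ext
  · rfl
  · rfl
  · rfl
  · rfl
  · rw [sc_mul_x0, sc_x0, sc_x0, sc_x0, sc_y0, sc_a, sc_b, sc_mul_x0]; ring
  · rw [sc_mul_x1, sc_x1, sc_x1, sc_x1, sc_y1, sc_a, sc_b, sc_mul_x1]; ring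
  · rw [sc_mul_x2, sc_x2, sc_x2, sc_x2, sc_y2, sc_a, sc_b, sc_mul_x2]; ring
  · rw [sc_mul_y0, sc_y0, sc_x0, sc_y0, sc_y0, sc_c, sc_d, sc_mul_y0]; ring
  · rw [sc_mul_y1, sc_y1, sc_x1, sc_y1, sc_y1, sc_c, sc_d, sc_mul_y1]; ring
  · rw [sc_mul_y2, sc_y2, sc_x2, sc_y2, sc_y2, sc_c, sc_d, sc_mul_y2]; ring
  · simp only [sc_mul_u0, sc_u0, sc_x0, sc_y0, sc_x1, sc_y1, sc_a, sc_b, sc_c, sc_d]; ring
  · simp only [sc_mul_u1, sc_u1, sc_x1, sc_y1, sc_x2, sc_y2, sc_a, sc_b, sc_c, sc_d]; ring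

theorem sc_q_a (C : ℤ) (g : H) : (g⁻¹ * sc C g).a = 1 := by
  simp only [sc_mul_a, sc_inv_a, sc_inv_b, sc_a, sc_c]
  linear_combination g.det
theorem sc_q_b (C : ℤ) (g : H) : (g⁻¹ * sc C g).b = 0 := by
  simp only [sc_mul_b, sc_inv_a, sc_inv_b, sc_b, sc_d]
  ring
theorem sc_q_c (C : ℤ) (g : H) : (g⁻¹ * sc C g).c = 0 := by
  simp only [sc_mul_c, sc_inv_c, sc_inv_d, sc_a, sc_c]
  ring
theorem sc_q_x0 (C : ℤ) (g : H) : (g⁻¹ * sc C g).x0 = (C - 1) * (g.d * g.x0 - g.b * g.y0) := by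
  simp only [sc_mul_x0, sc_inv_x0, sc_inv_a, sc_inv_b, sc_x0, sc_y0]
  ring
theorem sc_q_y0 (C : ℤ) (g : H) : (g⁻¹ * sc C g).y0 = (C - 1) * (g.a * g.y0 - g.c * g.x0) := by
  simp only [sc_mul_y0, sc_inv_y0, sc_inv_c, sc_inv_d, sc_x0, sc_y0]
  ring
theorem sc_q_x1 (C : ℤ) (g : H) : (g⁻¹ * sc C g).x1 = (C - 1) * (g.d * g.x1 - g.b * g.y1) := by
  simp only [sc_mul_x1, sc_inv_x1, sc_inv_a, sc_inv_b, sc_x1, sc_y1]
  ring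
theorem sc_q_y1 (C : ℤ) (g : H) : (g⁻¹ * sc C g).y1 = (C - 1) * (g.a * g.y1 - g.c * g.x1) := by
  simp only [sc_mul_y1, sc_inv_y1, sc_inv_c, sc_inv_d, sc_x1, sc_y1]
  ring
theorem sc_q_x2 (C : ℤ) (g : H) : (g⁻¹ * sc C g).x2 = (C - 1) * (g.d * g.x2 - g.b * g.y2) := by
  simp only [sc_mul_x2, sc_inv_x2, sc_inv_a, sc_inv_b, sc_x2, sc_y2]
  ring
theorem sc_q_y2 (C : ℤ) (g : H) : (g⁻¹ * sc C g).y2 = (C - 1) * (g.a * g.y2 - g.c * g.x2) := by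
  simp only [sc_mul_y2, sc_inv_y2, sc_inv_c, sc_inv_d, sc_x2, sc_y2]
  ring
theorem sc_q_u0 (C : ℤ) (g : H) : (g⁻¹ * sc C g).u0 = (C ^ 2 - 1) * g.u0 := by
  simp only [sc_mul_u0, sc_inv_u0, sc_inv_x0, sc_inv_y0, sc_inv_x1, sc_inv_y1, sc_inv_a, sc_inv_b,
    sc_inv_c, sc_inv_d, sc_x0, sc_y0, sc_x1, sc_y1, sc_u0]
  ring
theorem sc_q_u1 (C : ℤ) (g : H) : (g⁻¹ * sc C g).u1 = (C ^ 2 - 1) * g.u1 := by
  simp only [sc_mul_u1, sc_inv_u1, sc_inv_x1, sc_inv_y1, sc_inv_x2, sc_inv_y2, sc_inv_a, sc_inv_b,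
    sc_inv_c, sc_inv_d, sc_x1, sc_y1, sc_x2, sc_y2, sc_u1]
  ring

theorem sc_coord (g : H) (n : Fin 11 → ℤ) (h0 : g.b = n 0) (h1 : g.c = n 1) (h2 : g.a - 1 = n 2)
    (h3 : g.x0 = n 3) (h4 : g.x1 = n 4) (h5 : g.x2 = n 5) (h6 : g.y0 = n 6) (h7 : g.y1 = n 7)
    (h8 : g.y2 = n 8) (h9 : g.u0 = n 9) (h10 : g.u1 = n 10) : ∀ k, coord g k = n k := by
  intro k
  fin_cases k
  · exact h0
  · exact h1
  · exact h2
  · exact h3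
  · exact h4
  · exact h5
  · exact h6
  · exact h7
  · exact h8
  · exact h9
  · exact h10

theorem sc_fin {P : Fin 11 → Prop} (h0 : P 0) (h1 : P 1) (h2 : P 2) (h3 : P 3) (h4 : P 4)
    (h5 : P 5) (h6 : P 6) (h7 : P 7) (h8 : P 8) (h9 : P 9) (h10 : P 10) : ∀ k, P k := by
  intro k
  fin_cases k
  · exact h0
  · exact h1
  · exact h2
  · exact h3
  · exact h4
  · exact h5
  · exact h6
  · exact h7
  · exact h8
  · exact h9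
  · exact h10


instance Del_normal (M : ℕ) : (Del M).Normal := by
  constructor
  rintro n ⟨a, haW, ha⟩ g
  obtain ⟨b, hb⟩ := g.2
  refine ⟨a, haW, ?_⟩
  have h1 := symH_comm hb ha
  rw [zero_add] at h1
  have h2 := symH_mul (symH_down h1) ha
  rw [zero_add] at h2
  have h3 : ((g * n * g⁻¹ : Gam) : H) = (g : H) * n * (g : H)⁻¹ * (n : H)⁻¹ * n := by
    rw [inv_mul_cancel_right]
    rfl
  rw [h3]
  exact h2

theorem scale_H (s : ℕ) : ∃ σ : H →* H, (∀ g a, SymH 0 g a → SymH (s + 1) (g⁻¹ * σ g) (E a)) ∧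
    ∀ i g a, SymH i g a → SymH i (σ g) a := by
  obtain ⟨C, hC⟩ : ∃ C : ℤ, C = 1 + 5 ^ (s + 1) := ⟨_, rfl⟩
  have h50 : (5 : ZMod 5) = 0 := rfl
  have h25 : ((5 : ZMod 5)) ^ (s + 1) = 0 := by rw [h50, zero_pow (Nat.succ_ne_zero s)]
  have hC5 : ((C : ℤ) : ZMod 5) = 1 := by
    rw [hC]
    push_cast
    rw [h25, add_zero]
  refine ⟨MonoidHom.mk' (sc C) (sc_mul C), ?_, ?_⟩
  · rintro g a ⟨m, hm, hma⟩
    show SymH (s + 1) (g⁻¹ * sc C g) (E a)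
    have hb : g.b = 5 ^ (0 + 1) * m 0 := hm 0
    have hc : g.c = 5 ^ (0 + 1) * m 1 := hm 1
    have ha' : g.a - 1 = 5 ^ (0 + 1) * m 2 := hm 2
    have hx0 : g.x0 = 5 ^ (0 + 1) * m 3 := hm 3
    have hx1 : g.x1 = 5 ^ (0 + 1) * m 4 := hm 4
    have hx2 : g.x2 = 5 ^ (0 + 1) * m 5 := hm 5
    have hy0 : g.y0 = 5 ^ (0 + 1) * m 6 := hm 6
    have hy1 : g.y1 = 5 ^ (0 + 1) * m 7 := hm 7
    have hy2 : g.y2 = 5 ^ (0 + 1) * m 8 := hm 8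
    have hu0 : g.u0 = 5 ^ (0 + 1) * m 9 := hm 9
    have hu1 : g.u1 = 5 ^ (0 + 1) * m 10 := hm 10
    rw [zero_add, pow_one] at hb hc ha' hx0 hx1 hx2 hy0 hy1 hy2 hu0 hu1
    have ha : g.a = 1 + 5 * m 2 := by linarith
    have hd : g.d = 1 + 5 * (5 * m 0 * m 1 - m 2 * g.d) := by
      have := g.det
      rw [hb, hc, ha] at this
      linear_combination this
    have hb5 : ((g.b : ℤ) : ZMod 5) = 0 := by rw [hb, Int.cast_mul]; exact zero_mul _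
    have hc5 : ((g.c : ℤ) : ZMod 5) = 0 := by rw [hc, Int.cast_mul]; exact zero_mul _
    have ha5 : ((g.a : ℤ) : ZMod 5) = 1 := by
      rw [ha, Int.cast_add, Int.cast_mul, Int.cast_one, Int.cast_ofNat, h50, zero_mul, add_zero]
    have hd5 : ((g.d : ℤ) : ZMod 5) = 1 := by
      rw [hd, Int.cast_add, Int.cast_mul, Int.cast_one, Int.cast_ofNat, h50, zero_mul, add_zero]
    let m' : Fin 11 → ℤ := ![0, 0, 0, g.d * m 3 - g.b * m 6, g.d * m 4 - g.b * m 7,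
      g.d * m 5 - g.b * m 8,
      g.a * m 6 - g.c * m 3, g.a * m 7 - g.c * m 4, g.a * m 8 - g.c * m 5,
      (2 + 5 ^ (s + 1)) * m 9, (2 + 5 ^ (s + 1)) * m 10]
    refine ⟨m', ?_, ?_⟩
    · apply sc_coord _ (fun k => 5 ^ (s + 1 + 1) * m' k)
      · rw [sc_q_b]; exact (mul_zero _).symm
      · rw [sc_q_c]; exact (mul_zero _).symm
      · rw [sc_q_a, sub_self]; exact (mul_zero _).symm
      · rw [sc_q_x0]
        show _ = 5 ^ (s + 1 + 1) * (g.d * m 3 - g.b * m 6)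
        rw [hx0, hy0, hC]; ring
      · rw [sc_q_x1]
        show _ = 5 ^ (s + 1 + 1) * (g.d * m 4 - g.b * m 7)
        rw [hx1, hy1, hC]; ring
      · rw [sc_q_x2]
        show _ = 5 ^ (s + 1 + 1) * (g.d * m 5 - g.b * m 8)
        rw [hx2, hy2, hC]; ring
      · rw [sc_q_y0]
        show _ = 5 ^ (s + 1 + 1) * (g.a * m 6 - g.c * m 3)
        rw [hx0, hy0, hC]; ring
      · rw [sc_q_y1]
        show _ = 5 ^ (s + 1 + 1) * (g.a * m 7 - g.c * m 4)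
        rw [hx1, hy1, hC]; ring
      · rw [sc_q_y2]
        show _ = 5 ^ (s + 1 + 1) * (g.a * m 8 - g.c * m 5)
        rw [hx2, hy2, hC]; ring
      · rw [sc_q_u0]
        show _ = 5 ^ (s + 1 + 1) * ((2 + 5 ^ (s + 1)) * m 9)
        rw [hu0, hC]; ring
      · rw [sc_q_u1]
        show _ = 5 ^ (s + 1 + 1) * ((2 + 5 ^ (s + 1)) * m 10)
        rw [hu1, hC]; ring
    · apply sc_fin (P := fun k => ((m' k : ℤ) : ZMod 5) = E a k)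
      · exact Int.cast_zero
      · exact Int.cast_zero
      · exact Int.cast_zero
      · show ((g.d * m 3 - g.b * m 6 : ℤ) : ZMod 5) = a 3
        rw [← hma 3, Int.cast_sub, Int.cast_mul, Int.cast_mul, hd5, hb5, one_mul, zero_mul, sub_zero]
      · show ((g.d * m 4 - g.b * m 7 : ℤ) : ZMod 5) = a 4
        rw [← hma 4, Int.cast_sub, Int.cast_mul, Int.cast_mul, hd5, hb5, one_mul, zero_mul, sub_zero]
      · show ((g.d * m 5 - g.b * m 8 : ℤ) : ZMod 5) = a 5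
        rw [← hma 5, Int.cast_sub, Int.cast_mul, Int.cast_mul, hd5, hb5, one_mul, zero_mul, sub_zero]
      · show ((g.a * m 6 - g.c * m 3 : ℤ) : ZMod 5) = a 6
        rw [← hma 6, Int.cast_sub, Int.cast_mul, Int.cast_mul, ha5, hc5, one_mul, zero_mul, sub_zero]
      · show ((g.a * m 7 - g.c * m 4 : ℤ) : ZMod 5) = a 7
        rw [← hma 7, Int.cast_sub, Int.cast_mul, Int.cast_mul, ha5, hc5, one_mul, zero_mul, sub_zero]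
      · show ((g.a * m 8 - g.c * m 5 : ℤ) : ZMod 5) = a 8
        rw [← hma 8, Int.cast_sub, Int.cast_mul, Int.cast_mul, ha5, hc5, one_mul, zero_mul, sub_zero]
      · show (((2 + 5 ^ (s + 1)) * m 9 : ℤ) : ZMod 5) = 2 * a 9
        rw [← hma 9, Int.cast_mul, Int.cast_add, Int.cast_pow, Int.cast_ofNat, Int.cast_ofNat, h25, add_zero]
      · show (((2 + 5 ^ (s + 1)) * m 10 : ℤ) : ZMod 5) = 2 * a 10
        rw [← hma 10, Int.cast_mul, Int.cast_add, Int.cast_pow, Int.cast_ofNat, Int.cast_ofNat, h25, add_zero]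
  · rintro i g a ⟨m, hm, hma⟩
    show SymH i (sc C g) a
    let m' : Fin 11 → ℤ := ![m 0, m 1, m 2, C * m 3, C * m 4, C * m 5, C * m 6, C * m 7, C * m 8,
      C ^ 2 * m 9, C ^ 2 * m 10]
    refine ⟨m', ?_, ?_⟩
    · apply sc_coord _ (fun k => 5 ^ (i + 1) * m' k)
      · rw [sc_b]; exact hm 0
      · rw [sc_c]; exact hm 1
      · rw [sc_a]; exact hm 2
      · rw [sc_x0]
        show _ = 5 ^ (i + 1) * (C * m 3)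
        have : g.x0 = 5 ^ (i + 1) * m 3 := hm 3
        rw [this]; ring
      · rw [sc_x1]
        show _ = 5 ^ (i + 1) * (C * m 4)
        have : g.x1 = 5 ^ (i + 1) * m 4 := hm 4
        rw [this]; ring
      · rw [sc_x2]
        show _ = 5 ^ (i + 1) * (C * m 5)
        have : g.x2 = 5 ^ (i + 1) * m 5 := hm 5
        rw [this]; ring
      · rw [sc_y0]
        show _ = 5 ^ (i + 1) * (C * m 6)
        have : g.y0 = 5 ^ (i + 1) * m 6 := hm 6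
        rw [this]; ring
      · rw [sc_y1]
        show _ = 5 ^ (i + 1) * (C * m 7)
        have : g.y1 = 5 ^ (i + 1) * m 7 := hm 7
        rw [this]; ring
      · rw [sc_y2]
        show _ = 5 ^ (i + 1) * (C * m 8)
        have : g.y2 = 5 ^ (i + 1) * m 8 := hm 8
        rw [this]; ring
      · rw [sc_u0]
        show _ = 5 ^ (i + 1) * (C ^ 2 * m 9)
        have : g.u0 = 5 ^ (i + 1) * m 9 := hm 9
        rw [this]; ring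
      · rw [sc_u1]
        show _ = 5 ^ (i + 1) * (C ^ 2 * m 10)
        have : g.u1 = 5 ^ (i + 1) * m 10 := hm 10
        rw [this]; ring
    · apply sc_fin (P := fun k => ((m' k : ℤ) : ZMod 5) = a k)
      · exact hma 0
      · exact hma 1
      · exact hma 2
      · show ((C * m 3 : ℤ) : ZMod 5) = a 3
        rw [Int.cast_mul, hC5, one_mul]; exact hma 3
      · show ((C * m 4 : ℤ) : ZMod 5) = a 4
        rw [Int.cast_mul, hC5, one_mul]; exact hma 4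
      · show ((C * m 5 : ℤ) : ZMod 5) = a 5
        rw [Int.cast_mul, hC5, one_mul]; exact hma 5
      · show ((C * m 6 : ℤ) : ZMod 5) = a 6
        rw [Int.cast_mul, hC5, one_mul]; exact hma 6
      · show ((C * m 7 : ℤ) : ZMod 5) = a 7
        rw [Int.cast_mul, hC5, one_mul]; exact hma 7
      · show ((C * m 8 : ℤ) : ZMod 5) = a 8
        rw [Int.cast_mul, hC5, one_mul]; exact hma 8
      · show ((C ^ 2 * m 9 : ℤ) : ZMod 5) = a 9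
        rw [Int.cast_mul, Int.cast_pow, hC5, one_pow, one_mul]; exact hma 9
      · show ((C ^ 2 * m 10 : ℤ) : ZMod 5) = a 10
        rw [Int.cast_mul, Int.cast_pow, hC5, one_pow, one_mul]; exact hma 10

theorem symH_lt {i j : ℕ} (hij : i < j) {g : H} {b : L} (h : SymH j g b) : SymH i g 0 := by
  obtain ⟨k, rfl⟩ : ∃ k, j = i + 1 + k := ⟨j - (i + 1), by omega⟩
  clear hij
  induction k generalizing b with
  | zero => exact symH_down h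
  | succ k ih => exact ih (symH_down (i := i + 1 + k) h)

theorem symH_mem_Gam {i : ℕ} {g : H} {a : L} (h : SymH i g a) : g ∈ Gam := by
  rcases Nat.eq_zero_or_pos i with h0 | h0
  · subst h0
    exact ⟨a, h⟩
  · exact ⟨0, symH_lt h0 h⟩

/-- two representatives of the same class -/
theorem symH_rep {M : ℕ} {g h : Gam}
    (hgh : (QuotientGroup.mk g : Gam ⧸ Del M) = QuotientGroup.mk h) :
    ∃ w ∈ W, SymH M ((g : H)⁻¹ * (h : H)) w := by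
  have h1 : g⁻¹ * h ∈ Del M := QuotientGroup.eq.mp hgh
  obtain ⟨w, hw, hw'⟩ := h1
  exact ⟨w, hw, hw'⟩

theorem exists_Sym (M : ℕ) : Nonempty (Sym M (Gam ⧸ Del M)) := by
  refine ⟨{
    T := fun i x a => ∃ g : Gam, (QuotientGroup.mk g : Gam ⧸ Del M) = x ∧ SymH i (g : H) a
    top := ?_
    ex := ?_
    mul := ?_
    inv := ?_
    comm := ?_
    pow := ?_
    down := ?_
    up := ?_
    sep := ?_
    sepW := ?_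
    upW := ?_
    last := ?_
    scale := ?_ }⟩
  · intro x
    induction x using QuotientGroup.induction_on with
    | H g =>
      obtain ⟨a, ha⟩ := g.2
      exact ⟨a, g, rfl, ha⟩
  · intro i a
    obtain ⟨g, hg⟩ := symH_ex i a
    exact ⟨QuotientGroup.mk ⟨g, symH_mem_Gam hg⟩, ⟨g, symH_mem_Gam hg⟩, rfl, hg⟩
  · rintro i x y a b ⟨g, rfl, hg⟩ ⟨h, rfl, hh⟩
    exact ⟨g * h, rfl, symH_mul hg hh⟩
  · rintro i x a ⟨g, rfl, hg⟩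
    exact ⟨g⁻¹, rfl, symH_inv hg⟩
  · rintro i j x y a b ⟨g, rfl, hg⟩ ⟨h, rfl, hh⟩
    exact ⟨g * h * g⁻¹ * h⁻¹, rfl, symH_comm hg hh⟩
  · rintro i x a ⟨g, rfl, hg⟩
    exact ⟨g ^ 5, rfl, symH_pow hg⟩
  · rintro i x a ⟨g, rfl, hg⟩
    exact ⟨g, rfl, symH_down hg⟩
  · rintro i x ⟨g, rfl, hg⟩
    obtain ⟨b, hb⟩ := symH_up hg
    exact ⟨b, g, rfl, hb⟩
  · rintro i x a b hi ⟨g, rfl, hg⟩ ⟨h, hgh, hh⟩
    obtain ⟨w, hw, hw'⟩ := symH_rep hgh.symm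
    have h1 := symH_mul hg (symH_lt hi hw')
    rw [mul_inv_cancel_left, add_zero] at h1
    exact symH_uniq h1 (symH_down hh)
  · rintro x a b ⟨g, rfl, hg⟩ ⟨h, hgh, hh⟩
    obtain ⟨w, hw, hw'⟩ := symH_rep hgh.symm
    have h1 := symH_mul hg hw'
    rw [mul_inv_cancel_left] at h1
    have h2 := symH_uniq h1 (symH_down hh)
    rw [eq_neg_of_add_eq_zero_left h2]
    exact neg_mem hw
  · rintro x a ⟨g, rfl, hg⟩ ha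
    exact (QuotientGroup.eq_one_iff g).mpr ⟨a, ha, hg⟩
  · rintro x a ⟨g, rfl, hg⟩
    exact (QuotientGroup.eq_one_iff g).mpr ⟨0, zero_mem _, symH_down hg⟩
  · intro s
    obtain ⟨σ, h1, h2⟩ := scale_H s
    let σ' : Gam →* Gam := (σ.comp Gam.subtype).codRestrict Gam (by
      rintro ⟨g, a, ha⟩
      exact ⟨a, h2 0 g a ha⟩)
    have hσ' : Del M ≤ (Del M).comap σ' := by
      rintro g ⟨a, ha, ha'⟩
      exact ⟨a, ha, h2 M g a ha'⟩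
    refine ⟨QuotientGroup.map (Del M) (Del M) σ' hσ', ?_⟩
    rintro x a ⟨g, rfl, hg⟩
    exact ⟨g⁻¹ * σ' g, rfl, h1 g a hg⟩

end H

end Pool.Agent.Helper199.AutG
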