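import Pool.Agent.Helper199.AutG.Abs
import Pool.Agent.Helper199.AutG.Conc
set_option autoImplicit false
namespace Pool.Agent.Helper199.AutG

theorem main_result :
    ∃ (p : ℕ) (G : Type) (_ : Group G) (_ : Finite G),
      p.Prime ∧ IsPGroup p G ∧ Odd (Nat.card G) ∧ 1 < Nat.card G ∧
        Nat.card (MulAut G) = Nat.card G := by
  obtain ⟨S⟩ := H.exists_Sym 80
  have hG := S.card_G
  have hA := S.card_Aut (by norm_num)
  have hfin : Finite (H.Gam ⧸ H.Del 80) := by
    apply Nat.finite_of_card_ne_zero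
    rw [hG]; positivity
  refine ⟨5, H.Gam ⧸ H.Del 80, inferInstance, hfin, by norm_num, IsPGroup.of_card hG, ?_, ?_, ?_⟩
  · rw [hG]; exact Odd.pow (by decide)
  · rw [hG]; exact Nat.one_lt_pow (by norm_num) (by norm_num)
  · rw [hG, hA]

end Pool.Agent.Helper199.AutG
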