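import Mathlib
set_option autoImplicit false
namespace Pool.Agent.Helper199.AutG

/-- The bracket on 11-tuples (coordinates e f h, x0 x1 x2, y0 y1 y2, u0 u1). -/
def br {R : Type*} [CommRing R] (a b : Fin 11 → R) : Fin 11 → R :=
  ![2 * (a 2 * b 0 - a 0 * b 2),
    2 * (a 1 * b 2 - a 2 * b 1),
    a 0 * b 1 - a 1 * b 0,
    a 0 * b 6 + a 2 * b 3 - b 0 * a 6 - b 2 * a 3,
    a 0 * b 7 + a 2 * b 4 - b 0 * a 7 - b 2 * a 4,
    a 0 * b 8 + a 2 * b 5 - b 0 * a 8 - b 2 * a 5,
    a 1 * b 3 - a 2 * b 6 - b 1 * a 3 + b 2 * a 6,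
    a 1 * b 4 - a 2 * b 7 - b 1 * a 4 + b 2 * a 7,
    a 1 * b 5 - a 2 * b 8 - b 1 * a 5 + b 2 * a 8,
    2 * ((a 3 * b 6 - a 6 * b 3) - (a 4 * b 7 - a 7 * b 4)),
    2 * ((a 4 * b 7 - a 7 * b 4) - (a 5 * b 8 - a 8 * b 5))]

/-- The Lie algebra over the field with five elements. -/
abbrev L : Type := Fin 11 → ZMod 5

/-- The outer derivation. -/
def E {R : Type*} [CommRing R] (a : Fin 11 → R) : Fin 11 → R :=
  ![0, 0, 0, a 3, a 4, a 5, a 6, a 7, a 8, 2 * a 9, 2 * a 10]

/-- The plane spanned by e + v1 tensor (0,1,2) and f + v0 tensor (1,1,1). -/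
def W : AddSubgroup L where
  carrier := {a | a 2 = 0 ∧ a 3 = a 1 ∧ a 4 = a 1 ∧ a 5 = a 1 ∧ a 6 = 0 ∧ a 7 = a 0 ∧
    a 8 = 2 * a 0 ∧ a 9 = 0 ∧ a 10 = 0}
  zero_mem' := by simp
  add_mem' := by
    rintro a b ⟨h1, h2, h3, h4, h5, h6, h7, h8, h9⟩ ⟨k1, k2, k3, k4, k5, k6, k7, k8, k9⟩
    simp only [Set.mem_setOf_eq, Pi.add_apply]
    rw [h1, h2, h3, h4, h5, h6, h7, h8, h9, k1, k2, k3, k4, k5, k6, k7, k8, k9]
    refine ⟨?_, ?_, ?_, ?_, ?_, ?_, ?_, ?_, ?_⟩ <;> ring
  neg_mem' := by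
    rintro a ⟨h1, h2, h3, h4, h5, h6, h7, h8, h9⟩
    simp only [Set.mem_setOf_eq, Pi.neg_apply]
    rw [h1, h2, h3, h4, h5, h6, h7, h8, h9]
    refine ⟨?_, ?_, ?_, ?_, ?_, ?_, ?_, ?_, ?_⟩ <;> ring

theorem br_add_left {R : Type*} [CommRing R] (a b c : Fin 11 → R) :
    br (a + b) c = br a c + br b c := by
  ext i; fin_cases i <;> simp [br] <;> ring

theorem br_add_right {R : Type*} [CommRing R] (a b c : Fin 11 → R) :
    br a (b + c) = br a b + br a c := by
  ext i; fin_cases i <;> simp [br] <;> ring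

theorem br_swap {R : Type*} [CommRing R] (a b : Fin 11 → R) : br a b = - br b a := by
  ext i; fin_cases i <;> simp [br] <;> ring

theorem br_self {R : Type*} [CommRing R] (a : Fin 11 → R) : br a a = 0 := by
  ext i; fin_cases i <;> simp [br] <;> ring

theorem br_smul_left {R : Type*} [CommRing R] (t : R) (a b : Fin 11 → R) :
    br (t • a) b = t • br a b := by
  ext i; fin_cases i <;> simp [br] <;> ring

theorem br_smul_right {R : Type*} [CommRing R] (t : R) (a b : Fin 11 → R) :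
    br a (t • b) = t • br a b := by
  ext i; fin_cases i <;> simp [br] <;> ring

theorem br_neg_left {R : Type*} [CommRing R] (a b : Fin 11 → R) : br (-a) b = - br a b := by
  ext i; fin_cases i <;> simp [br] <;> ring

theorem br_neg_right {R : Type*} [CommRing R] (a b : Fin 11 → R) : br a (-b) = - br a b := by
  ext i; fin_cases i <;> simp [br] <;> ring

theorem br_zero_left {R : Type*} [CommRing R] (a : Fin 11 → R) : br 0 a = 0 := by
  ext i; fin_cases i <;> simp [br]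

theorem br_zero_right {R : Type*} [CommRing R] (a : Fin 11 → R) : br a 0 = 0 := by
  ext i; fin_cases i <;> simp [br]

theorem jacobi {R : Type*} [CommRing R] (a b c : Fin 11 → R) :
    br a (br b c) = br (br a b) c + br b (br a c) := by
  ext i; fin_cases i <;> simp [br] <;> ring

theorem E_add {R : Type*} [CommRing R] (a b : Fin 11 → R) : E (a + b) = E a + E b := by
  ext i; fin_cases i <;> simp [E] <;> ring

theorem E_br {R : Type*} [CommRing R] (a b : Fin 11 → R) :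
    E (br a b) = br (E a) b + br a (E b) := by
  ext i; fin_cases i <;> simp [E, br] <;> ring

end Pool.Agent.Helper199.AutG
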