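import Pool.Agent.Helper199.AutG.Lie
set_option autoImplicit false
namespace Pool.Agent.Helper199.AutG

/-- A group with a descending filtration whose first M layers are the Lie algebra and whose
last layer is the quotient by W. The relation T i x a says that x lies in layer i with
symbol a. -/
structure Sym (M : ℕ) (G : Type) [Group G] where
  T : ℕ → G → L → Prop
  top : ∀ x, ∃ a, T 0 x a
  ex : ∀ i a, ∃ x, T i x a
  mul : ∀ {i x y a b}, T i x a → T i y b → T i (x * y) (a + b)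
  inv : ∀ {i x a}, T i x a → T i x⁻¹ (-a)
  comm : ∀ {i j x y a b}, T i x a → T j y b → T (i + j + 1) (x * y * x⁻¹ * y⁻¹) (br a b)
  pow : ∀ {i x a}, T i x a → T (i + 1) (x ^ 5) a
  down : ∀ {i x a}, T (i + 1) x a → T i x 0
  up : ∀ {i x}, T i x 0 → ∃ b, T (i + 1) x b
  sep : ∀ {i x a b}, i < M → T i x a → T (i + 1) x b → a = 0
  sepW : ∀ {x a b}, T M x a → T (M + 1) x b → a ∈ W
  upW : ∀ {x a}, T M x a → a ∈ W → x = 1
  last : ∀ {x a}, T (M + 1) x a → x = 1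
  scale : ∀ s, ∃ σ : G →* G, ∀ x a, T 0 x a → T (s + 1) (x⁻¹ * σ x) (E a)

namespace Sym
variable {M : ℕ} {G : Type} [Group G] (S : Sym M G)

theorem one (i : ℕ) : S.T i 1 0 := by
  obtain ⟨x, hx⟩ := S.ex i 0
  have := S.mul hx (S.inv hx)
  simpa using this

/-- The filtration subgroup. -/
def F (i : ℕ) : Subgroup G where
  carrier := {x | ∃ a, S.T i x a}
  mul_mem' := by
    rintro x y ⟨a, ha⟩ ⟨b, hb⟩
    exact ⟨a + b, S.mul ha hb⟩
  one_mem' := ⟨0, S.one i⟩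
  inv_mem' := by
    rintro x ⟨a, ha⟩
    exact ⟨-a, S.inv ha⟩

theorem mem_F {i : ℕ} {x : G} : x ∈ S.F i ↔ ∃ a, S.T i x a := Iff.rfl

theorem mem_of {i : ℕ} {x : G} {a : L} (h : S.T i x a) : x ∈ S.F i := ⟨a, h⟩

theorem F_zero : S.F 0 = ⊤ := by
  ext x; simp only [Subgroup.mem_top, iff_true]; exact S.top x

theorem mem_F_zero (x : G) : x ∈ S.F 0 := S.top x

theorem F_succ_le (i : ℕ) : S.F (i + 1) ≤ S.F i := by
  rintro x ⟨a, ha⟩
  exact ⟨0, S.down ha⟩

theorem F_anti {i j : ℕ} (h : i ≤ j) : S.F j ≤ S.F i := by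
  induction h with
  | refl => exact le_rfl
  | step _ ih => exact le_trans (S.F_succ_le _) ih

theorem zero_of_mem_succ {i : ℕ} {x : G} (h : x ∈ S.F (i + 1)) : S.T i x 0 := by
  obtain ⟨a, ha⟩ := h
  exact S.down ha

theorem mem_succ_iff {i : ℕ} {x : G} : x ∈ S.F (i + 1) ↔ S.T i x 0 :=
  ⟨S.zero_of_mem_succ, fun h => S.up h⟩

theorem F_last : S.F (M + 1) = ⊥ := by
  ext x
  rw [Subgroup.mem_bot]
  constructor
  · rintro ⟨a, ha⟩; exact S.last ha
  · rintro rfl; exact Subgroup.one_mem _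

theorem F_eq_bot {i : ℕ} (h : M + 1 ≤ i) : S.F i = ⊥ := by
  rw [eq_bot_iff, ← S.F_last]; exact S.F_anti h

theorem congr {i : ℕ} {x y : G} {a : L} (h : S.T i x a) (hxy : x⁻¹ * y ∈ S.F (i + 1)) :
    S.T i y a := by
  have := S.mul h (S.zero_of_mem_succ hxy)
  simpa using this

theorem diff {i : ℕ} {x y : G} {a b : L} (h : S.T i x a) (k : S.T i y b) :
    S.T i (x⁻¹ * y) (b - a) := by
  have := S.mul (S.inv h) k
  rwa [neg_add_eq_sub] at this

theorem uniq {i : ℕ} (hi : i < M) {x : G} {a b : L} (h : S.T i x a) (k : S.T i x b) : a = b := by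
  have h1 := S.diff h k
  rw [inv_mul_cancel] at h1
  have h2 := S.sep hi h1 (S.one (i + 1))
  exact (sub_eq_zero.mp h2).symm

theorem uniqW {x : G} {a b : L} (h : S.T M x a) (k : S.T M x b) : b - a ∈ W := by
  have h1 := S.diff h k
  rw [inv_mul_cancel] at h1
  exact S.sepW h1 (S.one (M + 1))

theorem uniq_mod {i : ℕ} (hi : i ≤ M) {x : G} {a b : L} (h : S.T i x a) (k : S.T i x b) :
    b - a ∈ W := by
  rcases Nat.lt_or_eq_of_le hi with h1 | h1
  · rw [S.uniq h1 h k, sub_self]; exact zero_mem _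
  · subst h1; exact S.uniqW h k

theorem comm_mem {i j : ℕ} {x y : G} (hx : x ∈ S.F i) (hy : y ∈ S.F j) :
    x * y * x⁻¹ * y⁻¹ ∈ S.F (i + j + 1) := by
  obtain ⟨a, ha⟩ := hx
  obtain ⟨b, hb⟩ := hy
  exact ⟨_, S.comm ha hb⟩

theorem comm_mem_succ {i : ℕ} {x : G} (y : G) (hx : x ∈ S.F i) :
    x * y * x⁻¹ * y⁻¹ ∈ S.F (i + 1) :=
  S.comm_mem hx (S.mem_F_zero y)

instance F_normal (i : ℕ) : (S.F i).Normal where
  conj_mem x hx g := by
    have h1 : g * x * g⁻¹ * x⁻¹ ∈ S.F i := by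
      have := S.comm_mem (S.mem_F_zero g) hx
      rw [Nat.zero_add] at this
      exact S.F_succ_le _ this
    have h2 : g * x * g⁻¹ = (g * x * g⁻¹ * x⁻¹) * x := by group
    rw [h2]
    exact mul_mem h1 hx

/-- conjugation does not change the symbol -/
theorem conj {i : ℕ} {x : G} {a : L} (h : S.T i x a) (g : G) : S.T i (g * x * g⁻¹) a := by
  apply S.congr h
  have h1 : x⁻¹ * (g * x * g⁻¹) = x⁻¹ * g * x⁻¹⁻¹ * g⁻¹ := by group
  rw [h1]
  exact S.comm_mem_succ g (inv_mem (S.mem_of h))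

/-- commutator of elements of F i and F j is trivial modulo F (i+j+1) -/
theorem commute_mk {i j m : ℕ} (hm : m ≤ i + j + 1) {x y : G} (hx : x ∈ S.F i) (hy : y ∈ S.F j) :
    (QuotientGroup.mk x : G ⧸ S.F m) * QuotientGroup.mk y =
      QuotientGroup.mk y * QuotientGroup.mk x := by
  rw [← QuotientGroup.mk_mul, ← QuotientGroup.mk_mul, QuotientGroup.eq]
  have h1 : (x * y)⁻¹ * (y * x) = y⁻¹ * x⁻¹ * y⁻¹⁻¹ * x⁻¹⁻¹ := by group
  rw [h1]
  apply S.F_anti hm
  have := S.comm_mem (inv_mem hy) (inv_mem hx)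
  rwa [Nat.add_comm j i] at this

end Sym
end Pool.Agent.Helper199.AutG
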